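import Pool.Agent.V5helper88.U

/-!
Clifford spaces of self-adjoint matrices: nondegeneracy, orthonormal bases and the decomposition
of the operators normalising such a space.
-/

namespace Pool.Agent.V5helper88.F4

open Matrix Module

variable {H : Set M8} {U : Submodule ℂ M8}

/-- The symplectic form. -/
def om (v w : Fin 8 → ℂ) : ℂ := v ⬝ᵥ (J8 *ᵥ w)

theorem om_sy {a : M8} (ha : Sy a) (v w : Fin 8 → ℂ) : om (a *ᵥ v) w = om v (a *ᵥ w) := by
  unfold om
  rw [mulVec_dot, mulVec_mulVec, mulVec_mulVec, ha]

theorem om_sk {a : M8} (ha : Sk a) (v w : Fin 8 → ℂ) : om (a *ᵥ v) w = - om v (a *ᵥ w) := by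
  unfold om
  rw [mulVec_dot, mulVec_mulVec, mulVec_mulVec, ha, neg_mulVec, dotProduct_neg]

theorem om_swap (v w : Fin 8 → ℂ) : om w v = - om v w := by
  unfold om
  rw [dotProduct_comm w, mulVec_dot, J8_tr, neg_mulVec, dotProduct_neg]

theorem om_self (v : Fin 8 → ℂ) : om v v = 0 := by
  have h := om_swap v v
  linear_combination (1 / 2 : ℂ) * h

theorem om_add_left (v v' w : Fin 8 → ℂ) : om (v + v') w = om v w + om v' w := add_dotProduct _ _ _

theorem om_smul_left (z : ℂ) (v w : Fin 8 → ℂ) : om (z • v) w = z * om v w := by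
  unfold om; rw [smul_dotProduct, smul_eq_mul]

theorem om_add_right (v w w' : Fin 8 → ℂ) : om v (w + w') = om v w + om v w' := by
  unfold om; rw [mulVec_add, dotProduct_add]

theorem om_smul_right (z : ℂ) (v w : Fin 8 → ℂ) : om v (z • w) = z * om v w := by
  unfold om; rw [mulVec_smul, dotProduct_smul, smul_eq_mul]

theorem om_neg_left (v w : Fin 8 → ℂ) : om (-v) w = - om v w := by
  unfold om; rw [neg_dotProduct]

theorem om_neg_right (v w : Fin 8 → ℂ) : om v (-w) = - om v w := by
  unfold om; rw [mulVec_neg, dotProduct_neg]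

theorem om_zero_right (v : Fin 8 → ℂ) : om v 0 = 0 := by
  unfold om; rw [mulVec_zero, dotProduct_zero]

theorem om_zero_left (v : Fin 8 → ℂ) : om 0 v = 0 := by
  unfold om; rw [zero_dotProduct]

theorem om_nondeg {v : Fin 8 → ℂ} (h : ∀ w, om v w = 0) : v = 0 := by
  funext i
  have h1 := h (-(J8 *ᵥ Pi.single i 1))
  unfold om at h1
  rw [mulVec_neg, mulVec_mulVec, J8_sq, neg_mulVec, one_mulVec, neg_neg, dotProduct_single] at h1
  simpa using h1

/-- The radical of the Clifford form is zero. -/
theorem rad_zero (hH : Ctx H) (hU : CliffU H U) {a : M8} (ha : a ∈ U)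
    (h : ∀ b ∈ U, trace (a * b) = 0) : a = 0 := by
  -- the radical
  let R : Submodule ℂ M8 :=
    { carrier := {x | x ∈ U ∧ ∀ b ∈ U, trace (x * b) = 0}
      zero_mem' := ⟨U.zero_mem, fun b _ => by rw [zero_mul, trace_zero]⟩
      add_mem' := fun {x y} hx hy => ⟨U.add_mem hx.1 hy.1, fun b hb => by
        rw [add_mul, trace_add, hx.2 b hb, hy.2 b hb, add_zero]⟩
      smul_mem' := fun z x hx => ⟨U.smul_mem z hx.1, fun b hb => by
        rw [smul_mul_assoc, trace_smul, hx.2 b hb, smul_zero]⟩ }
  have hRad : ∀ X ∈ H, ∀ x ∈ R, X * x - x * X ∈ R := by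
    intro X hX x hx
    refine ⟨hU.ad X hX x hx.1, fun b hb => ?_⟩
    have h1 := hx.2 _ (hU.ad X hX b hb)
    have h2 : trace ((X * x - x * X) * b) = - trace (x * (X * b - b * X)) := by
      rw [sub_mul, mul_sub, trace_sub, trace_sub, mul_assoc X x b, trace_mul_comm X (x * b),
        mul_assoc x X b, mul_assoc x b X]
      ring
    rw [h2, h1, neg_zero]
  have hanti : ∀ x ∈ R, ∀ y ∈ R, x * y = -(y * x) := by
    intro x hx y hy
    have h1 := hU.cl x hx.1 y hy.1
    rw [hx.2 y hy.1, zero_div, zero_smul] at h1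
    exact eq_neg_of_add_eq_zero_left h1
  have hsq : ∀ x ∈ R, x * x = 0 := by
    intro x hx
    have h1 := hanti x hx x hx
    have h2 : (2 : ℂ) • (x * x) = 0 := by
      rw [two_smul]; nth_rewrite 1 [h1]; exact neg_add_cancel _
    rcases smul_eq_zero.mp h2 with h3 | h3
    · exact absurd h3 (by norm_num)
    · exact h3
  -- the common kernel
  let K : Submodule ℂ (Fin 8 → ℂ) :=
    { carrier := {v | ∀ x ∈ R, x *ᵥ v = 0}
      zero_mem' := fun x _ => mulVec_zero x
      add_mem' := fun {v w} hv hw x hx => by rw [mulVec_add, hv x hx, hw x hx, add_zero]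
      smul_mem' := fun z v hv x hx => by rw [mulVec_smul, hv x hx, smul_zero] }
  let K' : Submodule ℂ (Fin 8 → ℂ) :=
    { carrier := {v | ∀ w ∈ K, om v w = 0}
      zero_mem' := fun w _ => om_zero_left w
      add_mem' := fun {v w} hv hw x hx => by rw [om_add_left, hv x hx, hw x hx, add_zero]
      smul_mem' := fun z v hv x hx => by rw [om_smul_left, hv x hx, mul_zero] }
  have hKs : ∀ X ∈ H, ∀ v ∈ K, X *ᵥ v ∈ K := by
    intro X hX v hv x hx
    have h1 := hv _ (hRad X hX x hx)
    rw [sub_mulVec, ← mulVec_mulVec, hv x hx, mulVec_zero, zero_sub, neg_eq_zero] at h1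
    rw [mulVec_mulVec]; exact h1
  have hKs' : ∀ X ∈ H, ∀ v ∈ K', X *ᵥ v ∈ K' := by
    intro X hX v hv w hw
    rw [om_sk (hH.sk X hX), hv _ (hKs X hX w hw), neg_zero]
  have hKK : K ⊓ K' = ⊥ := by
    refine hH.nondeg _ ?_ ?_
    · intro X hX v hv
      exact ⟨hKs X hX v hv.1, hKs' X hX v hv.2⟩
    · intro v hv w hw
      exact hv.2 w hw.1
  -- finding a killed vector
  let ev : (Fin 8 → ℂ) → M8 →ₗ[ℂ] (Fin 8 → ℂ) := fun v =>
    { toFun := fun x => x *ᵥ v
      map_add' := fun x y => add_mulVec x y v
      map_smul' := fun z x => smul_mulVec z x v }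
  have hev : ∀ v x, ev v x = x *ᵥ v := fun _ _ => rfl
  have hfind : ∀ n : ℕ, ∀ v ∈ K', v ≠ 0 → finrank ℂ (R.map (ev v)) = n →
      ∃ w ∈ K', w ≠ 0 ∧ w ∈ K := by
    intro n
    induction n using Nat.strong_induction_on with
    | _ n ih =>
      intro v hv hv0 hn
      by_cases hk : v ∈ K
      · exact ⟨v, hv, hv0, hk⟩
      have hk' : ∃ x ∈ R, x *ᵥ v ≠ 0 := by
        by_contra hcon
        push Not at hcon
        exact hk hcon
      obtain ⟨x, hx, hxv⟩ := hk'
      have h1 : x *ᵥ v ∈ K' := by
        intro w hw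
        rw [om_sy (hU.sy x hx.1), hw x hx, om_zero_right]
      have h2 : R.map (ev (x *ᵥ v)) ≤ (R.map (ev v)).map (Matrix.toLin' x) := by
        rintro _ ⟨y, hy, rfl⟩
        refine ⟨-(y *ᵥ v), ?_, ?_⟩
        · exact Submodule.neg_mem _ ⟨y, hy, rfl⟩
        · rw [hev, toLin'_apply, mulVec_neg, mulVec_mulVec, mulVec_mulVec,
            hanti y hy x hx, neg_mulVec]
      have h3 : finrank ℂ ((R.map (ev v)).map (Matrix.toLin' x)) < finrank ℂ (R.map (ev v)) := by
        have h4 := LinearMap.finrank_range_add_finrank_ker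
          ((Matrix.toLin' x).domRestrict (R.map (ev v)))
        rw [LinearMap.range_domRestrict] at h4
        have h5 : 0 < finrank ℂ (LinearMap.ker ((Matrix.toLin' x).domRestrict (R.map (ev v)))) := by
          have hmem : (⟨x *ᵥ v, ⟨x, hx, rfl⟩⟩ : R.map (ev v)) ∈
              LinearMap.ker ((Matrix.toLin' x).domRestrict (R.map (ev v))) := by
            rw [LinearMap.mem_ker, LinearMap.domRestrict_apply, toLin'_apply, mulVec_mulVec,
              hsq x hx, zero_mulVec]
          have hnt : Nontrivial (LinearMap.ker ((Matrix.toLin' x).domRestrict (R.map (ev v)))) := by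
            refine ⟨⟨⟨_, hmem⟩, 0, ?_⟩⟩
            intro h6
            exact hxv (congrArg Subtype.val (congrArg Subtype.val h6))
          exact Module.finrank_pos (R := ℂ)
            (M := LinearMap.ker ((Matrix.toLin' x).domRestrict (R.map (ev v))))
        omega
      have h6 := Submodule.finrank_mono h2
      exact ih _ (by omega) _ h1 hxv rfl
  have hK'bot : K' = ⊥ := by
    rw [Submodule.eq_bot_iff]
    intro v hv
    by_contra hv0
    obtain ⟨w, hw, hw0, hwK⟩ := hfind _ v hv hv0 rfl
    have : w ∈ K ⊓ K' := ⟨hwK, hw⟩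
    rw [hKK] at this
    exact hw0 (by simpa using this)
  -- the kernel is everything
  let B : LinearMap.BilinForm ℂ (Fin 8 → ℂ) :=
    LinearMap.mk₂ ℂ om om_add_left (fun z v w => by rw [om_smul_left, smul_eq_mul])
      om_add_right (fun z v w => by rw [om_smul_right, smul_eq_mul])
  have hBa : ∀ v w, B v w = om v w := fun _ _ => rfl
  have hBnd : B.Nondegenerate := by
    refine ⟨fun v hv => om_nondeg fun w => hv w, fun v hv => om_nondeg fun w => ?_⟩
    rw [om_swap]; rw [show om w v = 0 from hv w, neg_zero]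
  have hBr : B.IsRefl := by
    intro v w hvw
    rw [hBa] at hvw ⊢
    rw [om_swap, hvw, neg_zero]
  have hKtop : K = ⊤ := by
    have h1 := LinearMap.BilinForm.finrank_orthogonal hBnd K
    have h2 : LinearMap.BilinForm.orthogonal B K = ⊥ := by
      rw [Submodule.eq_bot_iff]
      intro v hv
      have h3 : v ∈ K' := by
        intro w hw
        have h4 := (LinearMap.BilinForm.mem_orthogonal_iff.mp hv) w hw
        rw [om_swap]
        have h5 : om w v = 0 := h4
        rw [h5, neg_zero]
      rw [hK'bot] at h3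
      simpa using h3
    rw [h2, finrank_bot] at h1
    apply Submodule.eq_top_of_finrank_eq
    have h3 := Submodule.finrank_le K
    omega
  have haR : a ∈ R := ⟨ha, h⟩
  have h1 : ∀ v, a *ᵥ v = 0 := by
    intro v
    have : v ∈ K := by rw [hKtop]; trivial
    exact this a haR
  apply (Matrix.toLin'.map_eq_zero_iff).1
  refine LinearMap.ext fun v => ?_
  rw [toLin'_apply, h1, LinearMap.zero_apply]

/-- An orthonormal basis of a Clifford space. -/
structure CliffB (H : Set M8) (n : ℕ) (e : Fin n → M8) : Prop where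
  sy : ∀ i, Sy (e i)
  sq : ∀ i, e i * e i = 1
  anti : ∀ i j, i ≠ j → e i * e j = -(e j * e i)
  trD : ∀ i, ∀ P, Cm H P → trace (e i * P) = 0
  ad : ∀ X ∈ H, ∀ i, X * e i - e i * X ∈ Submodule.span ℂ (Set.range e)

theorem exists_cliffB (hH : Ctx H) (hU : CliffU H U) : ∃ n, 0 < n ∧ ∃ e : Fin n → M8,
    CliffB H n e := by
  let B : LinearMap.BilinForm ℂ U :=
    LinearMap.mk₂ ℂ (fun a b => trace ((a : M8) * (b : M8)))
      (fun x y b => by simp only [Submodule.coe_add, add_mul, trace_add])
      (fun z x b => by simp only [Submodule.coe_smul, smul_mul_assoc, trace_smul])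
      (fun x y b => by simp only [Submodule.coe_add, mul_add, trace_add])
      (fun z x b => by simp only [Submodule.coe_smul, mul_smul_comm, trace_smul])
  have hB : ∀ a b : U, B a b = trace ((a : M8) * (b : M8)) := fun _ _ => rfl
  have hsymm : LinearMap.IsSymm B := ⟨fun a b => by
    show B a b = B b a
    rw [hB, hB, trace_mul_comm]⟩
  obtain ⟨v, hv⟩ := LinearMap.BilinForm.exists_orthogonal_basis (B := B) hsymm
  have hvo : ∀ i j, i ≠ j → trace ((v i : M8) * (v j : M8)) = 0 := by
    intro i j hij
    exact hv hij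
  have hnz : ∀ i, trace ((v i : M8) * (v i : M8)) ≠ 0 := by
    intro i h0
    have h1 : (v i : M8) = 0 := by
      refine rad_zero hH hU (v i).2 fun b hb => ?_
      have h2 : B (v i) = 0 := by
        refine v.ext fun j => ?_
        rw [LinearMap.zero_apply, hB]
        by_cases hij : i = j
        · rw [← hij]; exact h0
        · exact hvo i j hij
      have h3 := hB (v i) ⟨b, hb⟩
      rw [h2, LinearMap.zero_apply] at h3
      exact h3.symm
    exact v.ne_zero i (Subtype.ext h1)
  have hs : ∀ i, ∃ s : ℂ, s ^ 2 = trace ((v i : M8) * (v i : M8)) / 8 :=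
    fun i => IsAlgClosed.exists_pow_nat_eq _ (by norm_num)
  choose s hs using hs
  have hs0 : ∀ i, s i ≠ 0 := by
    intro i h0
    have h1 := hs i
    rw [h0] at h1
    apply hnz i
    linear_combination (-8 : ℂ) * h1
  refine ⟨finrank ℂ U, ?_, fun i => (s i)⁻¹ • (v i : M8), ?_, ?_, ?_, ?_, ?_⟩
  · rw [Module.finrank_pos_iff]
    exact Submodule.nontrivial_iff_ne_bot.mpr hU.ne
  · intro i
    exact (hU.sy _ (v i).2).smul _
  · intro i
    have h1 := hU.cl _ (v i).2 _ (v i).2
    have h2 : (v i : M8) * (v i : M8) = (s i ^ 2) • (1 : M8) := by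
      have h3 : (2 : ℂ) • ((v i : M8) * (v i : M8))
          = (2 : ℂ) • ((s i ^ 2) • (1 : M8)) := by
        rw [two_smul, h1, smul_smul, hs i]; congr 1; ring
      have h4 := congrArg (fun m => (1 / 2 : ℂ) • m) h3
      simp only [smul_smul] at h4
      rw [show (1 / 2 : ℂ) * 2 = 1 by norm_num, one_smul,
        show (1 / 2 : ℂ) * (2 * s i ^ 2) = s i ^ 2 by ring] at h4
      exact h4
    rw [smul_mul_smul_comm, h2, smul_smul]
    have h5 : (s i)⁻¹ * (s i)⁻¹ * s i ^ 2 = 1 := by
      have := hs0 i
      field_simp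
    rw [h5, one_smul]
  · intro i j hij
    have h1 := hU.cl _ (v i).2 _ (v j).2
    rw [hvo i j hij, zero_div, zero_smul] at h1
    have h2 := eq_neg_of_add_eq_zero_left h1
    rw [smul_mul_smul_comm, smul_mul_smul_comm, h2, smul_neg, mul_comm]
  · intro i P hP
    rw [smul_mul_assoc, trace_smul, hU.trD _ (v i).2 P hP, smul_zero]
  · intro X hX i
    have h1 : X * ((s i)⁻¹ • (v i : M8)) - ((s i)⁻¹ • (v i : M8)) * X
        = (s i)⁻¹ • (X * (v i : M8) - (v i : M8) * X) := by
      rw [mul_smul_comm, smul_mul_assoc, smul_sub]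
    rw [h1]
    refine Submodule.smul_mem _ _ ?_
    have h2 := hU.ad X hX _ (v i).2
    have h3 : ∀ y : U, (y : M8) ∈ Submodule.span ℂ (Set.range fun i => (s i)⁻¹ • (v i : M8)) := by
      intro y
      rw [← v.sum_repr y, Submodule.coe_sum]
      refine Submodule.sum_mem _ fun j _ => ?_
      rw [Submodule.coe_smul]
      have h4 : (v j : M8) = s j • ((s j)⁻¹ • (v j : M8)) := by
        rw [smul_smul, mul_inv_cancel₀ (hs0 j), one_smul]
      rw [h4]
      exact Submodule.smul_mem _ _ (Submodule.smul_mem _ _ (Submodule.subset_span ⟨j, rfl⟩))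
    exact h3 ⟨_, h2⟩

/-- Each element normalising the Clifford space is a sum of products of two basis elements and
of a skew-adjoint element of the centraliser. -/
theorem dec {n : ℕ} {e : Fin n → M8} (hH : Ctx H) (he : CliffB H n e) {X : M8} (hX : X ∈ H) :
    ∃ y z : M8, X = y + z ∧
      y ∈ Submodule.span ℂ (Set.range fun p : Fin n × Fin n => e p.1 * e p.2) ∧
      (∀ l, z * e l = e l * z) ∧ Sk z := by
  have h1 : ∀ i, ∃ α : Fin n → ℂ, ∑ j, α j • e j = X * e i - e i * X := fun i =>
    (Submodule.mem_span_range_iff_exists_fun ℂ).mp (he.ad X hX i)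
  choose α hα using h1
  have htr : ∀ i j, trace (e i * e j) = if i = j then 8 else 0 := by
    intro i j
    by_cases hij : i = j
    · rw [if_pos hij, hij, he.sq j, trace_one, Fintype.card_fin]; norm_num
    · rw [if_neg hij]
      have h2 : trace (e i * e j) = - trace (e i * e j) := by
        conv_lhs => rw [he.anti i j hij, trace_neg, trace_mul_comm]
      linear_combination (1 / 2 : ℂ) * h2
  have htα : ∀ i j, trace ((X * e i - e i * X) * e j) = 8 * α i j := by
    intro i j
    rw [← hα i, Finset.sum_mul, trace_sum]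
    simp only [smul_mul_assoc, trace_smul, htr, smul_eq_mul, mul_ite, mul_zero,
      Finset.sum_ite_eq', Finset.mem_univ, if_true]
    ring
  have hanti : ∀ i j, α i j = - α j i := by
    intro i j
    have h2 : trace ((X * e i - e i * X) * e j) = - trace ((X * e j - e j * X) * e i) := by
      rw [sub_mul, sub_mul, trace_sub, trace_sub, mul_assoc X (e i), mul_assoc X (e j),
        trace_mul_comm X (e i * e j), mul_assoc (e i) X, trace_mul_comm (e i) (X * e j),
        trace_mul_comm X (e j * e i), mul_assoc (e j) X, trace_mul_comm (e j) (X * e i)]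
      rw [mul_assoc X (e j) (e i), mul_assoc X (e i) (e j), trace_mul_comm X (e j * e i),
        trace_mul_comm X (e i * e j)]
      ring
    rw [htα, htα] at h2
    linear_combination (1 / 8 : ℂ) * h2
  set y : M8 := (1 / 4 : ℂ) • ∑ i, ∑ j, α i j • (e j * e i) with hy
  have hrel : ∀ i j, e i * e j + e j * e i = if i = j then (2 : ℂ) • (1 : M8) else 0 := by
    intro i j
    by_cases hij : i = j
    · rw [if_pos hij, hij, he.sq j, two_smul]
    · rw [if_neg hij, he.anti i j hij, neg_add_cancel]
  have hcm : ∀ l, y * e l - e l * y = X * e l - e l * X := by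
    intro l
    have h3 : ∀ i j, (e j * e i) * e l - e l * (e j * e i)
        = (if i = l then (2 : ℂ) • e j else 0) - (if j = l then (2 : ℂ) • e i else 0) := by
      intro i j
      have h4 : (e j * e i) * e l - e l * (e j * e i)
          = e j * (e i * e l + e l * e i) - (e j * e l + e l * e j) * e i := by noncomm_ring
      rw [h4, hrel, hrel]
      congr 1
      · split_ifs
        · rw [mul_smul_comm, mul_one]
        · rw [mul_zero]
      · split_ifs
        · rw [smul_mul_assoc, one_mul]
        · rw [zero_mul]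
    have h5 : y * e l - e l * y
        = (1 / 4 : ℂ) • ∑ i, ∑ j, α i j • ((e j * e i) * e l - e l * (e j * e i)) := by
      rw [hy, smul_mul_assoc, mul_smul_comm, ← smul_sub, Finset.sum_mul, Finset.mul_sum,
        ← Finset.sum_sub_distrib]
      congr 1
      refine Finset.sum_congr rfl fun i _ => ?_
      rw [Finset.sum_mul, Finset.mul_sum, ← Finset.sum_sub_distrib]
      refine Finset.sum_congr rfl fun j _ => ?_
      rw [smul_mul_assoc, mul_smul_comm, smul_sub]
    rw [h5]
    simp only [h3, smul_sub, Finset.sum_sub_distrib, smul_ite, smul_zero]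
    have h6 : ∑ i, ∑ j, (if i = l then α i j • (2 : ℂ) • e j else 0)
        = (2 : ℂ) • ∑ j, α l j • e j := by
      rw [Finset.sum_eq_single l]
      · simp only [if_true, Finset.smul_sum]
        refine Finset.sum_congr rfl fun j _ => ?_
        rw [smul_comm]
      · intro i _ hi
        simp [hi]
      · intro h; exact absurd (Finset.mem_univ _) h
    have h7 : ∑ i, ∑ j, (if j = l then α i j • (2 : ℂ) • e i else 0)
        = - (2 : ℂ) • ∑ j, α l j • e j := by
      simp only [Finset.sum_ite_eq', Finset.mem_univ, if_true, Finset.smul_sum]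
      refine Finset.sum_congr rfl fun i _ => ?_
      rw [hanti i l, smul_comm, neg_smul, neg_smul, smul_neg]
    rw [h6, h7, hα l, ← smul_sub, neg_smul, sub_neg_eq_add, ← two_smul ℂ, smul_smul, smul_smul]
    norm_num
  have hys : Sk y := by
    rw [sk_iff, hy, st_smul, ← smul_neg]
    congr 1
    have hsum : ∀ (s : Finset (Fin n)) (f : Fin n → M8), st (∑ i ∈ s, f i) = ∑ i ∈ s, st (f i) := by
      intro s f
      induction s using Finset.cons_induction with
      | empty => simp [st]
      | cons a s ha ih => rw [Finset.sum_cons, Finset.sum_cons, st_add, ih]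
    rw [hsum, ← Finset.sum_neg_distrib]
    simp only [hsum, st_smul, st_mul, (sy_iff _).mp (he.sy _), ← Finset.sum_neg_distrib]
    rw [Finset.sum_comm]
    refine Finset.sum_congr rfl fun i _ => Finset.sum_congr rfl fun j _ => ?_
    rw [hanti i j, neg_smul, neg_neg]
  refine ⟨y, X - y, by abel, ?_, ?_, ?_⟩
  · rw [hy]
    refine Submodule.smul_mem _ _ (Submodule.sum_mem _ fun i _ => Submodule.sum_mem _ fun j _ =>
      Submodule.smul_mem _ _ (Submodule.subset_span ⟨(j, i), rfl⟩))
  · intro l
    have h8 := hcm l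
    have h9 : (X - y) * e l - e l * (X - y) = 0 := by
      have : (X - y) * e l - e l * (X - y)
          = (X * e l - e l * X) - (y * e l - e l * y) := by noncomm_ring
      rw [this, h8, sub_self]
    exact sub_eq_zero.mp h9
  · rw [sk_iff, st_sub, (sk_iff X).mp (hH.sk X hX), (sk_iff y).mp hys]
    abel

end Pool.Agent.V5helper88.F4
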