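import Pool.Agent.V5helper88.C1

/-!
Products of anticommuting involutions; exclusion of the Clifford spaces of dimension different
from four and five.
-/

namespace Pool.Agent.V5helper88.F4

open Matrix Module

variable {H : Set M8} {n : ℕ} {e : Fin n → M8}

/-- Anticommuting self-adjoint involutions. -/
structure Cl (n : ℕ) (e : Fin n → M8) : Prop where
  sy : ∀ i, Sy (e i)
  sq : ∀ i, e i * e i = 1
  anti : ∀ i j, i ≠ j → e i * e j = -(e j * e i)

theorem CliffB.cl (he : CliffB H n e) : Cl n e := ⟨he.sy, he.sq, he.anti⟩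

theorem prod_comm (he : Cl n e) (l : Fin n) : ∀ L : List (Fin n), L.Nodup →
    (L.map e).prod * e l
      = ((-1 : ℂ) ^ (L.length + if l ∈ L then 1 else 0)) • (e l * (L.map e).prod) := by
  intro L
  induction L with
  | nil => intro _; simp
  | cons a t ih =>
    intro hL
    rw [List.nodup_cons] at hL
    have h1 := ih hL.2
    rw [List.map_cons, List.prod_cons, mul_assoc, h1, mul_smul_comm]
    by_cases hal : l = a
    · subst hal
      rw [if_neg hL.1, if_pos (List.mem_cons_self), add_zero, List.length_cons, pow_succ, pow_succ]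
      rw [mul_assoc ((-1 : ℂ) ^ t.length)]
      norm_num
    · have h2 : (l ∈ a :: t) ↔ l ∈ t := by
        rw [List.mem_cons]; exact ⟨fun h => h.resolve_left hal, Or.inr⟩
      simp only [h2]
      rw [← mul_assoc, he.anti a l (Ne.symm hal), List.length_cons,
        show t.length + 1 + (if l ∈ t then 1 else 0) = (t.length + if l ∈ t then 1 else 0) + 1
          by ring, pow_succ, mul_neg_one, neg_smul, neg_mul, smul_neg, mul_assoc]

theorem prod_st (he : Cl n e) : ∀ L : List (Fin n), L.Nodup →
    st (L.map e).prod = ((-1 : ℂ) ^ (∑ i ∈ Finset.range L.length, i)) • (L.map e).prod := by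
  intro L
  induction L with
  | nil => intro _; simp [st_one]
  | cons a t ih =>
    intro hL
    rw [List.nodup_cons] at hL
    rw [List.map_cons, List.prod_cons, st_mul, ih hL.2, (sy_iff _).mp (he.sy a), smul_mul_assoc,
      prod_comm he a t hL.2, if_neg hL.1, add_zero, smul_smul, List.length_cons,
      Finset.sum_range_succ, pow_add]

theorem prod_mul_st (he : Cl n e) : ∀ L : List (Fin n),
    (L.map e).prod * st (L.map e).prod = 1 := by
  intro L
  induction L with
  | nil => simp [st_one]
  | cons a t ih =>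
    rw [List.map_cons, List.prod_cons, st_mul, (sy_iff _).mp (he.sy a)]
    have : e a * (t.map e).prod * (st (t.map e).prod * e a)
        = e a * ((t.map e).prod * st (t.map e).prod) * e a := by noncomm_ring
    rw [this, ih, mul_one, he.sq]

theorem trace_of_anti {P s : M8} (hs : s * s = 1) (h : P * s = -(s * P)) : trace P = 0 := by
  have h1 : trace P = - trace P := by
    conv_lhs => rw [← mul_one P, ← hs, ← mul_assoc, h, neg_mul, trace_neg, trace_mul_comm,
      ← mul_assoc, hs, one_mul]
  linear_combination (1 / 2 : ℂ) * h1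

theorem trace_prod {f : Fin 7 → M8} (hf : Cl 7 f) (L : List (Fin 7)) (hL : L.Nodup)
    (h0 : L ≠ []) : trace (L.map f).prod = 0 := by
  have hlen : L.length ≤ 7 := by
    have := hL.length_le_card
    simpa using this
  rcases Nat.even_or_odd L.length with hev | hod
  · obtain ⟨a, ha⟩ := List.exists_mem_of_ne_nil L h0
    refine trace_of_anti (hf.sq a) ?_
    rw [prod_comm hf a L hL, if_pos ha, pow_succ, hev.neg_one_pow]
    simp
  · by_cases h7 : L.length = 7
    · have h1 := prod_st hf L hL
      rw [h7] at h1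
      have h2 : ∑ i ∈ Finset.range 7, i = 21 := by decide
      rw [h2, show ((-1 : ℂ) ^ 21) = -1 by norm_num, neg_one_smul] at h1
      have h3 := tr_st (L.map f).prod
      rw [h1, trace_neg] at h3
      linear_combination (-1 / 2 : ℂ) * h3
    · have h1 : ∃ a, a ∉ L := by
        by_contra hcon
        push Not at hcon
        have h2 : (Finset.univ : Finset (Fin 7)) ⊆ L.toFinset := fun a _ =>
          List.mem_toFinset.mpr (hcon a)
        have h3 := Finset.card_le_card h2
        rw [List.toFinset_card_of_nodup hL, Finset.card_univ, Fintype.card_fin] at h3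
        omega
      obtain ⟨a, ha⟩ := h1
      refine trace_of_anti (hf.sq a) ?_
      rw [prod_comm hf a L hL, if_neg ha, add_zero, hod.neg_one_pow]
      simp

theorem idem_trace_nat {p : M8} (hp : p * p = p) : ∃ m : ℕ, trace p = m := by
  have hff : IsIdempotentElem (Matrix.toLin' p) := by
    unfold IsIdempotentElem
    rw [Module.End.mul_eq_comp, ← Matrix.toLin'_mul, hp]
  have h1 := (LinearMap.IsIdempotentElem.isProj_range _ hff).trace
  rw [Matrix.trace_toLin'_eq] at h1
  exact ⟨_, h1⟩

theorem half_idem {g : M8} (hg : g * g = 1) :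
    ((1 / 2 : ℂ) • (1 + g)) * ((1 / 2 : ℂ) • (1 + g)) = (1 / 2 : ℂ) • (1 + g) := by
  rw [smul_mul_smul_comm]
  have h1 : (1 + g) * (1 + g) = (2 : ℂ) • (1 + g) := by
    have : (1 + g) * (1 + g) = 1 + g + g + g * g := by noncomm_ring
    rw [this, hg, two_smul]; abel
  rw [h1, smul_smul]; norm_num

theorem idem_mul {p q : M8} (hp : p * p = p) (hq : q * q = q) (hpq : p * q = q * p) :
    (p * q) * (p * q) = p * q := by
  calc (p * q) * (p * q) = p * (q * p) * q := by noncomm_ring
    _ = p * (p * q) * q := by rw [hpq]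
    _ = (p * p) * (q * q) := by noncomm_ring
    _ = p * q := by rw [hp, hq]

/-- The matrix `i a b` for anticommuting involutions. -/
theorem g_sq {a b : M8} (ha : a * a = 1) (hb : b * b = 1) (hab : a * b = -(b * a)) :
    (Complex.I • (a * b)) * (Complex.I • (a * b)) = 1 := by
  rw [smul_mul_smul_comm, Complex.I_mul_I]
  have : a * b * (a * b) = a * (b * a) * b := by noncomm_ring
  rw [this, ← neg_neg (b * a), ← hab]
  have : a * -(a * b) * b = -((a * a) * (b * b)) := by noncomm_ring
  rw [this, ha, hb]
  simp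

theorem no_seven {f : Fin 7 → M8} (hf : Cl 7 f) : False := by
  have ht := trace_prod hf
  have hc : ∀ i j, i ≠ j → f i * f j = -(f j * f i) := hf.anti
  -- commuting pairs
  have hcomm2 : ∀ {x y z w : M8}, x * z = -(z * x) → x * w = -(w * x) → y * z = -(z * y) →
      y * w = -(w * y) → (x * y) * (z * w) = (z * w) * (x * y) := by
    intro x y z w h1 h2 h3 h4
    calc (x * y) * (z * w) = x * (y * z) * w := by noncomm_ring
      _ = -(x * z * (y * w)) := by rw [h3]; noncomm_ring
      _ = -((z * x) * (w * y)) := by rw [h1, h4]; noncomm_ring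
      _ = -(z * (x * w) * y) := by noncomm_ring
      _ = (z * w) * (x * y) := by rw [h2]; noncomm_ring
  have hcomm1 : ∀ {x y z : M8}, x * z = -(z * x) → y * z = -(z * y) →
      (x * y) * z = z * (x * y) := by
    intro x y z h1 h3
    calc (x * y) * z = x * (y * z) := by noncomm_ring
      _ = -((x * z) * y) := by rw [h3]; noncomm_ring
      _ = z * (x * y) := by rw [h1]; noncomm_ring
  set g1 : M8 := Complex.I • (f 0 * f 1) with hg1
  set g2 : M8 := Complex.I • (f 2 * f 3) with hg2
  set g3 : M8 := Complex.I • (f 4 * f 5) with hg3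
  have s1 : g1 * g1 = 1 := g_sq (hf.sq 0) (hf.sq 1) (hc 0 1 (by decide))
  have s2 : g2 * g2 = 1 := g_sq (hf.sq 2) (hf.sq 3) (hc 2 3 (by decide))
  have s3 : g3 * g3 = 1 := g_sq (hf.sq 4) (hf.sq 5) (hc 4 5 (by decide))
  have c12 : g1 * g2 = g2 * g1 := by
    rw [hg1, hg2, smul_mul_smul_comm, smul_mul_smul_comm,
      hcomm2 (hc 0 2 (by decide)) (hc 0 3 (by decide)) (hc 1 2 (by decide)) (hc 1 3 (by decide))]
  have c13 : g1 * g3 = g3 * g1 := by
    rw [hg1, hg3, smul_mul_smul_comm, smul_mul_smul_comm,
      hcomm2 (hc 0 4 (by decide)) (hc 0 5 (by decide)) (hc 1 4 (by decide)) (hc 1 5 (by decide))]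
  have c23 : g2 * g3 = g3 * g2 := by
    rw [hg2, hg3, smul_mul_smul_comm, smul_mul_smul_comm,
      hcomm2 (hc 2 4 (by decide)) (hc 2 5 (by decide)) (hc 3 4 (by decide)) (hc 3 5 (by decide))]
  have c16 : g1 * f 6 = f 6 * g1 := by
    rw [hg1, smul_mul_assoc, mul_smul_comm, hcomm1 (hc 0 6 (by decide)) (hc 1 6 (by decide))]
  have c26 : g2 * f 6 = f 6 * g2 := by
    rw [hg2, smul_mul_assoc, mul_smul_comm, hcomm1 (hc 2 6 (by decide)) (hc 3 6 (by decide))]
  have c36 : g3 * f 6 = f 6 * g3 := by
    rw [hg3, smul_mul_assoc, mul_smul_comm, hcomm1 (hc 4 6 (by decide)) (hc 5 6 (by decide))]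
  have hh : ∀ {x y : M8}, x * y = y * x →
      ((1 / 2 : ℂ) • (1 + x)) * ((1 / 2 : ℂ) • (1 + y))
        = ((1 / 2 : ℂ) • (1 + y)) * ((1 / 2 : ℂ) • (1 + x)) := by
    intro x y h
    rw [smul_mul_smul_comm, smul_mul_smul_comm]
    congr 1
    have h1 : (1 + x) * (1 + y) = 1 + x + y + x * y := by noncomm_ring
    have h2 : (1 + y) * (1 + x) = 1 + x + y + y * x := by noncomm_ring
    rw [h1, h2, h]
  set p1 : M8 := (1 / 2 : ℂ) • (1 + g1) with hp1
  set p2 : M8 := (1 / 2 : ℂ) • (1 + g2) with hp2
  set p3 : M8 := (1 / 2 : ℂ) • (1 + g3) with hp3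
  set p4 : M8 := (1 / 2 : ℂ) • (1 + f 6) with hp4
  have i12 := idem_mul (half_idem s1) (half_idem s2) (hh c12)
  have i34 := idem_mul (half_idem s3) (half_idem (hf.sq 6)) (hh c36)
  have hcc : (p1 * p2) * (p3 * p4) = (p3 * p4) * (p1 * p2) := by
    have k13 := hh c13
    have k14 := hh c16
    have k23 := hh c23
    have k24 := hh c26
    rw [← hp1, ← hp3] at k13
    rw [← hp1, ← hp4] at k14
    rw [← hp2, ← hp3] at k23
    rw [← hp2, ← hp4] at k24
    calc (p1 * p2) * (p3 * p4) = p1 * (p2 * p3) * p4 := by noncomm_ring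
      _ = (p1 * p3) * (p2 * p4) := by rw [k23]; noncomm_ring
      _ = p3 * (p1 * p4) * p2 := by rw [k13, k24]; noncomm_ring
      _ = (p3 * p4) * (p1 * p2) := by rw [k14]; noncomm_ring
  obtain ⟨m, hm⟩ := idem_trace_nat (idem_mul i12 i34 hcc)
  have hval : trace ((p1 * p2) * (p3 * p4)) = 1 / 2 := by
    have t01 := ht [0, 1] (by decide) (by decide)
    have t23 := ht [2, 3] (by decide) (by decide)
    have t45 := ht [4, 5] (by decide) (by decide)
    have t6 := ht [6] (by decide) (by decide)
    have t0123 := ht [0, 1, 2, 3] (by decide) (by decide)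
    have t0145 := ht [0, 1, 4, 5] (by decide) (by decide)
    have t2345 := ht [2, 3, 4, 5] (by decide) (by decide)
    have t016 := ht [0, 1, 6] (by decide) (by decide)
    have t236 := ht [2, 3, 6] (by decide) (by decide)
    have t456 := ht [4, 5, 6] (by decide) (by decide)
    have t012345 := ht [0, 1, 2, 3, 4, 5] (by decide) (by decide)
    have t01236 := ht [0, 1, 2, 3, 6] (by decide) (by decide)
    have t01456 := ht [0, 1, 4, 5, 6] (by decide) (by decide)
    have t23456 := ht [2, 3, 4, 5, 6] (by decide) (by decide)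
    have t0123456 := ht [0, 1, 2, 3, 4, 5, 6] (by decide) (by decide)
    simp only [List.map_cons, List.map_nil, List.prod_cons, List.prod_nil, mul_one] at t01 t23 t45 t6 t0123 t0145 t2345 t016 t236 t456 t012345 t01236 t01456 t23456 t0123456
    rw [hp1, hp2, hp3, hp4, hg1, hg2, hg3]
    simp only [smul_mul_assoc, mul_smul_comm, trace_smul, add_mul, mul_add, one_mul, mul_one,
      trace_add, mul_assoc, t01, t23, t45, t6, t0123, t0145, t2345, t016, t236, t456, t012345,
      t01236, t01456, t23456, t0123456, smul_zero, add_zero, zero_add, trace_one,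
      Fintype.card_fin, smul_eq_mul, mul_zero]
    norm_num
  rw [hm] at hval
  have h2 : ((2 * m : ℕ) : ℂ) = ((1 : ℕ) : ℂ) := by
    push_cast; rw [hval]; norm_num
  have h3 := Nat.cast_injective h2
  omega

theorem cm_of (hH : Ctx H) (he : CliffB H n e) {P : M8}
    (h1 : ∀ i j, P * (e i * e j) = (e i * e j) * P)
    (h2 : ∀ z, (∀ l, z * e l = e l * z) → Sk z → P * z = z * P) : Cm H P := by
  intro X hX
  obtain ⟨y, z, rfl, hy, hz, hzs⟩ := dec hH he hX
  have h3 : P * y = y * P := by
    refine Submodule.span_induction (p := fun y _ => P * y = y * P) ?_ ?_ ?_ ?_ hy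
    · rintro _ ⟨⟨i, j⟩, rfl⟩
      exact h1 i j
    · rw [mul_zero, zero_mul]
    · intro x y _ _ hx hy
      rw [mul_add, add_mul, hx, hy]
    · intro a x _ hx
      rw [mul_smul_comm, smul_mul_assoc, hx]
  rw [mul_add, add_mul, h3, h2 z hz hzs]

/-- The product of all elements of a basis commutes with `H`. -/
theorem eta_cm (hH : Ctx H) (he : CliffB H n e) :
    Cm H ((List.finRange n).map e).prod := by
  have h0 : ∀ l, ((List.finRange n).map e).prod * e l
      = ((-1 : ℂ) ^ (n + 1)) • (e l * ((List.finRange n).map e).prod) := by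
    intro l
    rw [prod_comm he.cl l _ (List.nodup_finRange n), if_pos (List.mem_finRange l),
      List.length_finRange]
  refine cm_of hH he ?_ ?_
  · intro i j
    rw [← mul_assoc, h0 i, smul_mul_assoc, mul_assoc, h0 j, mul_smul_comm, smul_smul,
      ← mul_assoc, ← pow_add, Even.neg_one_pow ⟨n + 1, rfl⟩, one_smul]
  · intro z hz _
    have h3 : ∀ L : List (Fin n), (L.map e).prod * z = z * (L.map e).prod := by
      intro L
      induction L with
      | nil => simp
      | cons a t ih =>
        rw [List.map_cons, List.prod_cons, mul_assoc, ih, ← mul_assoc, ← hz a, mul_assoc]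
    exact h3 _

theorem zero_of_eq_neg {P : M8} (h : P = -P) : P = 0 := by
  ext i j
  have h1 := congrFun (congrFun h i) j
  rw [Matrix.neg_apply] at h1
  rw [Matrix.zero_apply]
  linear_combination (1 / 2 : ℂ) * h1

theorem not_skew_dim (hH : Ctx H) (he : CliffB H n e)
    (hn : Odd (∑ i ∈ Finset.range n, i)) : False := by
  have h1 := prod_st he.cl _ (List.nodup_finRange n)
  rw [List.length_finRange, hn.neg_one_pow, neg_one_smul] at h1
  have h2 := (sy_iff _).mp (hH.comm _ (eta_cm hH he))
  have h3 := prod_mul_st he.cl (List.finRange n)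
  rw [h2] at h1
  have h4 : ((List.finRange n).map e).prod = 0 := zero_of_eq_neg h1
  rw [h4, zero_mul] at h3
  exact zero_ne_one h3

theorem not_one (hH : Ctx H) {e : Fin 1 → M8} (he : CliffB H 1 e) : False := by
  have h1 : Cm H (e 0) := by
    refine cm_of hH he ?_ ?_
    · intro i j
      have hi : i = 0 := Subsingleton.elim _ _
      have hj : j = 0 := Subsingleton.elim _ _
      rw [hi, hj, he.sq 0, mul_one, one_mul]
    · intro z hz _
      exact (hz 0).symm
  have h2 := he.trD 0 _ h1
  rw [he.sq 0, trace_one, Fintype.card_fin] at h2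
  norm_num at h2

end Pool.Agent.V5helper88.F4
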