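import Pool.Agent.V5helper88.C2

/-!
Exclusion of the Clifford spaces of dimension four and five.
-/

namespace Pool.Agent.V5helper88.F4

open Matrix Module

variable {H : Set M8} {n : ℕ} {e : Fin n → M8}

theorem twoDim {W : Type*} [AddCommGroup W] [Module ℂ W] [FiniteDimensional ℂ W]
    (hW : finrank ℂ W = 2) (B : W →ₗ[ℂ] W →ₗ[ℂ] ℂ) (hs : ∀ x y, B x y = B y x)
    (hnd : ∀ x, (∀ y, B x y = 0) → x = 0) :
    ∃ u : W, u ≠ 0 ∧ B u u = 0 ∧ ∀ w, B w u = 0 → ∃ χ : ℂ, w = χ • u := by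
  have hu : ∃ u : W, u ≠ 0 ∧ B u u = 0 := by
    let b : Basis (Fin 2) ℂ W := finBasisOfFinrankEq ℂ W hW
    by_cases h : B (b 0) (b 0) = 0
    · exact ⟨b 0, b.ne_zero 0, h⟩
    · obtain ⟨s, hs2⟩ := IsAlgClosed.exists_pow_nat_eq
        (B (b 0) (b 1) ^ 2 - B (b 0) (b 0) * B (b 1) (b 1)) (n := 2) (by norm_num)
      refine ⟨((-B (b 0) (b 1) + s) / B (b 0) (b 0)) • b 0 + b 1, ?_, ?_⟩
      · intro h0
        have h1 := congrArg (fun x => b.repr x 1) h0
        simp at h1
      · simp only [map_add, map_smul, LinearMap.add_apply, LinearMap.smul_apply, smul_eq_mul]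
        rw [hs (b 1) (b 0)]
        field_simp
        linear_combination hs2
  obtain ⟨u, hu0, huu⟩ := hu
  refine ⟨u, hu0, huu, ?_⟩
  have hf : B.flip u ≠ 0 := by
    intro h0
    apply hu0
    apply hnd
    intro y
    rw [hs]
    exact LinearMap.congr_fun h0 y
  have h1 := Module.Dual.finrank_ker_add_one_of_ne_zero (f := B.flip u) hf
  have h2 : finrank ℂ (LinearMap.ker (B.flip u)) = 1 := by omega
  have hmem : u ∈ LinearMap.ker (B.flip u) := huu
  have h3 := (finrank_eq_one_iff_of_nonzero' (⟨u, hmem⟩ : LinearMap.ker (B.flip u))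
    (fun h => hu0 (congrArg Subtype.val h))).mp h2
  intro w hw
  obtain ⟨χ, hχ⟩ := h3 ⟨w, hw⟩
  exact ⟨χ, (congrArg Subtype.val hχ).symm⟩

theorem om_st (m : M8) (v w : Fin 8 → ℂ) : om (m *ᵥ v) w = om v (st m *ᵥ w) := by
  unfold om
  rw [mulVec_dot, mulVec_mulVec, mulVec_mulVec]
  have : J8 * st m = mᵀ * J8 := by
    unfold st
    have : J8 * -(J8 * mᵀ * J8) = -(J8 * J8) * mᵀ * J8 := by noncomm_ring
    rw [this, J8_sq]; noncomm_ring
  rw [this]

theorem trace_prod_even {f : Fin n → M8} (hf : Cl n f) (L : List (Fin n)) (hL : L.Nodup)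
    (h0 : L ≠ []) (hev : Even L.length) : trace (L.map f).prod = 0 := by
  obtain ⟨a, ha⟩ := List.exists_mem_of_ne_nil L h0
  refine trace_of_anti (hf.sq a) ?_
  rw [prod_comm hf a L hL, if_pos ha, pow_succ, hev.neg_one_pow]
  simp

theorem no_five (hH : Ctx H) {f : Fin 5 → M8} (hf : Cl 5 f)
    (hdec : ∀ X ∈ H, ∃ y z : M8, X = y + z ∧
      y ∈ Submodule.span ℂ (Set.range fun p : Fin 5 × Fin 5 => f p.1 * f p.2) ∧
      (∀ l, z * f l = f l * z) ∧ Sk z) : False := by
  obtain ⟨a, ha⟩ : ∃ a, a = f 0 := ⟨_, rfl⟩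
  obtain ⟨b, hb⟩ : ∃ b, b = f 1 := ⟨_, rfl⟩
  obtain ⟨c, hc⟩ : ∃ c, c = f 2 := ⟨_, rfl⟩
  obtain ⟨p, hp⟩ : ∃ p, p = f 3 := ⟨_, rfl⟩
  obtain ⟨q, hq⟩ : ∃ q, q = f 4 := ⟨_, rfl⟩
  have aa : a * a = 1 := by rw [ha]; exact hf.sq 0
  have bb : b * b = 1 := by rw [hb]; exact hf.sq 1
  have cc : c * c = 1 := by rw [hc]; exact hf.sq 2
  have pp : p * p = 1 := by rw [hp]; exact hf.sq 3
  have qq : q * q = 1 := by rw [hq]; exact hf.sq 4
  have ba : b * a = -(a * b) := by rw [ha, hb]; exact hf.anti 1 0 (by decide)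
  have ca : c * a = -(a * c) := by rw [ha, hc]; exact hf.anti 2 0 (by decide)
  have pa : p * a = -(a * p) := by rw [ha, hp]; exact hf.anti 3 0 (by decide)
  have qa : q * a = -(a * q) := by rw [ha, hq]; exact hf.anti 4 0 (by decide)
  have cb : c * b = -(b * c) := by rw [hb, hc]; exact hf.anti 2 1 (by decide)
  have pb : p * b = -(b * p) := by rw [hb, hp]; exact hf.anti 3 1 (by decide)
  have qb : q * b = -(b * q) := by rw [hb, hq]; exact hf.anti 4 1 (by decide)
  have pc : p * c = -(c * p) := by rw [hc, hp]; exact hf.anti 3 2 (by decide)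
  have qc : q * c = -(c * q) := by rw [hc, hq]; exact hf.anti 4 2 (by decide)
  have qp : q * p = -(p * q) := by rw [hp, hq]; exact hf.anti 4 3 (by decide)
  have say : st a = a := by rw [ha]; exact (sy_iff _).mp (hf.sy 0)
  have sby : st b = b := by rw [hb]; exact (sy_iff _).mp (hf.sy 1)
  have scy : st c = c := by rw [hc]; exact (sy_iff _).mp (hf.sy 2)
  have spy : st p = p := by rw [hp]; exact (sy_iff _).mp (hf.sy 3)
  have sqy : st q = q := by rw [hq]; exact (sy_iff _).mp (hf.sy 4)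
  -- the two commuting involutions
  obtain ⟨g, hg⟩ : ∃ g : M8, g = Complex.I • (a * p) := ⟨_, rfl⟩
  obtain ⟨h, hh⟩ : ∃ h : M8, h = Complex.I • (b * q) := ⟨_, rfl⟩
  have gg : g * g = 1 := by rw [hg]; exact g_sq aa pp (by rw [pa, neg_neg])
  have hhh : h * h = 1 := by rw [hh]; exact g_sq bb qq (by rw [qb, neg_neg])
  have gs : st g = -g := by
    rw [hg, st_smul, st_mul, say, spy, pa, smul_neg]
  have hs : st h = -h := by
    rw [hh, st_smul, st_mul, sby, sqy, qb, smul_neg]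
  have hsub : ∀ {x y z : M8}, x * z = -(z * x) → y * z = -(z * y) →
      (x * y) * z = z * (x * y) := by
    intro x y z h1 h3
    calc (x * y) * z = x * (y * z) := by noncomm_ring
      _ = -((x * z) * y) := by rw [h3]; noncomm_ring
      _ = z * (x * y) := by rw [h1]; noncomm_ring
  have ab' : a * b = -(b * a) := by rw [ba, neg_neg]
  have ac' : a * c = -(c * a) := by rw [ca, neg_neg]
  have bc' : b * c = -(c * b) := by rw [cb, neg_neg]
  have ap' : a * p = -(p * a) := by rw [pa, neg_neg]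
  have bp' : b * p = -(p * b) := by rw [pb, neg_neg]
  have aq' : a * q = -(q * a) := by rw [qa, neg_neg]
  have bq' : b * q = -(q * b) := by rw [qb, neg_neg]
  have pq' : p * q = -(q * p) := by rw [qp, neg_neg]
  have g_b : g * b = b * g := by
    rw [hg, smul_mul_assoc, mul_smul_comm, hsub ab' pb]
  have g_c : g * c = c * g := by
    rw [hg, smul_mul_assoc, mul_smul_comm, hsub ac' pc]
  have g_q : g * q = q * g := by
    rw [hg, smul_mul_assoc, mul_smul_comm, hsub aq' pq']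
  have h_a : h * a = a * h := by
    rw [hh, smul_mul_assoc, mul_smul_comm, hsub ba qa]
  have h_c : h * c = c * h := by
    rw [hh, smul_mul_assoc, mul_smul_comm, hsub bc' qc]
  have g_a : g * a = -(a * g) := by
    rw [hg, smul_mul_assoc, mul_smul_comm, mul_assoc, pa]
    simp
  have h_b : h * b = -(b * h) := by
    rw [hh, smul_mul_assoc, mul_smul_comm, mul_assoc, qb]
    simp
  have g_h : g * h = h * g := by
    rw [hh, mul_smul_comm, smul_mul_assoc, ← mul_assoc, g_b, mul_assoc, g_q, mul_assoc]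
  -- projection
  obtain ⟨p1, hp1⟩ : ∃ x : M8, x = (1 / 2 : ℂ) • (1 + g) := ⟨_, rfl⟩
  obtain ⟨p2, hp2⟩ : ∃ x : M8, x = (1 / 2 : ℂ) • (1 + h) := ⟨_, rfl⟩
  have ip1 : p1 * p1 = p1 := by rw [hp1]; exact half_idem gg
  have ip2 : p2 * p2 = p2 := by rw [hp2]; exact half_idem hhh
  have p12 : p1 * p2 = p2 * p1 := by
    rw [hp1, hp2, smul_mul_smul_comm, smul_mul_smul_comm]
    congr 1
    have h1 : (1 + g) * (1 + h) = 1 + g + h + g * h := by noncomm_ring
    have h2 : (1 + h) * (1 + g) = 1 + g + h + h * g := by noncomm_ring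
    rw [h1, h2, g_h]
  have hidem := idem_mul ip1 ip2 p12
  have gp1 : g * p1 = p1 := by
    rw [hp1, mul_smul_comm, mul_add, gg, mul_one, add_comm]
  have hp2' : h * p2 = p2 := by
    rw [hp2, mul_smul_comm, mul_add, hhh, mul_one, add_comm]
  have htr : trace (p1 * p2) = 2 := by
    have t1 := trace_prod_even hf [0, 3] (by decide) (by decide) (by decide)
    have t2 := trace_prod_even hf [1, 4] (by decide) (by decide) (by decide)
    have t3 := trace_prod_even hf [0, 3, 1, 4] (by decide) (by decide) (by decide)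
    simp only [List.map_cons, List.map_nil, List.prod_cons, List.prod_nil, mul_one, ← ha, ← hb,
      ← hp, ← hq] at t1 t2 t3
    rw [hp1, hp2, hg, hh]
    simp only [smul_mul_assoc, mul_smul_comm, trace_smul, add_mul, mul_add, one_mul, mul_one,
      trace_add, mul_assoc, t1, t2, t3, smul_zero, add_zero, zero_add, trace_one,
      Fintype.card_fin, smul_eq_mul, mul_zero]
    norm_num
  have hff : IsIdempotentElem (Matrix.toLin' (p1 * p2)) := by
    unfold IsIdempotentElem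
    rw [Module.End.mul_eq_comp, ← Matrix.toLin'_mul, hidem]
  obtain ⟨W, hWdef⟩ : ∃ W : Submodule ℂ (Fin 8 → ℂ), W = LinearMap.range (Matrix.toLin' (p1 * p2)) :=
    ⟨_, rfl⟩
  have hWdim : finrank ℂ W = 2 := by
    have h1 := (LinearMap.IsIdempotentElem.isProj_range _ hff).trace
    rw [Matrix.trace_toLin'_eq, htr, ← hWdef] at h1
    exact_mod_cast h1.symm
  have hWmem : ∀ v, v ∈ W ↔ (p1 * p2) *ᵥ v = v := by
    intro v
    rw [hWdef]
    constructor
    · rintro ⟨w, rfl⟩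
      rw [toLin'_apply, mulVec_mulVec, hidem]
    · intro h1
      exact ⟨v, by rw [toLin'_apply, h1]⟩
  have hWg : ∀ v ∈ W, g *ᵥ v = v := by
    intro v hv
    conv_lhs => rw [← (hWmem v).mp hv]
    rw [mulVec_mulVec, ← mul_assoc, gp1]
    exact (hWmem v).mp hv
  have hWh : ∀ v ∈ W, h *ᵥ v = v := by
    intro v hv
    conv_lhs => rw [← (hWmem v).mp hv]
    rw [mulVec_mulVec, p12, ← mul_assoc, hp2', ← p12]
    exact (hWmem v).mp hv
  -- the symmetric form
  let B : W →ₗ[ℂ] W →ₗ[ℂ] ℂ :=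
    LinearMap.mk₂ ℂ (fun x y => om (x : Fin 8 → ℂ) ((a * b) *ᵥ (y : Fin 8 → ℂ)))
      (fun x y z => by simp only [Submodule.coe_add, om_add_left])
      (fun t x y => by simp only [Submodule.coe_smul, om_smul_left, smul_eq_mul])
      (fun x y z => by simp only [Submodule.coe_add, mulVec_add, om_add_right])
      (fun t x y => by simp only [Submodule.coe_smul, mulVec_smul, om_smul_right, smul_eq_mul])
  have hB : ∀ x y : W, B x y = om (x : Fin 8 → ℂ) ((a * b) *ᵥ (y : Fin 8 → ℂ)) := fun _ _ => rfl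
  have hBs : ∀ x y, B x y = B y x := by
    intro x y
    rw [hB, hB, om_swap, om_st, st_mul, say, sby, ba, neg_mulVec, om_neg_right, neg_neg]
  have hBn : ∀ x, (∀ y, B x y = 0) → x = 0 := by
    intro x hx
    apply Subtype.ext
    apply om_nondeg
    intro v
    have k1 : st (p1 * p2) = (a * b) * (p1 * p2) * (b * a) := by
      have e1 : st p1 * (a * b) = (a * b) * p1 := by
        rw [hp1, st_smul, st_add, st_one, gs, smul_mul_assoc, mul_smul_comm]
        congr 1
        have : g * (a * b) = -((a * b) * g) := by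
          rw [← mul_assoc, g_a, neg_mul, mul_assoc, g_b, mul_assoc]
        have h1 : (1 + -g) * (a * b) = a * b - g * (a * b) := by noncomm_ring
        rw [h1, this]; noncomm_ring
      have e2 : st p2 * (a * b) = (a * b) * p2 := by
        rw [hp2, st_smul, st_add, st_one, hs, smul_mul_assoc, mul_smul_comm]
        congr 1
        have : h * (a * b) = -((a * b) * h) := by
          rw [← mul_assoc, h_a, mul_assoc, h_b]; noncomm_ring
        have h1 : (1 + -h) * (a * b) = a * b - h * (a * b) := by noncomm_ring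
        rw [h1, this]; noncomm_ring
      have e3 : (a * b) * (b * a) = 1 := by
        calc (a * b) * (b * a) = a * (b * b) * a := by noncomm_ring
          _ = 1 := by rw [bb, mul_one, aa]
      calc st (p1 * p2) = st (p1 * p2) * ((a * b) * (b * a)) := by rw [e3, mul_one]
        _ = st p2 * (st p1 * (a * b)) * (b * a) := by rw [st_mul]; noncomm_ring
        _ = (st p2 * (a * b)) * p1 * (b * a) := by rw [e1]; noncomm_ring
        _ = (a * b) * (p2 * p1) * (b * a) := by rw [e2]; noncomm_ring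
        _ = (a * b) * (p1 * p2) * (b * a) := by rw [p12]
    have k2 : (p1 * p2) *ᵥ ((b * a) *ᵥ v) ∈ W := by
      rw [hWmem, mulVec_mulVec, hidem]
    have k3 := hx ⟨_, k2⟩
    rw [hB] at k3
    conv_lhs => rw [← (hWmem _).mp x.2]
    rw [om_st, k1]
    simp only [mulVec_mulVec, mul_assoc] at k3 ⊢
    exact k3
  obtain ⟨u', hu0, huu, hul⟩ := twoDim hWdim B hBs hBn
  obtain ⟨u, hu⟩ : ∃ u : Fin 8 → ℂ, u = (u' : Fin 8 → ℂ) := ⟨_, rfl⟩
  have huW : u ∈ W := by rw [hu]; exact u'.2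
  have hune : u ≠ 0 := by
    intro h0; apply hu0; apply Subtype.ext; rw [← hu, h0]; rfl
  have gu : g *ᵥ u = u := hWg u huW
  have hhu : h *ᵥ u = u := hWh u huW
  -- vector rules
  have raa : ∀ v, a *ᵥ (a *ᵥ v) = v := fun v => by rw [mulVec_mulVec, aa, one_mulVec]
  have rbb : ∀ v, b *ᵥ (b *ᵥ v) = v := fun v => by rw [mulVec_mulVec, bb, one_mulVec]
  have rcc : ∀ v, c *ᵥ (c *ᵥ v) = v := fun v => by rw [mulVec_mulVec, cc, one_mulVec]
  have rba : ∀ v, b *ᵥ (a *ᵥ v) = -(a *ᵥ (b *ᵥ v)) := fun v => by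
    rw [mulVec_mulVec, ba, neg_mulVec, mulVec_mulVec]
  have rca : ∀ v, c *ᵥ (a *ᵥ v) = -(a *ᵥ (c *ᵥ v)) := fun v => by
    rw [mulVec_mulVec, ca, neg_mulVec, mulVec_mulVec]
  have rpa : ∀ v, p *ᵥ (a *ᵥ v) = -(a *ᵥ (p *ᵥ v)) := fun v => by
    rw [mulVec_mulVec, pa, neg_mulVec, mulVec_mulVec]
  have rqa : ∀ v, q *ᵥ (a *ᵥ v) = -(a *ᵥ (q *ᵥ v)) := fun v => by
    rw [mulVec_mulVec, qa, neg_mulVec, mulVec_mulVec]
  have rcb : ∀ v, c *ᵥ (b *ᵥ v) = -(b *ᵥ (c *ᵥ v)) := fun v => by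
    rw [mulVec_mulVec, cb, neg_mulVec, mulVec_mulVec]
  have rpb : ∀ v, p *ᵥ (b *ᵥ v) = -(b *ᵥ (p *ᵥ v)) := fun v => by
    rw [mulVec_mulVec, pb, neg_mulVec, mulVec_mulVec]
  have rqb : ∀ v, q *ᵥ (b *ᵥ v) = -(b *ᵥ (q *ᵥ v)) := fun v => by
    rw [mulVec_mulVec, qb, neg_mulVec, mulVec_mulVec]
  have rpc : ∀ v, p *ᵥ (c *ᵥ v) = -(c *ᵥ (p *ᵥ v)) := fun v => by
    rw [mulVec_mulVec, pc, neg_mulVec, mulVec_mulVec]
  have rqc : ∀ v, q *ᵥ (c *ᵥ v) = -(c *ᵥ (q *ᵥ v)) := fun v => by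
    rw [mulVec_mulVec, qc, neg_mulVec, mulVec_mulVec]
  have rpu : p *ᵥ u = (-Complex.I) • (a *ᵥ u) := by
    have h1 : a *ᵥ (g *ᵥ u) = a *ᵥ u := by rw [gu]
    rw [hg, smul_mulVec, mulVec_smul, ← mulVec_mulVec, raa] at h1
    rw [← h1, smul_smul, neg_mul, Complex.I_mul_I, neg_neg, one_smul]
  have rqu : q *ᵥ u = (-Complex.I) • (b *ᵥ u) := by
    have h1 : b *ᵥ (h *ᵥ u) = b *ᵥ u := by rw [hhu]
    rw [hh, smul_mulVec, mulVec_smul, ← mulVec_mulVec, rbb] at h1
    rw [← h1, smul_smul, neg_mul, Complex.I_mul_I, neg_neg, one_smul]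
  -- the isotropic stable space
  obtain ⟨Ye, hYe⟩ : ∃ Y : Submodule ℂ (Fin 8 → ℂ), Y = Submodule.span ℂ
    {u, a *ᵥ (b *ᵥ u), a *ᵥ (c *ᵥ u), b *ᵥ (c *ᵥ u)} := ⟨_, rfl⟩
  obtain ⟨Yo, hYo⟩ : ∃ Y : Submodule ℂ (Fin 8 → ℂ), Y = Submodule.span ℂ
    {a *ᵥ u, b *ᵥ u, c *ᵥ u, a *ᵥ (b *ᵥ (c *ᵥ u))} := ⟨_, rfl⟩
  have m0 : u ∈ Ye := by rw [hYe]; exact Submodule.subset_span (by simp)
  have m1 : a *ᵥ (b *ᵥ u) ∈ Ye := by rw [hYe]; exact Submodule.subset_span (by simp)
  have m2 : a *ᵥ (c *ᵥ u) ∈ Ye := by rw [hYe]; exact Submodule.subset_span (by simp)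
  have m3 : b *ᵥ (c *ᵥ u) ∈ Ye := by rw [hYe]; exact Submodule.subset_span (by simp)
  have n0 : a *ᵥ u ∈ Yo := by rw [hYo]; exact Submodule.subset_span (by simp)
  have n1 : b *ᵥ u ∈ Yo := by rw [hYo]; exact Submodule.subset_span (by simp)
  have n2 : c *ᵥ u ∈ Yo := by rw [hYo]; exact Submodule.subset_span (by simp)
  have n3 : a *ᵥ (b *ᵥ (c *ᵥ u)) ∈ Yo := by rw [hYo]; exact Submodule.subset_span (by simp)
  have hEO : ∀ x ∈ ({a, b, c, p, q} : Set M8), ∀ v ∈ Ye, x *ᵥ v ∈ Yo := by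
    intro x hx v hv
    have h1 : Ye ≤ Yo.comap (Matrix.toLin' x) := by
      rw [hYe, Submodule.span_le]
      intro w hw
      simp only [Set.mem_insert_iff, Set.mem_singleton_iff] at hx hw
      rw [SetLike.mem_coe, Submodule.mem_comap, toLin'_apply]
      rcases hx with rfl | rfl | rfl | rfl | rfl <;> rcases hw with rfl | rfl | rfl | rfl <;>
        (try simp only [raa, rbb, rcc, rba, rca, rcb, rpa, rpb, rpc, rqa, rqb, rqc, rpu, rqu,
          mulVec_neg, mulVec_smul, neg_neg, smul_neg]) <;>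
        repeat' first
          | assumption
          | apply Submodule.neg_mem
          | apply Submodule.smul_mem
    exact h1 hv
  have hOE : ∀ x ∈ ({a, b, c, p, q} : Set M8), ∀ v ∈ Yo, x *ᵥ v ∈ Ye := by
    intro x hx v hv
    have h1 : Yo ≤ Ye.comap (Matrix.toLin' x) := by
      rw [hYo, Submodule.span_le]
      intro w hw
      simp only [Set.mem_insert_iff, Set.mem_singleton_iff] at hx hw
      rw [SetLike.mem_coe, Submodule.mem_comap, toLin'_apply]
      rcases hx with rfl | rfl | rfl | rfl | rfl <;> rcases hw with rfl | rfl | rfl | rfl <;>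
        (try simp only [raa, rbb, rcc, rba, rca, rcb, rpa, rpb, rpc, rqa, rqb, rqc, rpu, rqu,
          mulVec_neg, mulVec_smul, neg_neg, smul_neg]) <;>
        repeat' first
          | assumption
          | apply Submodule.neg_mem
          | apply Submodule.smul_mem
    exact h1 hv
  have hfm : ∀ i, f i ∈ ({a, b, c, p, q} : Set M8) := by
    intro i
    fin_cases i <;> simp [ha, hb, hc, hp, hq]
  have hst : ∀ X ∈ H, ∀ v ∈ Ye, X *ᵥ v ∈ Ye := by
    intro X hX v hv
    obtain ⟨y, z, rfl, hy, hz, hzs⟩ := hdec X hX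
    rw [add_mulVec]
    refine Submodule.add_mem _ ?_ ?_
    · refine Submodule.span_induction (p := fun y _ => y *ᵥ v ∈ Ye) ?_ ?_ ?_ ?_ hy
      · rintro _ ⟨⟨i, j⟩, rfl⟩
        rw [← mulVec_mulVec]
        exact hOE _ (hfm i) _ (hEO _ (hfm j) _ hv)
      · rw [zero_mulVec]; exact Submodule.zero_mem _
      · intro x y _ _ hx hy
        rw [add_mulVec]; exact Submodule.add_mem _ hx hy
      · intro t x _ hx
        rw [smul_mulVec]; exact Submodule.smul_mem _ _ hx
    · have hza : z * a = a * z := by rw [ha]; exact hz 0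
      have hzb : z * b = b * z := by rw [hb]; exact hz 1
      have hzc : z * c = c * z := by rw [hc]; exact hz 2
      have hzp : z * p = p * z := by rw [hp]; exact hz 3
      have hzq : z * q = q * z := by rw [hq]; exact hz 4
      have hzg : z * g = g * z := by
        rw [hg, mul_smul_comm, smul_mul_assoc, ← mul_assoc, hza, mul_assoc, hzp, mul_assoc]
      have hzh : z * h = h * z := by
        rw [hh, mul_smul_comm, smul_mul_assoc, ← mul_assoc, hzb, mul_assoc, hzq, mul_assoc]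
      have hzp1 : z * p1 = p1 * z := by
        rw [hp1, mul_smul_comm, smul_mul_assoc, mul_add, add_mul, hzg, mul_one, one_mul]
      have hzp2 : z * p2 = p2 * z := by
        rw [hp2, mul_smul_comm, smul_mul_assoc, mul_add, add_mul, hzh, mul_one, one_mul]
      have hzu : z *ᵥ u ∈ W := by
        rw [hWmem, mulVec_mulVec, mul_assoc, ← hzp2, ← mul_assoc, ← hzp1, mul_assoc,
          ← mulVec_mulVec, (hWmem u).mp huW]
      have hzab : z * (a * b) = (a * b) * z := by
        rw [← mul_assoc, hza, mul_assoc, hzb, mul_assoc]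
      have hβ : B ⟨_, hzu⟩ u' = 0 := by
        have k1 : B ⟨_, hzu⟩ u' = - B u' ⟨_, hzu⟩ := by
          rw [hB, hB]
          show om (z *ᵥ u) _ = - om _ ((a * b) *ᵥ (z *ᵥ u))
          rw [om_sk hzs, ← hu, mulVec_mulVec, mulVec_mulVec, hzab]
        rw [hBs u'] at k1
        linear_combination (1 / 2 : ℂ) * k1
      obtain ⟨χ, hχ⟩ := hul _ hβ
      have hχ' : z *ᵥ u = χ • u := by
        have h5 : z *ᵥ u = χ • (u' : Fin 8 → ℂ) := congrArg Subtype.val hχ
        rw [h5, hu]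
      have rza : ∀ v, z *ᵥ (a *ᵥ v) = a *ᵥ (z *ᵥ v) := fun v => by
        rw [mulVec_mulVec, hza, mulVec_mulVec]
      have rzb : ∀ v, z *ᵥ (b *ᵥ v) = b *ᵥ (z *ᵥ v) := fun v => by
        rw [mulVec_mulVec, hzb, mulVec_mulVec]
      have rzc : ∀ v, z *ᵥ (c *ᵥ v) = c *ᵥ (z *ᵥ v) := fun v => by
        rw [mulVec_mulVec, hzc, mulVec_mulVec]
      have h1 : Ye ≤ Ye.comap (Matrix.toLin' z) := by
        conv_lhs => rw [hYe]
        rw [Submodule.span_le]
        intro w hw
        simp only [Set.mem_insert_iff, Set.mem_singleton_iff] at hw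
        rw [SetLike.mem_coe, Submodule.mem_comap, toLin'_apply]
        rcases hw with rfl | rfl | rfl | rfl <;>
          (try simp only [rza, rzb, rzc, hχ', mulVec_smul]) <;>
          repeat' first
            | assumption
            | apply Submodule.smul_mem
      exact h1 hv
  -- isotropy
  have o1 : om u (a *ᵥ (b *ᵥ u)) = 0 := by
    have := huu
    rw [hB, ← hu, ← mulVec_mulVec] at this
    exact this
  have o3 : om u (b *ᵥ (c *ᵥ u)) = 0 := by
    have k1 : om (g *ᵥ u) (b *ᵥ (c *ᵥ u)) = - om u (b *ᵥ (c *ᵥ u)) := by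
      rw [om_st, gs, neg_mulVec, om_neg_right]
      congr 2
      have rgb : ∀ v, g *ᵥ (b *ᵥ v) = b *ᵥ (g *ᵥ v) := fun v => by
        rw [mulVec_mulVec, g_b, mulVec_mulVec]
      have rgc : ∀ v, g *ᵥ (c *ᵥ v) = c *ᵥ (g *ᵥ v) := fun v => by
        rw [mulVec_mulVec, g_c, mulVec_mulVec]
      rw [rgb, rgc, gu]
    rw [gu] at k1
    linear_combination (1 / 2 : ℂ) * k1
  have o2 : om u (a *ᵥ (c *ᵥ u)) = 0 := by
    have k1 : om (h *ᵥ u) (a *ᵥ (c *ᵥ u)) = - om u (a *ᵥ (c *ᵥ u)) := by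
      rw [om_st, hs, neg_mulVec, om_neg_right]
      congr 2
      have rha : ∀ v, h *ᵥ (a *ᵥ v) = a *ᵥ (h *ᵥ v) := fun v => by
        rw [mulVec_mulVec, h_a, mulVec_mulVec]
      have rhc : ∀ v, h *ᵥ (c *ᵥ v) = c *ᵥ (h *ᵥ v) := fun v => by
        rw [mulVec_mulVec, h_c, mulVec_mulVec]
      rw [rha, rhc, hhu]
    rw [hhu] at k1
    linear_combination (1 / 2 : ℂ) * k1
  have hou : ∀ w ∈ Ye, om u w = 0 := by
    intro w hw
    rw [hYe] at hw
    refine Submodule.span_induction (p := fun w _ => om u w = 0) ?_ ?_ ?_ ?_ hw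
    · intro w hw
      simp only [Set.mem_insert_iff, Set.mem_singleton_iff] at hw
      rcases hw with rfl | rfl | rfl | rfl
      · exact om_self _
      · exact o1
      · exact o2
      · exact o3
    · exact om_zero_right _
    · intro x y _ _ hx hy
      rw [om_add_right, hx, hy, add_zero]
    · intro t x _ hx
      rw [om_smul_right, hx, mul_zero]
  have hma : a ∈ ({a, b, c, p, q} : Set M8) := by simp
  have hmb : b ∈ ({a, b, c, p, q} : Set M8) := by simp
  have hmc : c ∈ ({a, b, c, p, q} : Set M8) := by simp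
  have hiso : ∀ v ∈ Ye, ∀ w ∈ Ye, om v w = 0 := by
    intro v hv w hw
    rw [hYe] at hv
    refine Submodule.span_induction (p := fun v _ => om v w = 0) ?_ ?_ ?_ ?_ hv
    · intro v hv
      simp only [Set.mem_insert_iff, Set.mem_singleton_iff] at hv
      rcases hv with rfl | rfl | rfl | rfl
      · exact hou w hw
      · rw [om_st, say, om_st, sby]
        exact hou _ (hOE _ hmb _ (hEO _ hma _ hw))
      · rw [om_st, say, om_st, scy]
        exact hou _ (hOE _ hmc _ (hEO _ hma _ hw))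
      · rw [om_st, sby, om_st, scy]
        exact hou _ (hOE _ hmc _ (hEO _ hmb _ hw))
    · exact om_zero_left _
    · intro x y _ _ hx hy
      rw [om_add_left, hx, hy, add_zero]
    · intro t x _ hx
      rw [om_smul_left, hx, mul_zero]
  have hbot := hH.nondeg Ye hst hiso
  rw [hbot] at m0
  exact hune (by simpa using m0)

end Pool.Agent.V5helper88.F4
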