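import Pool.Agent.V5helper88.C3

/-!
The core statement: an invariant alternating four-array orthogonal to all products vanishes.
-/

namespace Pool.Agent.V5helper88.F4

open Matrix Module

variable {H : Set M8} {U : Submodule ℂ M8} {c : Fin 8 → Fin 8 → Fin 8 → Fin 8 → ℂ}

theorem not_four (hH : Ctx H) {e : Fin 4 → M8} (he : CliffB H 4 e) : False := by
  obtain ⟨η, hη⟩ : ∃ η, η = ((List.finRange 4).map e).prod := ⟨_, rfl⟩
  have hst : st η = η := by
    have h1 := prod_st he.cl _ (List.nodup_finRange 4)
    rw [List.length_finRange, ← hη] at h1
    rw [h1]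
    have h2 : ∑ i ∈ Finset.range 4, i = 6 := by decide
    rw [h2]; norm_num
  have hsq : η * η = 1 := by
    have h1 := prod_mul_st he.cl (List.finRange 4)
    rw [← hη, hst] at h1
    exact h1
  have hanti : ∀ l, η * e l = -(e l * η) := by
    intro l
    rw [hη, prod_comm he.cl l _ (List.nodup_finRange 4), if_pos (List.mem_finRange l),
      List.length_finRange]
    norm_num
  let f : Fin 5 → M8 := Fin.snoc (α := fun _ => M8) e η
  have hfl : f (Fin.last 4) = η := Fin.snoc_last (α := fun _ => M8) _ _
  have hfc : ∀ i : Fin 4, f i.castSucc = e i := fun i => Fin.snoc_castSucc (α := fun _ => M8) _ _ _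
  refine no_five hH (f := f) ⟨?_, ?_, ?_⟩ ?_
  · intro i
    induction i using Fin.lastCases with
    | last => rw [hfl, sy_iff, hst]
    | cast i => rw [hfc]; exact he.sy i
  · intro i
    induction i using Fin.lastCases with
    | last => rw [hfl, hsq]
    | cast i => rw [hfc]; exact he.sq i
  · intro i j hij
    induction i using Fin.lastCases with
    | last =>
      induction j using Fin.lastCases with
      | last => exact absurd rfl hij
      | cast j => rw [hfl, hfc, hanti]
    | cast i =>
      induction j using Fin.lastCases with
      | last => rw [hfl, hfc, hanti, neg_neg]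
      | cast j =>
        rw [hfc, hfc]
        exact he.anti i j fun h => hij (by rw [h])
  · intro X hX
    obtain ⟨y, z, hXyz, hy, hz, hzs⟩ := dec hH he hX
    refine ⟨y, z, hXyz, ?_, ?_, hzs⟩
    · refine Submodule.span_mono ?_ hy
      rintro _ ⟨⟨i, j⟩, rfl⟩
      exact ⟨(i.castSucc, j.castSucc), by simp only [hfc]⟩
    · intro l
      induction l using Fin.lastCases with
      | last =>
        rw [hfl]
        have h3 : ∀ L : List (Fin 4), z * (L.map e).prod = (L.map e).prod * z := by
          intro L
          induction L with
          | nil => simp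
          | cons a t ih =>
            rw [List.map_cons, List.prod_cons, ← mul_assoc, hz a, mul_assoc, ih, mul_assoc]
        rw [hη]; exact h3 _
      | cast l => rw [hfc]; exact hz l

theorem cliff_false (hH : Ctx H) (hU : CliffU H U) : False := by
  obtain ⟨n, hn, e, he⟩ := exists_cliffB hH hU
  by_cases h7 : 7 ≤ n
  · refine no_seven (f := fun i => e (Fin.castLE h7 i)) ⟨fun i => he.sy _, fun i => he.sq _, ?_⟩
    intro i j hij
    exact he.anti _ _ fun h => hij (Fin.castLE_injective h7 h)
  · push Not at h7
    interval_cases n
    · exact not_one hH he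
    · exact not_skew_dim hH he (by decide)
    · exact not_skew_dim hH he (by decide)
    · exact not_four hH he
    · exact no_five hH he.cl fun X hX => dec hH he hX
    · exact not_skew_dim hH he (by decide)

/-- **Core statement.** -/
theorem core (hH : Ctx H) (hc : Cls H c) : c = 0 := by
  by_contra h0
  obtain ⟨U, hU⟩ := exists_cliffU hH hc h0
  exact cliff_false hH hU

end Pool.Agent.V5helper88.F4
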