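import Mathlib

/-!
Identity for primitive alternating four-arrays in dimension eight: if `c` is alternating with
vanishing contraction against the standard symplectic matrix and `A` is antisymmetric with zero
contraction, then the contraction of `c` with `A` and `A J A` vanishes.
-/

set_option linter.unusedSimpArgs false

namespace Pool.Agent.V5helper88.F4

/-- Alternating arrays in four indices. -/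
structure Alt4 (c : Fin 8 → Fin 8 → Fin 8 → Fin 8 → ℂ) : Prop where
  s1 : ∀ p q r s, c q p r s = - c p q r s
  s2 : ∀ p q r s, c p r q s = - c p q r s
  s3 : ∀ p q r s, c p q s r = - c p q r s

/-- The entries of `A J A`. -/
def Bq (A : Fin 8 → Fin 8 → ℂ) (r s : Fin 8) : ℂ :=
  (A r 0 * A 1 s - A r 1 * A 0 s) + (A r 2 * A 3 s - A r 3 * A 2 s)
    + (A r 4 * A 5 s - A r 5 * A 4 s) + (A r 6 * A 7 s - A r 7 * A 6 s)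

/-- The coefficient of `c p q r s`. -/
def Gq (A : Fin 8 → Fin 8 → ℂ) (p q r s : Fin 8) : ℂ :=
  A p q * Bq A r s - A p r * Bq A q s + A p s * Bq A q r
    + A q r * Bq A p s - A q s * Bq A p r + A r s * Bq A p q

theorem self_zero {A : Fin 8 → Fin 8 → ℂ} (hA : ∀ p q, A q p = - A p q) (p : Fin 8) :
    A p p = 0 := by
  have h := hA p p
  linear_combination (1 / 2 : ℂ) * h

/-- Coefficients of quadruples meeting every pair once. -/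
theorem G_a {A : Fin 8 → Fin 8 → ℂ} (hA : ∀ p q, A q p = - A p q)
    (ht : A 0 1 + A 2 3 + A 4 5 + A 6 7 = 0) :
    Gq A 0 2 4 6 = 0 ∧
    Gq A 0 2 4 7 = 0 ∧
    Gq A 0 2 5 6 = 0 ∧
    Gq A 0 2 5 7 = 0 ∧
    Gq A 0 3 4 6 = 0 ∧
    Gq A 0 3 4 7 = 0 ∧
    Gq A 0 3 5 6 = 0 ∧
    Gq A 0 3 5 7 = 0 ∧
    Gq A 1 2 4 6 = 0 ∧
    Gq A 1 2 4 7 = 0 ∧
    Gq A 1 2 5 6 = 0 ∧
    Gq A 1 2 5 7 = 0 ∧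
    Gq A 1 3 4 6 = 0 ∧
    Gq A 1 3 4 7 = 0 ∧
    Gq A 1 3 5 6 = 0 ∧
    Gq A 1 3 5 7 = 0 := by
  have d : ∀ p, A p p = 0 := self_zero hA
  refine ⟨?_, ?_, ?_, ?_, ?_, ?_, ?_, ?_, ?_, ?_, ?_, ?_, ?_, ?_, ?_, ?_⟩
  ·
    simp only
      [Gq, Bq, hA 0 1, hA 0 2, hA 0 3, hA 0 4, hA 0 5, hA 0 6, hA 0 7, hA 1 2, hA 1 3, hA 1 4, hA
      1 5, hA 1 6, hA 1 7, hA 2 3, hA 2 4, hA 2 5, hA 2 6, hA 2 7, hA 3 4, hA 3 5, hA 3 6, hA 3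
      7, hA 4 5, hA 4 6, hA 4 7, hA 5 6, hA 5 7, hA 6 7, d 0, d 1, d 2, d 3, d 4, d 5, d 6, d 7]
    linear_combination (-(A 0 2 * A 4 6 - A 0 4 * A 2 6 + A 0 6 * A 2 4)) * ht
  ·
    simp only
      [Gq, Bq, hA 0 1, hA 0 2, hA 0 3, hA 0 4, hA 0 5, hA 0 6, hA 0 7, hA 1 2, hA 1 3, hA 1 4, hA
      1 5, hA 1 6, hA 1 7, hA 2 3, hA 2 4, hA 2 5, hA 2 6, hA 2 7, hA 3 4, hA 3 5, hA 3 6, hA 3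
      7, hA 4 5, hA 4 6, hA 4 7, hA 5 6, hA 5 7, hA 6 7, d 0, d 1, d 2, d 3, d 4, d 5, d 6, d 7]
    linear_combination (-(A 0 2 * A 4 7 - A 0 4 * A 2 7 + A 0 7 * A 2 4)) * ht
  ·
    simp only
      [Gq, Bq, hA 0 1, hA 0 2, hA 0 3, hA 0 4, hA 0 5, hA 0 6, hA 0 7, hA 1 2, hA 1 3, hA 1 4, hA
      1 5, hA 1 6, hA 1 7, hA 2 3, hA 2 4, hA 2 5, hA 2 6, hA 2 7, hA 3 4, hA 3 5, hA 3 6, hA 3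
      7, hA 4 5, hA 4 6, hA 4 7, hA 5 6, hA 5 7, hA 6 7, d 0, d 1, d 2, d 3, d 4, d 5, d 6, d 7]
    linear_combination (-(A 0 2 * A 5 6 - A 0 5 * A 2 6 + A 0 6 * A 2 5)) * ht
  ·
    simp only
      [Gq, Bq, hA 0 1, hA 0 2, hA 0 3, hA 0 4, hA 0 5, hA 0 6, hA 0 7, hA 1 2, hA 1 3, hA 1 4, hA
      1 5, hA 1 6, hA 1 7, hA 2 3, hA 2 4, hA 2 5, hA 2 6, hA 2 7, hA 3 4, hA 3 5, hA 3 6, hA 3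
      7, hA 4 5, hA 4 6, hA 4 7, hA 5 6, hA 5 7, hA 6 7, d 0, d 1, d 2, d 3, d 4, d 5, d 6, d 7]
    linear_combination (-(A 0 2 * A 5 7 - A 0 5 * A 2 7 + A 0 7 * A 2 5)) * ht
  ·
    simp only
      [Gq, Bq, hA 0 1, hA 0 2, hA 0 3, hA 0 4, hA 0 5, hA 0 6, hA 0 7, hA 1 2, hA 1 3, hA 1 4, hA
      1 5, hA 1 6, hA 1 7, hA 2 3, hA 2 4, hA 2 5, hA 2 6, hA 2 7, hA 3 4, hA 3 5, hA 3 6, hA 3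
      7, hA 4 5, hA 4 6, hA 4 7, hA 5 6, hA 5 7, hA 6 7, d 0, d 1, d 2, d 3, d 4, d 5, d 6, d 7]
    linear_combination (-(A 0 3 * A 4 6 - A 0 4 * A 3 6 + A 0 6 * A 3 4)) * ht
  ·
    simp only
      [Gq, Bq, hA 0 1, hA 0 2, hA 0 3, hA 0 4, hA 0 5, hA 0 6, hA 0 7, hA 1 2, hA 1 3, hA 1 4, hA
      1 5, hA 1 6, hA 1 7, hA 2 3, hA 2 4, hA 2 5, hA 2 6, hA 2 7, hA 3 4, hA 3 5, hA 3 6, hA 3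
      7, hA 4 5, hA 4 6, hA 4 7, hA 5 6, hA 5 7, hA 6 7, d 0, d 1, d 2, d 3, d 4, d 5, d 6, d 7]
    linear_combination (-(A 0 3 * A 4 7 - A 0 4 * A 3 7 + A 0 7 * A 3 4)) * ht
  ·
    simp only
      [Gq, Bq, hA 0 1, hA 0 2, hA 0 3, hA 0 4, hA 0 5, hA 0 6, hA 0 7, hA 1 2, hA 1 3, hA 1 4, hA
      1 5, hA 1 6, hA 1 7, hA 2 3, hA 2 4, hA 2 5, hA 2 6, hA 2 7, hA 3 4, hA 3 5, hA 3 6, hA 3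
      7, hA 4 5, hA 4 6, hA 4 7, hA 5 6, hA 5 7, hA 6 7, d 0, d 1, d 2, d 3, d 4, d 5, d 6, d 7]
    linear_combination (-(A 0 3 * A 5 6 - A 0 5 * A 3 6 + A 0 6 * A 3 5)) * ht
  ·
    simp only
      [Gq, Bq, hA 0 1, hA 0 2, hA 0 3, hA 0 4, hA 0 5, hA 0 6, hA 0 7, hA 1 2, hA 1 3, hA 1 4, hA
      1 5, hA 1 6, hA 1 7, hA 2 3, hA 2 4, hA 2 5, hA 2 6, hA 2 7, hA 3 4, hA 3 5, hA 3 6, hA 3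
      7, hA 4 5, hA 4 6, hA 4 7, hA 5 6, hA 5 7, hA 6 7, d 0, d 1, d 2, d 3, d 4, d 5, d 6, d 7]
    linear_combination (-(A 0 3 * A 5 7 - A 0 5 * A 3 7 + A 0 7 * A 3 5)) * ht
  ·
    simp only
      [Gq, Bq, hA 0 1, hA 0 2, hA 0 3, hA 0 4, hA 0 5, hA 0 6, hA 0 7, hA 1 2, hA 1 3, hA 1 4, hA
      1 5, hA 1 6, hA 1 7, hA 2 3, hA 2 4, hA 2 5, hA 2 6, hA 2 7, hA 3 4, hA 3 5, hA 3 6, hA 3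
      7, hA 4 5, hA 4 6, hA 4 7, hA 5 6, hA 5 7, hA 6 7, d 0, d 1, d 2, d 3, d 4, d 5, d 6, d 7]
    linear_combination (-(A 1 2 * A 4 6 - A 1 4 * A 2 6 + A 1 6 * A 2 4)) * ht
  ·
    simp only
      [Gq, Bq, hA 0 1, hA 0 2, hA 0 3, hA 0 4, hA 0 5, hA 0 6, hA 0 7, hA 1 2, hA 1 3, hA 1 4, hA
      1 5, hA 1 6, hA 1 7, hA 2 3, hA 2 4, hA 2 5, hA 2 6, hA 2 7, hA 3 4, hA 3 5, hA 3 6, hA 3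
      7, hA 4 5, hA 4 6, hA 4 7, hA 5 6, hA 5 7, hA 6 7, d 0, d 1, d 2, d 3, d 4, d 5, d 6, d 7]
    linear_combination (-(A 1 2 * A 4 7 - A 1 4 * A 2 7 + A 1 7 * A 2 4)) * ht
  ·
    simp only
      [Gq, Bq, hA 0 1, hA 0 2, hA 0 3, hA 0 4, hA 0 5, hA 0 6, hA 0 7, hA 1 2, hA 1 3, hA 1 4, hA
      1 5, hA 1 6, hA 1 7, hA 2 3, hA 2 4, hA 2 5, hA 2 6, hA 2 7, hA 3 4, hA 3 5, hA 3 6, hA 3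
      7, hA 4 5, hA 4 6, hA 4 7, hA 5 6, hA 5 7, hA 6 7, d 0, d 1, d 2, d 3, d 4, d 5, d 6, d 7]
    linear_combination (-(A 1 2 * A 5 6 - A 1 5 * A 2 6 + A 1 6 * A 2 5)) * ht
  ·
    simp only
      [Gq, Bq, hA 0 1, hA 0 2, hA 0 3, hA 0 4, hA 0 5, hA 0 6, hA 0 7, hA 1 2, hA 1 3, hA 1 4, hA
      1 5, hA 1 6, hA 1 7, hA 2 3, hA 2 4, hA 2 5, hA 2 6, hA 2 7, hA 3 4, hA 3 5, hA 3 6, hA 3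
      7, hA 4 5, hA 4 6, hA 4 7, hA 5 6, hA 5 7, hA 6 7, d 0, d 1, d 2, d 3, d 4, d 5, d 6, d 7]
    linear_combination (-(A 1 2 * A 5 7 - A 1 5 * A 2 7 + A 1 7 * A 2 5)) * ht
  ·
    simp only
      [Gq, Bq, hA 0 1, hA 0 2, hA 0 3, hA 0 4, hA 0 5, hA 0 6, hA 0 7, hA 1 2, hA 1 3, hA 1 4, hA
      1 5, hA 1 6, hA 1 7, hA 2 3, hA 2 4, hA 2 5, hA 2 6, hA 2 7, hA 3 4, hA 3 5, hA 3 6, hA 3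
      7, hA 4 5, hA 4 6, hA 4 7, hA 5 6, hA 5 7, hA 6 7, d 0, d 1, d 2, d 3, d 4, d 5, d 6, d 7]
    linear_combination (-(A 1 3 * A 4 6 - A 1 4 * A 3 6 + A 1 6 * A 3 4)) * ht
  ·
    simp only
      [Gq, Bq, hA 0 1, hA 0 2, hA 0 3, hA 0 4, hA 0 5, hA 0 6, hA 0 7, hA 1 2, hA 1 3, hA 1 4, hA
      1 5, hA 1 6, hA 1 7, hA 2 3, hA 2 4, hA 2 5, hA 2 6, hA 2 7, hA 3 4, hA 3 5, hA 3 6, hA 3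
      7, hA 4 5, hA 4 6, hA 4 7, hA 5 6, hA 5 7, hA 6 7, d 0, d 1, d 2, d 3, d 4, d 5, d 6, d 7]
    linear_combination (-(A 1 3 * A 4 7 - A 1 4 * A 3 7 + A 1 7 * A 3 4)) * ht
  ·
    simp only
      [Gq, Bq, hA 0 1, hA 0 2, hA 0 3, hA 0 4, hA 0 5, hA 0 6, hA 0 7, hA 1 2, hA 1 3, hA 1 4, hA
      1 5, hA 1 6, hA 1 7, hA 2 3, hA 2 4, hA 2 5, hA 2 6, hA 2 7, hA 3 4, hA 3 5, hA 3 6, hA 3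
      7, hA 4 5, hA 4 6, hA 4 7, hA 5 6, hA 5 7, hA 6 7, d 0, d 1, d 2, d 3, d 4, d 5, d 6, d 7]
    linear_combination (-(A 1 3 * A 5 6 - A 1 5 * A 3 6 + A 1 6 * A 3 5)) * ht
  ·
    simp only
      [Gq, Bq, hA 0 1, hA 0 2, hA 0 3, hA 0 4, hA 0 5, hA 0 6, hA 0 7, hA 1 2, hA 1 3, hA 1 4, hA
      1 5, hA 1 6, hA 1 7, hA 2 3, hA 2 4, hA 2 5, hA 2 6, hA 2 7, hA 3 4, hA 3 5, hA 3 6, hA 3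
      7, hA 4 5, hA 4 6, hA 4 7, hA 5 6, hA 5 7, hA 6 7, d 0, d 1, d 2, d 3, d 4, d 5, d 6, d 7]
    linear_combination (-(A 1 3 * A 5 7 - A 1 5 * A 3 7 + A 1 7 * A 3 5)) * ht

/-- Coefficients of quadruples with exactly one full pair. -/
theorem G_b {A : Fin 8 → Fin 8 → ℂ} (hA : ∀ p q, A q p = - A p q)
    (ht : A 0 1 + A 2 3 + A 4 5 + A 6 7 = 0) :
    Gq A 0 2 4 5 = Gq A 0 2 6 7 ∧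
    Gq A 0 3 4 5 = Gq A 0 3 6 7 ∧
    Gq A 1 2 4 5 = Gq A 1 2 6 7 ∧
    Gq A 1 3 4 5 = Gq A 1 3 6 7 ∧
    Gq A 0 2 3 4 = Gq A 0 4 6 7 ∧
    Gq A 0 2 3 5 = Gq A 0 5 6 7 ∧
    Gq A 1 2 3 4 = Gq A 1 4 6 7 ∧
    Gq A 1 2 3 5 = Gq A 1 5 6 7 ∧
    Gq A 0 2 3 6 = Gq A 0 4 5 6 ∧
    Gq A 0 2 3 7 = Gq A 0 4 5 7 ∧
    Gq A 1 2 3 6 = Gq A 1 4 5 6 ∧
    Gq A 1 2 3 7 = Gq A 1 4 5 7 ∧
    Gq A 0 1 2 4 = Gq A 2 4 6 7 ∧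
    Gq A 0 1 2 5 = Gq A 2 5 6 7 ∧
    Gq A 0 1 3 4 = Gq A 3 4 6 7 ∧
    Gq A 0 1 3 5 = Gq A 3 5 6 7 ∧
    Gq A 0 1 2 6 = Gq A 2 4 5 6 ∧
    Gq A 0 1 2 7 = Gq A 2 4 5 7 ∧
    Gq A 0 1 3 6 = Gq A 3 4 5 6 ∧
    Gq A 0 1 3 7 = Gq A 3 4 5 7 ∧
    Gq A 0 1 4 6 = Gq A 2 3 4 6 ∧
    Gq A 0 1 4 7 = Gq A 2 3 4 7 ∧
    Gq A 0 1 5 6 = Gq A 2 3 5 6 ∧
    Gq A 0 1 5 7 = Gq A 2 3 5 7 := by
  have d : ∀ p, A p p = 0 := self_zero hA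
  refine ⟨?_, ?_, ?_, ?_, ?_, ?_, ?_, ?_, ?_, ?_, ?_, ?_, ?_, ?_, ?_, ?_, ?_, ?_, ?_, ?_, ?_, ?_, ?_, ?_⟩
  ·
    simp only
      [Gq, Bq, hA 0 1, hA 0 2, hA 0 3, hA 0 4, hA 0 5, hA 0 6, hA 0 7, hA 1 2, hA 1 3, hA 1 4, hA
      1 5, hA 1 6, hA 1 7, hA 2 3, hA 2 4, hA 2 5, hA 2 6, hA 2 7, hA 3 4, hA 3 5, hA 3 6, hA 3
      7, hA 4 5, hA 4 6, hA 4 7, hA 5 6, hA 5 7, hA 6 7, d 0, d 1, d 2, d 3, d 4, d 5, d 6, d 7]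
    linear_combination (-((A 0 2 * A 4 5 - A 0 4 * A 2 5 + A 0 5 * A 2 4) - (A 0 2 * A 6 7 - A 0
    6 * A 2 7 + A 0 7 * A 2 6))) * ht
  ·
    simp only
      [Gq, Bq, hA 0 1, hA 0 2, hA 0 3, hA 0 4, hA 0 5, hA 0 6, hA 0 7, hA 1 2, hA 1 3, hA 1 4, hA
      1 5, hA 1 6, hA 1 7, hA 2 3, hA 2 4, hA 2 5, hA 2 6, hA 2 7, hA 3 4, hA 3 5, hA 3 6, hA 3
      7, hA 4 5, hA 4 6, hA 4 7, hA 5 6, hA 5 7, hA 6 7, d 0, d 1, d 2, d 3, d 4, d 5, d 6, d 7]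
    linear_combination (-((A 0 3 * A 4 5 - A 0 4 * A 3 5 + A 0 5 * A 3 4) - (A 0 3 * A 6 7 - A 0
    6 * A 3 7 + A 0 7 * A 3 6))) * ht
  ·
    simp only
      [Gq, Bq, hA 0 1, hA 0 2, hA 0 3, hA 0 4, hA 0 5, hA 0 6, hA 0 7, hA 1 2, hA 1 3, hA 1 4, hA
      1 5, hA 1 6, hA 1 7, hA 2 3, hA 2 4, hA 2 5, hA 2 6, hA 2 7, hA 3 4, hA 3 5, hA 3 6, hA 3
      7, hA 4 5, hA 4 6, hA 4 7, hA 5 6, hA 5 7, hA 6 7, d 0, d 1, d 2, d 3, d 4, d 5, d 6, d 7]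
    linear_combination (-((A 1 2 * A 4 5 - A 1 4 * A 2 5 + A 1 5 * A 2 4) - (A 1 2 * A 6 7 - A 1
    6 * A 2 7 + A 1 7 * A 2 6))) * ht
  ·
    simp only
      [Gq, Bq, hA 0 1, hA 0 2, hA 0 3, hA 0 4, hA 0 5, hA 0 6, hA 0 7, hA 1 2, hA 1 3, hA 1 4, hA
      1 5, hA 1 6, hA 1 7, hA 2 3, hA 2 4, hA 2 5, hA 2 6, hA 2 7, hA 3 4, hA 3 5, hA 3 6, hA 3
      7, hA 4 5, hA 4 6, hA 4 7, hA 5 6, hA 5 7, hA 6 7, d 0, d 1, d 2, d 3, d 4, d 5, d 6, d 7]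
    linear_combination (-((A 1 3 * A 4 5 - A 1 4 * A 3 5 + A 1 5 * A 3 4) - (A 1 3 * A 6 7 - A 1
    6 * A 3 7 + A 1 7 * A 3 6))) * ht
  ·
    simp only
      [Gq, Bq, hA 0 1, hA 0 2, hA 0 3, hA 0 4, hA 0 5, hA 0 6, hA 0 7, hA 1 2, hA 1 3, hA 1 4, hA
      1 5, hA 1 6, hA 1 7, hA 2 3, hA 2 4, hA 2 5, hA 2 6, hA 2 7, hA 3 4, hA 3 5, hA 3 6, hA 3
      7, hA 4 5, hA 4 6, hA 4 7, hA 5 6, hA 5 7, hA 6 7, d 0, d 1, d 2, d 3, d 4, d 5, d 6, d 7]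
    linear_combination (-((A 0 2 * A 3 4 - A 0 3 * A 2 4 + A 0 4 * A 2 3) - (A 0 4 * A 6 7 - A 0
    6 * A 4 7 + A 0 7 * A 4 6))) * ht
  ·
    simp only
      [Gq, Bq, hA 0 1, hA 0 2, hA 0 3, hA 0 4, hA 0 5, hA 0 6, hA 0 7, hA 1 2, hA 1 3, hA 1 4, hA
      1 5, hA 1 6, hA 1 7, hA 2 3, hA 2 4, hA 2 5, hA 2 6, hA 2 7, hA 3 4, hA 3 5, hA 3 6, hA 3
      7, hA 4 5, hA 4 6, hA 4 7, hA 5 6, hA 5 7, hA 6 7, d 0, d 1, d 2, d 3, d 4, d 5, d 6, d 7]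
    linear_combination (-((A 0 2 * A 3 5 - A 0 3 * A 2 5 + A 0 5 * A 2 3) - (A 0 5 * A 6 7 - A 0
    6 * A 5 7 + A 0 7 * A 5 6))) * ht
  ·
    simp only
      [Gq, Bq, hA 0 1, hA 0 2, hA 0 3, hA 0 4, hA 0 5, hA 0 6, hA 0 7, hA 1 2, hA 1 3, hA 1 4, hA
      1 5, hA 1 6, hA 1 7, hA 2 3, hA 2 4, hA 2 5, hA 2 6, hA 2 7, hA 3 4, hA 3 5, hA 3 6, hA 3
      7, hA 4 5, hA 4 6, hA 4 7, hA 5 6, hA 5 7, hA 6 7, d 0, d 1, d 2, d 3, d 4, d 5, d 6, d 7]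
    linear_combination (-((A 1 2 * A 3 4 - A 1 3 * A 2 4 + A 1 4 * A 2 3) - (A 1 4 * A 6 7 - A 1
    6 * A 4 7 + A 1 7 * A 4 6))) * ht
  ·
    simp only
      [Gq, Bq, hA 0 1, hA 0 2, hA 0 3, hA 0 4, hA 0 5, hA 0 6, hA 0 7, hA 1 2, hA 1 3, hA 1 4, hA
      1 5, hA 1 6, hA 1 7, hA 2 3, hA 2 4, hA 2 5, hA 2 6, hA 2 7, hA 3 4, hA 3 5, hA 3 6, hA 3
      7, hA 4 5, hA 4 6, hA 4 7, hA 5 6, hA 5 7, hA 6 7, d 0, d 1, d 2, d 3, d 4, d 5, d 6, d 7]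
    linear_combination (-((A 1 2 * A 3 5 - A 1 3 * A 2 5 + A 1 5 * A 2 3) - (A 1 5 * A 6 7 - A 1
    6 * A 5 7 + A 1 7 * A 5 6))) * ht
  ·
    simp only
      [Gq, Bq, hA 0 1, hA 0 2, hA 0 3, hA 0 4, hA 0 5, hA 0 6, hA 0 7, hA 1 2, hA 1 3, hA 1 4, hA
      1 5, hA 1 6, hA 1 7, hA 2 3, hA 2 4, hA 2 5, hA 2 6, hA 2 7, hA 3 4, hA 3 5, hA 3 6, hA 3
      7, hA 4 5, hA 4 6, hA 4 7, hA 5 6, hA 5 7, hA 6 7, d 0, d 1, d 2, d 3, d 4, d 5, d 6, d 7]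
    linear_combination (-((A 0 2 * A 3 6 - A 0 3 * A 2 6 + A 0 6 * A 2 3) - (A 0 4 * A 5 6 - A 0
    5 * A 4 6 + A 0 6 * A 4 5))) * ht
  ·
    simp only
      [Gq, Bq, hA 0 1, hA 0 2, hA 0 3, hA 0 4, hA 0 5, hA 0 6, hA 0 7, hA 1 2, hA 1 3, hA 1 4, hA
      1 5, hA 1 6, hA 1 7, hA 2 3, hA 2 4, hA 2 5, hA 2 6, hA 2 7, hA 3 4, hA 3 5, hA 3 6, hA 3
      7, hA 4 5, hA 4 6, hA 4 7, hA 5 6, hA 5 7, hA 6 7, d 0, d 1, d 2, d 3, d 4, d 5, d 6, d 7]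
    linear_combination (-((A 0 2 * A 3 7 - A 0 3 * A 2 7 + A 0 7 * A 2 3) - (A 0 4 * A 5 7 - A 0
    5 * A 4 7 + A 0 7 * A 4 5))) * ht
  ·
    simp only
      [Gq, Bq, hA 0 1, hA 0 2, hA 0 3, hA 0 4, hA 0 5, hA 0 6, hA 0 7, hA 1 2, hA 1 3, hA 1 4, hA
      1 5, hA 1 6, hA 1 7, hA 2 3, hA 2 4, hA 2 5, hA 2 6, hA 2 7, hA 3 4, hA 3 5, hA 3 6, hA 3
      7, hA 4 5, hA 4 6, hA 4 7, hA 5 6, hA 5 7, hA 6 7, d 0, d 1, d 2, d 3, d 4, d 5, d 6, d 7]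
    linear_combination (-((A 1 2 * A 3 6 - A 1 3 * A 2 6 + A 1 6 * A 2 3) - (A 1 4 * A 5 6 - A 1
    5 * A 4 6 + A 1 6 * A 4 5))) * ht
  ·
    simp only
      [Gq, Bq, hA 0 1, hA 0 2, hA 0 3, hA 0 4, hA 0 5, hA 0 6, hA 0 7, hA 1 2, hA 1 3, hA 1 4, hA
      1 5, hA 1 6, hA 1 7, hA 2 3, hA 2 4, hA 2 5, hA 2 6, hA 2 7, hA 3 4, hA 3 5, hA 3 6, hA 3
      7, hA 4 5, hA 4 6, hA 4 7, hA 5 6, hA 5 7, hA 6 7, d 0, d 1, d 2, d 3, d 4, d 5, d 6, d 7]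
    linear_combination (-((A 1 2 * A 3 7 - A 1 3 * A 2 7 + A 1 7 * A 2 3) - (A 1 4 * A 5 7 - A 1
    5 * A 4 7 + A 1 7 * A 4 5))) * ht
  ·
    simp only
      [Gq, Bq, hA 0 1, hA 0 2, hA 0 3, hA 0 4, hA 0 5, hA 0 6, hA 0 7, hA 1 2, hA 1 3, hA 1 4, hA
      1 5, hA 1 6, hA 1 7, hA 2 3, hA 2 4, hA 2 5, hA 2 6, hA 2 7, hA 3 4, hA 3 5, hA 3 6, hA 3
      7, hA 4 5, hA 4 6, hA 4 7, hA 5 6, hA 5 7, hA 6 7, d 0, d 1, d 2, d 3, d 4, d 5, d 6, d 7]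
    linear_combination (-((A 0 1 * A 2 4 - A 0 2 * A 1 4 + A 0 4 * A 1 2) - (A 2 4 * A 6 7 - A 2
    6 * A 4 7 + A 2 7 * A 4 6))) * ht
  ·
    simp only
      [Gq, Bq, hA 0 1, hA 0 2, hA 0 3, hA 0 4, hA 0 5, hA 0 6, hA 0 7, hA 1 2, hA 1 3, hA 1 4, hA
      1 5, hA 1 6, hA 1 7, hA 2 3, hA 2 4, hA 2 5, hA 2 6, hA 2 7, hA 3 4, hA 3 5, hA 3 6, hA 3
      7, hA 4 5, hA 4 6, hA 4 7, hA 5 6, hA 5 7, hA 6 7, d 0, d 1, d 2, d 3, d 4, d 5, d 6, d 7]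
    linear_combination (-((A 0 1 * A 2 5 - A 0 2 * A 1 5 + A 0 5 * A 1 2) - (A 2 5 * A 6 7 - A 2
    6 * A 5 7 + A 2 7 * A 5 6))) * ht
  ·
    simp only
      [Gq, Bq, hA 0 1, hA 0 2, hA 0 3, hA 0 4, hA 0 5, hA 0 6, hA 0 7, hA 1 2, hA 1 3, hA 1 4, hA
      1 5, hA 1 6, hA 1 7, hA 2 3, hA 2 4, hA 2 5, hA 2 6, hA 2 7, hA 3 4, hA 3 5, hA 3 6, hA 3
      7, hA 4 5, hA 4 6, hA 4 7, hA 5 6, hA 5 7, hA 6 7, d 0, d 1, d 2, d 3, d 4, d 5, d 6, d 7]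
    linear_combination (-((A 0 1 * A 3 4 - A 0 3 * A 1 4 + A 0 4 * A 1 3) - (A 3 4 * A 6 7 - A 3
    6 * A 4 7 + A 3 7 * A 4 6))) * ht
  ·
    simp only
      [Gq, Bq, hA 0 1, hA 0 2, hA 0 3, hA 0 4, hA 0 5, hA 0 6, hA 0 7, hA 1 2, hA 1 3, hA 1 4, hA
      1 5, hA 1 6, hA 1 7, hA 2 3, hA 2 4, hA 2 5, hA 2 6, hA 2 7, hA 3 4, hA 3 5, hA 3 6, hA 3
      7, hA 4 5, hA 4 6, hA 4 7, hA 5 6, hA 5 7, hA 6 7, d 0, d 1, d 2, d 3, d 4, d 5, d 6, d 7]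
    linear_combination (-((A 0 1 * A 3 5 - A 0 3 * A 1 5 + A 0 5 * A 1 3) - (A 3 5 * A 6 7 - A 3
    6 * A 5 7 + A 3 7 * A 5 6))) * ht
  ·
    simp only
      [Gq, Bq, hA 0 1, hA 0 2, hA 0 3, hA 0 4, hA 0 5, hA 0 6, hA 0 7, hA 1 2, hA 1 3, hA 1 4, hA
      1 5, hA 1 6, hA 1 7, hA 2 3, hA 2 4, hA 2 5, hA 2 6, hA 2 7, hA 3 4, hA 3 5, hA 3 6, hA 3
      7, hA 4 5, hA 4 6, hA 4 7, hA 5 6, hA 5 7, hA 6 7, d 0, d 1, d 2, d 3, d 4, d 5, d 6, d 7]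
    linear_combination (-((A 0 1 * A 2 6 - A 0 2 * A 1 6 + A 0 6 * A 1 2) - (A 2 4 * A 5 6 - A 2
    5 * A 4 6 + A 2 6 * A 4 5))) * ht
  ·
    simp only
      [Gq, Bq, hA 0 1, hA 0 2, hA 0 3, hA 0 4, hA 0 5, hA 0 6, hA 0 7, hA 1 2, hA 1 3, hA 1 4, hA
      1 5, hA 1 6, hA 1 7, hA 2 3, hA 2 4, hA 2 5, hA 2 6, hA 2 7, hA 3 4, hA 3 5, hA 3 6, hA 3
      7, hA 4 5, hA 4 6, hA 4 7, hA 5 6, hA 5 7, hA 6 7, d 0, d 1, d 2, d 3, d 4, d 5, d 6, d 7]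
    linear_combination (-((A 0 1 * A 2 7 - A 0 2 * A 1 7 + A 0 7 * A 1 2) - (A 2 4 * A 5 7 - A 2
    5 * A 4 7 + A 2 7 * A 4 5))) * ht
  ·
    simp only
      [Gq, Bq, hA 0 1, hA 0 2, hA 0 3, hA 0 4, hA 0 5, hA 0 6, hA 0 7, hA 1 2, hA 1 3, hA 1 4, hA
      1 5, hA 1 6, hA 1 7, hA 2 3, hA 2 4, hA 2 5, hA 2 6, hA 2 7, hA 3 4, hA 3 5, hA 3 6, hA 3
      7, hA 4 5, hA 4 6, hA 4 7, hA 5 6, hA 5 7, hA 6 7, d 0, d 1, d 2, d 3, d 4, d 5, d 6, d 7]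
    linear_combination (-((A 0 1 * A 3 6 - A 0 3 * A 1 6 + A 0 6 * A 1 3) - (A 3 4 * A 5 6 - A 3
    5 * A 4 6 + A 3 6 * A 4 5))) * ht
  ·
    simp only
      [Gq, Bq, hA 0 1, hA 0 2, hA 0 3, hA 0 4, hA 0 5, hA 0 6, hA 0 7, hA 1 2, hA 1 3, hA 1 4, hA
      1 5, hA 1 6, hA 1 7, hA 2 3, hA 2 4, hA 2 5, hA 2 6, hA 2 7, hA 3 4, hA 3 5, hA 3 6, hA 3
      7, hA 4 5, hA 4 6, hA 4 7, hA 5 6, hA 5 7, hA 6 7, d 0, d 1, d 2, d 3, d 4, d 5, d 6, d 7]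
    linear_combination (-((A 0 1 * A 3 7 - A 0 3 * A 1 7 + A 0 7 * A 1 3) - (A 3 4 * A 5 7 - A 3
    5 * A 4 7 + A 3 7 * A 4 5))) * ht
  ·
    simp only
      [Gq, Bq, hA 0 1, hA 0 2, hA 0 3, hA 0 4, hA 0 5, hA 0 6, hA 0 7, hA 1 2, hA 1 3, hA 1 4, hA
      1 5, hA 1 6, hA 1 7, hA 2 3, hA 2 4, hA 2 5, hA 2 6, hA 2 7, hA 3 4, hA 3 5, hA 3 6, hA 3
      7, hA 4 5, hA 4 6, hA 4 7, hA 5 6, hA 5 7, hA 6 7, d 0, d 1, d 2, d 3, d 4, d 5, d 6, d 7]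
    linear_combination (-((A 0 1 * A 4 6 - A 0 4 * A 1 6 + A 0 6 * A 1 4) - (A 2 3 * A 4 6 - A 2
    4 * A 3 6 + A 2 6 * A 3 4))) * ht
  ·
    simp only
      [Gq, Bq, hA 0 1, hA 0 2, hA 0 3, hA 0 4, hA 0 5, hA 0 6, hA 0 7, hA 1 2, hA 1 3, hA 1 4, hA
      1 5, hA 1 6, hA 1 7, hA 2 3, hA 2 4, hA 2 5, hA 2 6, hA 2 7, hA 3 4, hA 3 5, hA 3 6, hA 3
      7, hA 4 5, hA 4 6, hA 4 7, hA 5 6, hA 5 7, hA 6 7, d 0, d 1, d 2, d 3, d 4, d 5, d 6, d 7]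
    linear_combination (-((A 0 1 * A 4 7 - A 0 4 * A 1 7 + A 0 7 * A 1 4) - (A 2 3 * A 4 7 - A 2
    4 * A 3 7 + A 2 7 * A 3 4))) * ht
  ·
    simp only
      [Gq, Bq, hA 0 1, hA 0 2, hA 0 3, hA 0 4, hA 0 5, hA 0 6, hA 0 7, hA 1 2, hA 1 3, hA 1 4, hA
      1 5, hA 1 6, hA 1 7, hA 2 3, hA 2 4, hA 2 5, hA 2 6, hA 2 7, hA 3 4, hA 3 5, hA 3 6, hA 3
      7, hA 4 5, hA 4 6, hA 4 7, hA 5 6, hA 5 7, hA 6 7, d 0, d 1, d 2, d 3, d 4, d 5, d 6, d 7]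
    linear_combination (-((A 0 1 * A 5 6 - A 0 5 * A 1 6 + A 0 6 * A 1 5) - (A 2 3 * A 5 6 - A 2
    5 * A 3 6 + A 2 6 * A 3 5))) * ht
  ·
    simp only
      [Gq, Bq, hA 0 1, hA 0 2, hA 0 3, hA 0 4, hA 0 5, hA 0 6, hA 0 7, hA 1 2, hA 1 3, hA 1 4, hA
      1 5, hA 1 6, hA 1 7, hA 2 3, hA 2 4, hA 2 5, hA 2 6, hA 2 7, hA 3 4, hA 3 5, hA 3 6, hA 3
      7, hA 4 5, hA 4 6, hA 4 7, hA 5 6, hA 5 7, hA 6 7, d 0, d 1, d 2, d 3, d 4, d 5, d 6, d 7]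
    linear_combination (-((A 0 1 * A 5 7 - A 0 5 * A 1 7 + A 0 7 * A 1 5) - (A 2 3 * A 5 7 - A 2
    5 * A 3 7 + A 2 7 * A 3 5))) * ht

/-- Coefficients of quadruples with two full pairs. -/
theorem G_c {A : Fin 8 → Fin 8 → ℂ} (hA : ∀ p q, A q p = - A p q)
    (ht : A 0 1 + A 2 3 + A 4 5 + A 6 7 = 0) :
    Gq A 0 1 2 3 + Gq A 4 5 6 7 = Gq A 0 1 4 5 + Gq A 2 3 6 7 ∧
    Gq A 0 1 2 3 + Gq A 4 5 6 7 = Gq A 0 1 6 7 + Gq A 2 3 4 5 := by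
  have d : ∀ p, A p p = 0 := self_zero hA
  refine ⟨?_, ?_⟩
  ·
    simp only
      [Gq, Bq, hA 0 1, hA 0 2, hA 0 3, hA 0 4, hA 0 5, hA 0 6, hA 0 7, hA 1 2, hA 1 3, hA 1 4, hA
      1 5, hA 1 6, hA 1 7, hA 2 3, hA 2 4, hA 2 5, hA 2 6, hA 2 7, hA 3 4, hA 3 5, hA 3 6, hA 3
      7, hA 4 5, hA 4 6, hA 4 7, hA 5 6, hA 5 7, hA 6 7, d 0, d 1, d 2, d 3, d 4, d 5, d 6, d 7]
    linear_combination (-(((A 0 1 * A 2 3 - A 0 2 * A 1 3 + A 0 3 * A 1 2) + (A 4 5 * A 6 7 - A 4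
    6 * A 5 7 + A 4 7 * A 5 6)) - ((A 0 1 * A 4 5 - A 0 4 * A 1 5 + A 0 5 * A 1 4) + (A 2 3 * A 6
    7 - A 2 6 * A 3 7 + A 2 7 * A 3 6)))) * ht
  ·
    simp only
      [Gq, Bq, hA 0 1, hA 0 2, hA 0 3, hA 0 4, hA 0 5, hA 0 6, hA 0 7, hA 1 2, hA 1 3, hA 1 4, hA
      1 5, hA 1 6, hA 1 7, hA 2 3, hA 2 4, hA 2 5, hA 2 6, hA 2 7, hA 3 4, hA 3 5, hA 3 6, hA 3
      7, hA 4 5, hA 4 6, hA 4 7, hA 5 6, hA 5 7, hA 6 7, d 0, d 1, d 2, d 3, d 4, d 5, d 6, d 7]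
    linear_combination (-(((A 0 1 * A 2 3 - A 0 2 * A 1 3 + A 0 3 * A 1 2) + (A 4 5 * A 6 7 - A 4
    6 * A 5 7 + A 4 7 * A 5 6)) - ((A 0 1 * A 6 7 - A 0 6 * A 1 7 + A 0 7 * A 1 6) + (A 2 3 * A 4
    5 - A 2 4 * A 3 5 + A 2 5 * A 3 4)))) * ht

/-- Reduction of a symmetric double sum to the strictly increasing pairs. -/
theorem sum28 (f : Fin 8 → Fin 8 → ℂ) (hf : ∀ p q, f q p = f p q) (hd : ∀ p, f p p = 0) :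
    ∑ p, ∑ q, f p q = 2 * (f 0 1 + f 0 2 + f 0 3 + f 0 4 + f 0 5 + f 0 6 + f 0 7 + f 1 2 + f 1 3 + f 1 4 + f 1 5 + f 1
      6 + f 1 7 + f 2 3 + f 2 4 + f 2 5 + f 2 6 + f 2 7 + f 3 4 + f 3 5 + f 3 6 + f 3 7 + f 4 5 +
      f 4 6 + f 4 7 + f 5 6 + f 5 7 + f 6 7) := by
  simp only [Fin.sum_univ_eight, hd, hf 0 1, hf 0 2, hf 0 3, hf 0 4, hf 0 5, hf 0 6, hf 0 7, hf 1 2, hf 1 3, hf 1 4, hf 1 5, hf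
      1 6, hf 1 7, hf 2 3, hf 2 4, hf 2 5, hf 2 6, hf 2 7, hf 3 4, hf 3 5, hf 3 6, hf 3 7, hf 4
      5, hf 4 6, hf 4 7, hf 5 6, hf 5 7, hf 6 7]
  ring

end Pool.Agent.V5helper88.F4
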