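import Pool.Agent.V5helper88.F1

/-!
The contraction of a primitive alternating four-array with `A` and `A J A`.
-/

set_option linter.unusedSimpArgs false

namespace Pool.Agent.V5helper88.F4

variable {c : Fin 8 → Fin 8 → Fin 8 → Fin 8 → ℂ}

theorem Alt4.z1 (hc : Alt4 c) (p r s : Fin 8) : c p p r s = 0 := by
  linear_combination (1 / 2 : ℂ) * hc.s1 p p r s

theorem Alt4.z2 (hc : Alt4 c) (p q s : Fin 8) : c p q q s = 0 := by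
  linear_combination (1 / 2 : ℂ) * hc.s2 p q q s

theorem Alt4.z3 (hc : Alt4 c) (p q r : Fin 8) : c p q r r = 0 := by
  linear_combination (1 / 2 : ℂ) * hc.s3 p q r r

theorem Alt4.z13 (hc : Alt4 c) (p q s : Fin 8) : c p q p s = 0 := by
  rw [hc.s2 p p q s, hc.z1, neg_zero]

theorem Alt4.z24 (hc : Alt4 c) (p q r : Fin 8) : c p q r q = 0 := by
  rw [hc.s3 p q q r, hc.z2, neg_zero]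

theorem Alt4.z14 (hc : Alt4 c) (p q r : Fin 8) : c p q r p = 0 := by
  rw [hc.s3 p q p r, hc.z13, neg_zero]

/-- Inner contraction for each increasing pair of first indices. -/
theorem inner_01 (B : Fin 8 → Fin 8 → ℂ) (hB : ∀ p q, B q p = - B p q) (hc : Alt4 c) :
    ∑ r, ∑ s, B r s * c 0 1 r s = 2 * (B 2 3 * c 0 1 2 3 + B 2 4 * c 0 1 2 4 + B 2 5 * c 0 1 2 5
    + B 2 6 * c 0 1 2 6 + B 2 7 * c 0 1 2 7 + B 3 4 * c 0 1 3 4 + B 3 5 * c 0 1 3 5 + B 3 6 * c 0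
    1 3 6 + B 3 7 * c 0 1 3 7 + B 4 5 * c 0 1 4 5 + B 4 6 * c 0 1 4 6 + B 4 7 * c 0 1 4 7 + B 5 6
    * c 0 1 5 6 + B 5 7 * c 0 1 5 7 + B 6 7 * c 0 1 6 7) := by
  rw [sum28 (fun r s => B r s * c 0 1 r s) (fun r s => by rw [hB r s, hc.s3 0 1 r s]; ring)
    (fun r => by rw [hc.z3, mul_zero])]
  simp only [hc.z13, hc.z24, hc.z14, hc.z2]
  ring

theorem inner_02 (B : Fin 8 → Fin 8 → ℂ) (hB : ∀ p q, B q p = - B p q) (hc : Alt4 c) :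
    ∑ r, ∑ s, B r s * c 0 2 r s = 2 * (-(B 1 3 * c 0 1 2 3) - B 1 4 * c 0 1 2 4 - B 1 5 * c 0 1 2
    5 - B 1 6 * c 0 1 2 6 - B 1 7 * c 0 1 2 7 + B 3 4 * c 0 2 3 4 + B 3 5 * c 0 2 3 5 + B 3 6 * c
    0 2 3 6 + B 3 7 * c 0 2 3 7 + B 4 5 * c 0 2 4 5 + B 4 6 * c 0 2 4 6 + B 4 7 * c 0 2 4 7 + B 5
    6 * c 0 2 5 6 + B 5 7 * c 0 2 5 7 + B 6 7 * c 0 2 6 7) := by
  rw [sum28 (fun r s => B r s * c 0 2 r s) (fun r s => by rw [hB r s, hc.s3 0 2 r s]; ring)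
    (fun r => by rw [hc.z3, mul_zero])]
  have e0 : c 0 2 1 3 = - c 0 1 2 3 := by
    rw [hc.s2 0 1 2 3]
  have e1 : c 0 2 1 4 = - c 0 1 2 4 := by
    rw [hc.s2 0 1 2 4]
  have e2 : c 0 2 1 5 = - c 0 1 2 5 := by
    rw [hc.s2 0 1 2 5]
  have e3 : c 0 2 1 6 = - c 0 1 2 6 := by
    rw [hc.s2 0 1 2 6]
  have e4 : c 0 2 1 7 = - c 0 1 2 7 := by
    rw [hc.s2 0 1 2 7]
  simp only [hc.z13, hc.z24, hc.z14, hc.z2, e0, e1, e2, e3, e4]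
  ring

theorem inner_03 (B : Fin 8 → Fin 8 → ℂ) (hB : ∀ p q, B q p = - B p q) (hc : Alt4 c) :
    ∑ r, ∑ s, B r s * c 0 3 r s = 2 * (B 1 2 * c 0 1 2 3 - B 1 4 * c 0 1 3 4 - B 1 5 * c 0 1 3 5
    - B 1 6 * c 0 1 3 6 - B 1 7 * c 0 1 3 7 - B 2 4 * c 0 2 3 4 - B 2 5 * c 0 2 3 5 - B 2 6 * c 0
    2 3 6 - B 2 7 * c 0 2 3 7 + B 4 5 * c 0 3 4 5 + B 4 6 * c 0 3 4 6 + B 4 7 * c 0 3 4 7 + B 5 6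
    * c 0 3 5 6 + B 5 7 * c 0 3 5 7 + B 6 7 * c 0 3 6 7) := by
  rw [sum28 (fun r s => B r s * c 0 3 r s) (fun r s => by rw [hB r s, hc.s3 0 3 r s]; ring)
    (fun r => by rw [hc.z3, mul_zero])]
  have e0 : c 0 3 1 2 = c 0 1 2 3 := by
    rw [hc.s2 0 1 3 2, hc.s3 0 1 2 3, neg_neg]
  have e1 : c 0 3 1 4 = - c 0 1 3 4 := by
    rw [hc.s2 0 1 3 4]
  have e2 : c 0 3 1 5 = - c 0 1 3 5 := by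
    rw [hc.s2 0 1 3 5]
  have e3 : c 0 3 1 6 = - c 0 1 3 6 := by
    rw [hc.s2 0 1 3 6]
  have e4 : c 0 3 1 7 = - c 0 1 3 7 := by
    rw [hc.s2 0 1 3 7]
  have e5 : c 0 3 2 4 = - c 0 2 3 4 := by
    rw [hc.s2 0 2 3 4]
  have e6 : c 0 3 2 5 = - c 0 2 3 5 := by
    rw [hc.s2 0 2 3 5]
  have e7 : c 0 3 2 6 = - c 0 2 3 6 := by
    rw [hc.s2 0 2 3 6]
  have e8 : c 0 3 2 7 = - c 0 2 3 7 := by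
    rw [hc.s2 0 2 3 7]
  simp only [hc.z13, hc.z24, hc.z14, hc.z2, e0, e1, e2, e3, e4, e5, e6, e7, e8]
  ring

theorem inner_04 (B : Fin 8 → Fin 8 → ℂ) (hB : ∀ p q, B q p = - B p q) (hc : Alt4 c) :
    ∑ r, ∑ s, B r s * c 0 4 r s = 2 * (B 1 2 * c 0 1 2 4 + B 1 3 * c 0 1 3 4 - B 1 5 * c 0 1 4 5
    - B 1 6 * c 0 1 4 6 - B 1 7 * c 0 1 4 7 + B 2 3 * c 0 2 3 4 - B 2 5 * c 0 2 4 5 - B 2 6 * c 0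
    2 4 6 - B 2 7 * c 0 2 4 7 - B 3 5 * c 0 3 4 5 - B 3 6 * c 0 3 4 6 - B 3 7 * c 0 3 4 7 + B 5 6
    * c 0 4 5 6 + B 5 7 * c 0 4 5 7 + B 6 7 * c 0 4 6 7) := by
  rw [sum28 (fun r s => B r s * c 0 4 r s) (fun r s => by rw [hB r s, hc.s3 0 4 r s]; ring)
    (fun r => by rw [hc.z3, mul_zero])]
  have e0 : c 0 4 1 2 = c 0 1 2 4 := by
    rw [hc.s2 0 1 4 2, hc.s3 0 1 2 4, neg_neg]
  have e1 : c 0 4 1 3 = c 0 1 3 4 := by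
    rw [hc.s2 0 1 4 3, hc.s3 0 1 3 4, neg_neg]
  have e2 : c 0 4 1 5 = - c 0 1 4 5 := by
    rw [hc.s2 0 1 4 5]
  have e3 : c 0 4 1 6 = - c 0 1 4 6 := by
    rw [hc.s2 0 1 4 6]
  have e4 : c 0 4 1 7 = - c 0 1 4 7 := by
    rw [hc.s2 0 1 4 7]
  have e5 : c 0 4 2 3 = c 0 2 3 4 := by
    rw [hc.s2 0 2 4 3, hc.s3 0 2 3 4, neg_neg]
  have e6 : c 0 4 2 5 = - c 0 2 4 5 := by
    rw [hc.s2 0 2 4 5]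
  have e7 : c 0 4 2 6 = - c 0 2 4 6 := by
    rw [hc.s2 0 2 4 6]
  have e8 : c 0 4 2 7 = - c 0 2 4 7 := by
    rw [hc.s2 0 2 4 7]
  have e9 : c 0 4 3 5 = - c 0 3 4 5 := by
    rw [hc.s2 0 3 4 5]
  have e10 : c 0 4 3 6 = - c 0 3 4 6 := by
    rw [hc.s2 0 3 4 6]
  have e11 : c 0 4 3 7 = - c 0 3 4 7 := by
    rw [hc.s2 0 3 4 7]
  simp only [hc.z13, hc.z24, hc.z14, hc.z2, e0, e1, e2, e3, e4, e5, e6, e7, e8, e9, e10, e11]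
  ring

theorem inner_05 (B : Fin 8 → Fin 8 → ℂ) (hB : ∀ p q, B q p = - B p q) (hc : Alt4 c) :
    ∑ r, ∑ s, B r s * c 0 5 r s = 2 * (B 1 2 * c 0 1 2 5 + B 1 3 * c 0 1 3 5 + B 1 4 * c 0 1 4 5
    - B 1 6 * c 0 1 5 6 - B 1 7 * c 0 1 5 7 + B 2 3 * c 0 2 3 5 + B 2 4 * c 0 2 4 5 - B 2 6 * c 0
    2 5 6 - B 2 7 * c 0 2 5 7 + B 3 4 * c 0 3 4 5 - B 3 6 * c 0 3 5 6 - B 3 7 * c 0 3 5 7 - B 4 6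
    * c 0 4 5 6 - B 4 7 * c 0 4 5 7 + B 6 7 * c 0 5 6 7) := by
  rw [sum28 (fun r s => B r s * c 0 5 r s) (fun r s => by rw [hB r s, hc.s3 0 5 r s]; ring)
    (fun r => by rw [hc.z3, mul_zero])]
  have e0 : c 0 5 1 2 = c 0 1 2 5 := by
    rw [hc.s2 0 1 5 2, hc.s3 0 1 2 5, neg_neg]
  have e1 : c 0 5 1 3 = c 0 1 3 5 := by
    rw [hc.s2 0 1 5 3, hc.s3 0 1 3 5, neg_neg]
  have e2 : c 0 5 1 4 = c 0 1 4 5 := by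
    rw [hc.s2 0 1 5 4, hc.s3 0 1 4 5, neg_neg]
  have e3 : c 0 5 1 6 = - c 0 1 5 6 := by
    rw [hc.s2 0 1 5 6]
  have e4 : c 0 5 1 7 = - c 0 1 5 7 := by
    rw [hc.s2 0 1 5 7]
  have e5 : c 0 5 2 3 = c 0 2 3 5 := by
    rw [hc.s2 0 2 5 3, hc.s3 0 2 3 5, neg_neg]
  have e6 : c 0 5 2 4 = c 0 2 4 5 := by
    rw [hc.s2 0 2 5 4, hc.s3 0 2 4 5, neg_neg]
  have e7 : c 0 5 2 6 = - c 0 2 5 6 := by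
    rw [hc.s2 0 2 5 6]
  have e8 : c 0 5 2 7 = - c 0 2 5 7 := by
    rw [hc.s2 0 2 5 7]
  have e9 : c 0 5 3 4 = c 0 3 4 5 := by
    rw [hc.s2 0 3 5 4, hc.s3 0 3 4 5, neg_neg]
  have e10 : c 0 5 3 6 = - c 0 3 5 6 := by
    rw [hc.s2 0 3 5 6]
  have e11 : c 0 5 3 7 = - c 0 3 5 7 := by
    rw [hc.s2 0 3 5 7]
  have e12 : c 0 5 4 6 = - c 0 4 5 6 := by
    rw [hc.s2 0 4 5 6]
  have e13 : c 0 5 4 7 = - c 0 4 5 7 := by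
    rw [hc.s2 0 4 5 7]
  simp only [hc.z13, hc.z24, hc.z14, hc.z2, e0, e1, e2, e3, e4, e5, e6, e7, e8, e9, e10, e11, e12, e13]
  ring

theorem inner_06 (B : Fin 8 → Fin 8 → ℂ) (hB : ∀ p q, B q p = - B p q) (hc : Alt4 c) :
    ∑ r, ∑ s, B r s * c 0 6 r s = 2 * (B 1 2 * c 0 1 2 6 + B 1 3 * c 0 1 3 6 + B 1 4 * c 0 1 4 6
    + B 1 5 * c 0 1 5 6 - B 1 7 * c 0 1 6 7 + B 2 3 * c 0 2 3 6 + B 2 4 * c 0 2 4 6 + B 2 5 * c 0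
    2 5 6 - B 2 7 * c 0 2 6 7 + B 3 4 * c 0 3 4 6 + B 3 5 * c 0 3 5 6 - B 3 7 * c 0 3 6 7 + B 4 5
    * c 0 4 5 6 - B 4 7 * c 0 4 6 7 - B 5 7 * c 0 5 6 7) := by
  rw [sum28 (fun r s => B r s * c 0 6 r s) (fun r s => by rw [hB r s, hc.s3 0 6 r s]; ring)
    (fun r => by rw [hc.z3, mul_zero])]
  have e0 : c 0 6 1 2 = c 0 1 2 6 := by
    rw [hc.s2 0 1 6 2, hc.s3 0 1 2 6, neg_neg]
  have e1 : c 0 6 1 3 = c 0 1 3 6 := by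
    rw [hc.s2 0 1 6 3, hc.s3 0 1 3 6, neg_neg]
  have e2 : c 0 6 1 4 = c 0 1 4 6 := by
    rw [hc.s2 0 1 6 4, hc.s3 0 1 4 6, neg_neg]
  have e3 : c 0 6 1 5 = c 0 1 5 6 := by
    rw [hc.s2 0 1 6 5, hc.s3 0 1 5 6, neg_neg]
  have e4 : c 0 6 1 7 = - c 0 1 6 7 := by
    rw [hc.s2 0 1 6 7]
  have e5 : c 0 6 2 3 = c 0 2 3 6 := by
    rw [hc.s2 0 2 6 3, hc.s3 0 2 3 6, neg_neg]
  have e6 : c 0 6 2 4 = c 0 2 4 6 := by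
    rw [hc.s2 0 2 6 4, hc.s3 0 2 4 6, neg_neg]
  have e7 : c 0 6 2 5 = c 0 2 5 6 := by
    rw [hc.s2 0 2 6 5, hc.s3 0 2 5 6, neg_neg]
  have e8 : c 0 6 2 7 = - c 0 2 6 7 := by
    rw [hc.s2 0 2 6 7]
  have e9 : c 0 6 3 4 = c 0 3 4 6 := by
    rw [hc.s2 0 3 6 4, hc.s3 0 3 4 6, neg_neg]
  have e10 : c 0 6 3 5 = c 0 3 5 6 := by
    rw [hc.s2 0 3 6 5, hc.s3 0 3 5 6, neg_neg]
  have e11 : c 0 6 3 7 = - c 0 3 6 7 := by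
    rw [hc.s2 0 3 6 7]
  have e12 : c 0 6 4 5 = c 0 4 5 6 := by
    rw [hc.s2 0 4 6 5, hc.s3 0 4 5 6, neg_neg]
  have e13 : c 0 6 4 7 = - c 0 4 6 7 := by
    rw [hc.s2 0 4 6 7]
  have e14 : c 0 6 5 7 = - c 0 5 6 7 := by
    rw [hc.s2 0 5 6 7]
  simp only [hc.z13, hc.z24, hc.z14, hc.z2, e0, e1, e2, e3, e4, e5, e6, e7, e8, e9, e10, e11, e12, e13, e14]
  ring

theorem inner_07 (B : Fin 8 → Fin 8 → ℂ) (hB : ∀ p q, B q p = - B p q) (hc : Alt4 c) :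
    ∑ r, ∑ s, B r s * c 0 7 r s = 2 * (B 1 2 * c 0 1 2 7 + B 1 3 * c 0 1 3 7 + B 1 4 * c 0 1 4 7
    + B 1 5 * c 0 1 5 7 + B 1 6 * c 0 1 6 7 + B 2 3 * c 0 2 3 7 + B 2 4 * c 0 2 4 7 + B 2 5 * c 0
    2 5 7 + B 2 6 * c 0 2 6 7 + B 3 4 * c 0 3 4 7 + B 3 5 * c 0 3 5 7 + B 3 6 * c 0 3 6 7 + B 4 5
    * c 0 4 5 7 + B 4 6 * c 0 4 6 7 + B 5 6 * c 0 5 6 7) := by
  rw [sum28 (fun r s => B r s * c 0 7 r s) (fun r s => by rw [hB r s, hc.s3 0 7 r s]; ring)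
    (fun r => by rw [hc.z3, mul_zero])]
  have e0 : c 0 7 1 2 = c 0 1 2 7 := by
    rw [hc.s2 0 1 7 2, hc.s3 0 1 2 7, neg_neg]
  have e1 : c 0 7 1 3 = c 0 1 3 7 := by
    rw [hc.s2 0 1 7 3, hc.s3 0 1 3 7, neg_neg]
  have e2 : c 0 7 1 4 = c 0 1 4 7 := by
    rw [hc.s2 0 1 7 4, hc.s3 0 1 4 7, neg_neg]
  have e3 : c 0 7 1 5 = c 0 1 5 7 := by
    rw [hc.s2 0 1 7 5, hc.s3 0 1 5 7, neg_neg]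
  have e4 : c 0 7 1 6 = c 0 1 6 7 := by
    rw [hc.s2 0 1 7 6, hc.s3 0 1 6 7, neg_neg]
  have e5 : c 0 7 2 3 = c 0 2 3 7 := by
    rw [hc.s2 0 2 7 3, hc.s3 0 2 3 7, neg_neg]
  have e6 : c 0 7 2 4 = c 0 2 4 7 := by
    rw [hc.s2 0 2 7 4, hc.s3 0 2 4 7, neg_neg]
  have e7 : c 0 7 2 5 = c 0 2 5 7 := by
    rw [hc.s2 0 2 7 5, hc.s3 0 2 5 7, neg_neg]
  have e8 : c 0 7 2 6 = c 0 2 6 7 := by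
    rw [hc.s2 0 2 7 6, hc.s3 0 2 6 7, neg_neg]
  have e9 : c 0 7 3 4 = c 0 3 4 7 := by
    rw [hc.s2 0 3 7 4, hc.s3 0 3 4 7, neg_neg]
  have e10 : c 0 7 3 5 = c 0 3 5 7 := by
    rw [hc.s2 0 3 7 5, hc.s3 0 3 5 7, neg_neg]
  have e11 : c 0 7 3 6 = c 0 3 6 7 := by
    rw [hc.s2 0 3 7 6, hc.s3 0 3 6 7, neg_neg]
  have e12 : c 0 7 4 5 = c 0 4 5 7 := by
    rw [hc.s2 0 4 7 5, hc.s3 0 4 5 7, neg_neg]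
  have e13 : c 0 7 4 6 = c 0 4 6 7 := by
    rw [hc.s2 0 4 7 6, hc.s3 0 4 6 7, neg_neg]
  have e14 : c 0 7 5 6 = c 0 5 6 7 := by
    rw [hc.s2 0 5 7 6, hc.s3 0 5 6 7, neg_neg]
  simp only [hc.z13, hc.z24, hc.z14, hc.z2, e0, e1, e2, e3, e4, e5, e6, e7, e8, e9, e10, e11, e12, e13, e14]
  ring

theorem inner_12 (B : Fin 8 → Fin 8 → ℂ) (hB : ∀ p q, B q p = - B p q) (hc : Alt4 c) :
    ∑ r, ∑ s, B r s * c 1 2 r s = 2 * (B 0 3 * c 0 1 2 3 + B 0 4 * c 0 1 2 4 + B 0 5 * c 0 1 2 5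
    + B 0 6 * c 0 1 2 6 + B 0 7 * c 0 1 2 7 + B 3 4 * c 1 2 3 4 + B 3 5 * c 1 2 3 5 + B 3 6 * c 1
    2 3 6 + B 3 7 * c 1 2 3 7 + B 4 5 * c 1 2 4 5 + B 4 6 * c 1 2 4 6 + B 4 7 * c 1 2 4 7 + B 5 6
    * c 1 2 5 6 + B 5 7 * c 1 2 5 7 + B 6 7 * c 1 2 6 7) := by
  rw [sum28 (fun r s => B r s * c 1 2 r s) (fun r s => by rw [hB r s, hc.s3 1 2 r s]; ring)
    (fun r => by rw [hc.z3, mul_zero])]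
  have e0 : c 1 2 0 3 = c 0 1 2 3 := by
    rw [hc.s2 1 0 2 3, hc.s1 0 1 2 3, neg_neg]
  have e1 : c 1 2 0 4 = c 0 1 2 4 := by
    rw [hc.s2 1 0 2 4, hc.s1 0 1 2 4, neg_neg]
  have e2 : c 1 2 0 5 = c 0 1 2 5 := by
    rw [hc.s2 1 0 2 5, hc.s1 0 1 2 5, neg_neg]
  have e3 : c 1 2 0 6 = c 0 1 2 6 := by
    rw [hc.s2 1 0 2 6, hc.s1 0 1 2 6, neg_neg]
  have e4 : c 1 2 0 7 = c 0 1 2 7 := by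
    rw [hc.s2 1 0 2 7, hc.s1 0 1 2 7, neg_neg]
  simp only [hc.z13, hc.z24, hc.z14, hc.z2, e0, e1, e2, e3, e4]
  ring

theorem inner_13 (B : Fin 8 → Fin 8 → ℂ) (hB : ∀ p q, B q p = - B p q) (hc : Alt4 c) :
    ∑ r, ∑ s, B r s * c 1 3 r s = 2 * (-(B 0 2 * c 0 1 2 3) + B 0 4 * c 0 1 3 4 + B 0 5 * c 0 1 3
    5 + B 0 6 * c 0 1 3 6 + B 0 7 * c 0 1 3 7 - B 2 4 * c 1 2 3 4 - B 2 5 * c 1 2 3 5 - B 2 6 * c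
    1 2 3 6 - B 2 7 * c 1 2 3 7 + B 4 5 * c 1 3 4 5 + B 4 6 * c 1 3 4 6 + B 4 7 * c 1 3 4 7 + B 5
    6 * c 1 3 5 6 + B 5 7 * c 1 3 5 7 + B 6 7 * c 1 3 6 7) := by
  rw [sum28 (fun r s => B r s * c 1 3 r s) (fun r s => by rw [hB r s, hc.s3 1 3 r s]; ring)
    (fun r => by rw [hc.z3, mul_zero])]
  have e0 : c 1 3 0 2 = - c 0 1 2 3 := by
    rw [hc.s2 1 0 3 2, hc.s1 0 1 3 2, hc.s3 0 1 2 3, neg_neg]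
  have e1 : c 1 3 0 4 = c 0 1 3 4 := by
    rw [hc.s2 1 0 3 4, hc.s1 0 1 3 4, neg_neg]
  have e2 : c 1 3 0 5 = c 0 1 3 5 := by
    rw [hc.s2 1 0 3 5, hc.s1 0 1 3 5, neg_neg]
  have e3 : c 1 3 0 6 = c 0 1 3 6 := by
    rw [hc.s2 1 0 3 6, hc.s1 0 1 3 6, neg_neg]
  have e4 : c 1 3 0 7 = c 0 1 3 7 := by
    rw [hc.s2 1 0 3 7, hc.s1 0 1 3 7, neg_neg]
  have e5 : c 1 3 2 4 = - c 1 2 3 4 := by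
    rw [hc.s2 1 2 3 4]
  have e6 : c 1 3 2 5 = - c 1 2 3 5 := by
    rw [hc.s2 1 2 3 5]
  have e7 : c 1 3 2 6 = - c 1 2 3 6 := by
    rw [hc.s2 1 2 3 6]
  have e8 : c 1 3 2 7 = - c 1 2 3 7 := by
    rw [hc.s2 1 2 3 7]
  simp only [hc.z13, hc.z24, hc.z14, hc.z2, e0, e1, e2, e3, e4, e5, e6, e7, e8]
  ring

theorem inner_14 (B : Fin 8 → Fin 8 → ℂ) (hB : ∀ p q, B q p = - B p q) (hc : Alt4 c) :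
    ∑ r, ∑ s, B r s * c 1 4 r s = 2 * (-(B 0 2 * c 0 1 2 4) - B 0 3 * c 0 1 3 4 + B 0 5 * c 0 1 4
    5 + B 0 6 * c 0 1 4 6 + B 0 7 * c 0 1 4 7 + B 2 3 * c 1 2 3 4 - B 2 5 * c 1 2 4 5 - B 2 6 * c
    1 2 4 6 - B 2 7 * c 1 2 4 7 - B 3 5 * c 1 3 4 5 - B 3 6 * c 1 3 4 6 - B 3 7 * c 1 3 4 7 + B 5
    6 * c 1 4 5 6 + B 5 7 * c 1 4 5 7 + B 6 7 * c 1 4 6 7) := by
  rw [sum28 (fun r s => B r s * c 1 4 r s) (fun r s => by rw [hB r s, hc.s3 1 4 r s]; ring)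
    (fun r => by rw [hc.z3, mul_zero])]
  have e0 : c 1 4 0 2 = - c 0 1 2 4 := by
    rw [hc.s2 1 0 4 2, hc.s1 0 1 4 2, hc.s3 0 1 2 4, neg_neg]
  have e1 : c 1 4 0 3 = - c 0 1 3 4 := by
    rw [hc.s2 1 0 4 3, hc.s1 0 1 4 3, hc.s3 0 1 3 4, neg_neg]
  have e2 : c 1 4 0 5 = c 0 1 4 5 := by
    rw [hc.s2 1 0 4 5, hc.s1 0 1 4 5, neg_neg]
  have e3 : c 1 4 0 6 = c 0 1 4 6 := by
    rw [hc.s2 1 0 4 6, hc.s1 0 1 4 6, neg_neg]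
  have e4 : c 1 4 0 7 = c 0 1 4 7 := by
    rw [hc.s2 1 0 4 7, hc.s1 0 1 4 7, neg_neg]
  have e5 : c 1 4 2 3 = c 1 2 3 4 := by
    rw [hc.s2 1 2 4 3, hc.s3 1 2 3 4, neg_neg]
  have e6 : c 1 4 2 5 = - c 1 2 4 5 := by
    rw [hc.s2 1 2 4 5]
  have e7 : c 1 4 2 6 = - c 1 2 4 6 := by
    rw [hc.s2 1 2 4 6]
  have e8 : c 1 4 2 7 = - c 1 2 4 7 := by
    rw [hc.s2 1 2 4 7]
  have e9 : c 1 4 3 5 = - c 1 3 4 5 := by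
    rw [hc.s2 1 3 4 5]
  have e10 : c 1 4 3 6 = - c 1 3 4 6 := by
    rw [hc.s2 1 3 4 6]
  have e11 : c 1 4 3 7 = - c 1 3 4 7 := by
    rw [hc.s2 1 3 4 7]
  simp only [hc.z13, hc.z24, hc.z14, hc.z2, e0, e1, e2, e3, e4, e5, e6, e7, e8, e9, e10, e11]
  ring

theorem inner_15 (B : Fin 8 → Fin 8 → ℂ) (hB : ∀ p q, B q p = - B p q) (hc : Alt4 c) :
    ∑ r, ∑ s, B r s * c 1 5 r s = 2 * (-(B 0 2 * c 0 1 2 5) - B 0 3 * c 0 1 3 5 - B 0 4 * c 0 1 4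
    5 + B 0 6 * c 0 1 5 6 + B 0 7 * c 0 1 5 7 + B 2 3 * c 1 2 3 5 + B 2 4 * c 1 2 4 5 - B 2 6 * c
    1 2 5 6 - B 2 7 * c 1 2 5 7 + B 3 4 * c 1 3 4 5 - B 3 6 * c 1 3 5 6 - B 3 7 * c 1 3 5 7 - B 4
    6 * c 1 4 5 6 - B 4 7 * c 1 4 5 7 + B 6 7 * c 1 5 6 7) := by
  rw [sum28 (fun r s => B r s * c 1 5 r s) (fun r s => by rw [hB r s, hc.s3 1 5 r s]; ring)
    (fun r => by rw [hc.z3, mul_zero])]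
  have e0 : c 1 5 0 2 = - c 0 1 2 5 := by
    rw [hc.s2 1 0 5 2, hc.s1 0 1 5 2, hc.s3 0 1 2 5, neg_neg]
  have e1 : c 1 5 0 3 = - c 0 1 3 5 := by
    rw [hc.s2 1 0 5 3, hc.s1 0 1 5 3, hc.s3 0 1 3 5, neg_neg]
  have e2 : c 1 5 0 4 = - c 0 1 4 5 := by
    rw [hc.s2 1 0 5 4, hc.s1 0 1 5 4, hc.s3 0 1 4 5, neg_neg]
  have e3 : c 1 5 0 6 = c 0 1 5 6 := by
    rw [hc.s2 1 0 5 6, hc.s1 0 1 5 6, neg_neg]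
  have e4 : c 1 5 0 7 = c 0 1 5 7 := by
    rw [hc.s2 1 0 5 7, hc.s1 0 1 5 7, neg_neg]
  have e5 : c 1 5 2 3 = c 1 2 3 5 := by
    rw [hc.s2 1 2 5 3, hc.s3 1 2 3 5, neg_neg]
  have e6 : c 1 5 2 4 = c 1 2 4 5 := by
    rw [hc.s2 1 2 5 4, hc.s3 1 2 4 5, neg_neg]
  have e7 : c 1 5 2 6 = - c 1 2 5 6 := by
    rw [hc.s2 1 2 5 6]
  have e8 : c 1 5 2 7 = - c 1 2 5 7 := by
    rw [hc.s2 1 2 5 7]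
  have e9 : c 1 5 3 4 = c 1 3 4 5 := by
    rw [hc.s2 1 3 5 4, hc.s3 1 3 4 5, neg_neg]
  have e10 : c 1 5 3 6 = - c 1 3 5 6 := by
    rw [hc.s2 1 3 5 6]
  have e11 : c 1 5 3 7 = - c 1 3 5 7 := by
    rw [hc.s2 1 3 5 7]
  have e12 : c 1 5 4 6 = - c 1 4 5 6 := by
    rw [hc.s2 1 4 5 6]
  have e13 : c 1 5 4 7 = - c 1 4 5 7 := by
    rw [hc.s2 1 4 5 7]
  simp only [hc.z13, hc.z24, hc.z14, hc.z2, e0, e1, e2, e3, e4, e5, e6, e7, e8, e9, e10, e11, e12, e13]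
  ring

theorem inner_16 (B : Fin 8 → Fin 8 → ℂ) (hB : ∀ p q, B q p = - B p q) (hc : Alt4 c) :
    ∑ r, ∑ s, B r s * c 1 6 r s = 2 * (-(B 0 2 * c 0 1 2 6) - B 0 3 * c 0 1 3 6 - B 0 4 * c 0 1 4
    6 - B 0 5 * c 0 1 5 6 + B 0 7 * c 0 1 6 7 + B 2 3 * c 1 2 3 6 + B 2 4 * c 1 2 4 6 + B 2 5 * c
    1 2 5 6 - B 2 7 * c 1 2 6 7 + B 3 4 * c 1 3 4 6 + B 3 5 * c 1 3 5 6 - B 3 7 * c 1 3 6 7 + B 4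
    5 * c 1 4 5 6 - B 4 7 * c 1 4 6 7 - B 5 7 * c 1 5 6 7) := by
  rw [sum28 (fun r s => B r s * c 1 6 r s) (fun r s => by rw [hB r s, hc.s3 1 6 r s]; ring)
    (fun r => by rw [hc.z3, mul_zero])]
  have e0 : c 1 6 0 2 = - c 0 1 2 6 := by
    rw [hc.s2 1 0 6 2, hc.s1 0 1 6 2, hc.s3 0 1 2 6, neg_neg]
  have e1 : c 1 6 0 3 = - c 0 1 3 6 := by
    rw [hc.s2 1 0 6 3, hc.s1 0 1 6 3, hc.s3 0 1 3 6, neg_neg]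
  have e2 : c 1 6 0 4 = - c 0 1 4 6 := by
    rw [hc.s2 1 0 6 4, hc.s1 0 1 6 4, hc.s3 0 1 4 6, neg_neg]
  have e3 : c 1 6 0 5 = - c 0 1 5 6 := by
    rw [hc.s2 1 0 6 5, hc.s1 0 1 6 5, hc.s3 0 1 5 6, neg_neg]
  have e4 : c 1 6 0 7 = c 0 1 6 7 := by
    rw [hc.s2 1 0 6 7, hc.s1 0 1 6 7, neg_neg]
  have e5 : c 1 6 2 3 = c 1 2 3 6 := by
    rw [hc.s2 1 2 6 3, hc.s3 1 2 3 6, neg_neg]
  have e6 : c 1 6 2 4 = c 1 2 4 6 := by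
    rw [hc.s2 1 2 6 4, hc.s3 1 2 4 6, neg_neg]
  have e7 : c 1 6 2 5 = c 1 2 5 6 := by
    rw [hc.s2 1 2 6 5, hc.s3 1 2 5 6, neg_neg]
  have e8 : c 1 6 2 7 = - c 1 2 6 7 := by
    rw [hc.s2 1 2 6 7]
  have e9 : c 1 6 3 4 = c 1 3 4 6 := by
    rw [hc.s2 1 3 6 4, hc.s3 1 3 4 6, neg_neg]
  have e10 : c 1 6 3 5 = c 1 3 5 6 := by
    rw [hc.s2 1 3 6 5, hc.s3 1 3 5 6, neg_neg]
  have e11 : c 1 6 3 7 = - c 1 3 6 7 := by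
    rw [hc.s2 1 3 6 7]
  have e12 : c 1 6 4 5 = c 1 4 5 6 := by
    rw [hc.s2 1 4 6 5, hc.s3 1 4 5 6, neg_neg]
  have e13 : c 1 6 4 7 = - c 1 4 6 7 := by
    rw [hc.s2 1 4 6 7]
  have e14 : c 1 6 5 7 = - c 1 5 6 7 := by
    rw [hc.s2 1 5 6 7]
  simp only [hc.z13, hc.z24, hc.z14, hc.z2, e0, e1, e2, e3, e4, e5, e6, e7, e8, e9, e10, e11, e12, e13, e14]
  ring

theorem inner_17 (B : Fin 8 → Fin 8 → ℂ) (hB : ∀ p q, B q p = - B p q) (hc : Alt4 c) :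
    ∑ r, ∑ s, B r s * c 1 7 r s = 2 * (-(B 0 2 * c 0 1 2 7) - B 0 3 * c 0 1 3 7 - B 0 4 * c 0 1 4
    7 - B 0 5 * c 0 1 5 7 - B 0 6 * c 0 1 6 7 + B 2 3 * c 1 2 3 7 + B 2 4 * c 1 2 4 7 + B 2 5 * c
    1 2 5 7 + B 2 6 * c 1 2 6 7 + B 3 4 * c 1 3 4 7 + B 3 5 * c 1 3 5 7 + B 3 6 * c 1 3 6 7 + B 4
    5 * c 1 4 5 7 + B 4 6 * c 1 4 6 7 + B 5 6 * c 1 5 6 7) := by
  rw [sum28 (fun r s => B r s * c 1 7 r s) (fun r s => by rw [hB r s, hc.s3 1 7 r s]; ring)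
    (fun r => by rw [hc.z3, mul_zero])]
  have e0 : c 1 7 0 2 = - c 0 1 2 7 := by
    rw [hc.s2 1 0 7 2, hc.s1 0 1 7 2, hc.s3 0 1 2 7, neg_neg]
  have e1 : c 1 7 0 3 = - c 0 1 3 7 := by
    rw [hc.s2 1 0 7 3, hc.s1 0 1 7 3, hc.s3 0 1 3 7, neg_neg]
  have e2 : c 1 7 0 4 = - c 0 1 4 7 := by
    rw [hc.s2 1 0 7 4, hc.s1 0 1 7 4, hc.s3 0 1 4 7, neg_neg]
  have e3 : c 1 7 0 5 = - c 0 1 5 7 := by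
    rw [hc.s2 1 0 7 5, hc.s1 0 1 7 5, hc.s3 0 1 5 7, neg_neg]
  have e4 : c 1 7 0 6 = - c 0 1 6 7 := by
    rw [hc.s2 1 0 7 6, hc.s1 0 1 7 6, hc.s3 0 1 6 7, neg_neg]
  have e5 : c 1 7 2 3 = c 1 2 3 7 := by
    rw [hc.s2 1 2 7 3, hc.s3 1 2 3 7, neg_neg]
  have e6 : c 1 7 2 4 = c 1 2 4 7 := by
    rw [hc.s2 1 2 7 4, hc.s3 1 2 4 7, neg_neg]
  have e7 : c 1 7 2 5 = c 1 2 5 7 := by
    rw [hc.s2 1 2 7 5, hc.s3 1 2 5 7, neg_neg]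
  have e8 : c 1 7 2 6 = c 1 2 6 7 := by
    rw [hc.s2 1 2 7 6, hc.s3 1 2 6 7, neg_neg]
  have e9 : c 1 7 3 4 = c 1 3 4 7 := by
    rw [hc.s2 1 3 7 4, hc.s3 1 3 4 7, neg_neg]
  have e10 : c 1 7 3 5 = c 1 3 5 7 := by
    rw [hc.s2 1 3 7 5, hc.s3 1 3 5 7, neg_neg]
  have e11 : c 1 7 3 6 = c 1 3 6 7 := by
    rw [hc.s2 1 3 7 6, hc.s3 1 3 6 7, neg_neg]
  have e12 : c 1 7 4 5 = c 1 4 5 7 := by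
    rw [hc.s2 1 4 7 5, hc.s3 1 4 5 7, neg_neg]
  have e13 : c 1 7 4 6 = c 1 4 6 7 := by
    rw [hc.s2 1 4 7 6, hc.s3 1 4 6 7, neg_neg]
  have e14 : c 1 7 5 6 = c 1 5 6 7 := by
    rw [hc.s2 1 5 7 6, hc.s3 1 5 6 7, neg_neg]
  simp only [hc.z13, hc.z24, hc.z14, hc.z2, e0, e1, e2, e3, e4, e5, e6, e7, e8, e9, e10, e11, e12, e13, e14]
  ring

theorem inner_23 (B : Fin 8 → Fin 8 → ℂ) (hB : ∀ p q, B q p = - B p q) (hc : Alt4 c) :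
    ∑ r, ∑ s, B r s * c 2 3 r s = 2 * (B 0 1 * c 0 1 2 3 + B 0 4 * c 0 2 3 4 + B 0 5 * c 0 2 3 5
    + B 0 6 * c 0 2 3 6 + B 0 7 * c 0 2 3 7 + B 1 4 * c 1 2 3 4 + B 1 5 * c 1 2 3 5 + B 1 6 * c 1
    2 3 6 + B 1 7 * c 1 2 3 7 + B 4 5 * c 2 3 4 5 + B 4 6 * c 2 3 4 6 + B 4 7 * c 2 3 4 7 + B 5 6
    * c 2 3 5 6 + B 5 7 * c 2 3 5 7 + B 6 7 * c 2 3 6 7) := by
  rw [sum28 (fun r s => B r s * c 2 3 r s) (fun r s => by rw [hB r s, hc.s3 2 3 r s]; ring)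
    (fun r => by rw [hc.z3, mul_zero])]
  have e0 : c 2 3 0 1 = c 0 1 2 3 := by
    rw [hc.s2 2 0 3 1, hc.s1 0 2 3 1, hc.s3 0 2 1 3, hc.s2 0 1 2 3, neg_neg, neg_neg]
  have e1 : c 2 3 0 4 = c 0 2 3 4 := by
    rw [hc.s2 2 0 3 4, hc.s1 0 2 3 4, neg_neg]
  have e2 : c 2 3 0 5 = c 0 2 3 5 := by
    rw [hc.s2 2 0 3 5, hc.s1 0 2 3 5, neg_neg]
  have e3 : c 2 3 0 6 = c 0 2 3 6 := by
    rw [hc.s2 2 0 3 6, hc.s1 0 2 3 6, neg_neg]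
  have e4 : c 2 3 0 7 = c 0 2 3 7 := by
    rw [hc.s2 2 0 3 7, hc.s1 0 2 3 7, neg_neg]
  have e5 : c 2 3 1 4 = c 1 2 3 4 := by
    rw [hc.s2 2 1 3 4, hc.s1 1 2 3 4, neg_neg]
  have e6 : c 2 3 1 5 = c 1 2 3 5 := by
    rw [hc.s2 2 1 3 5, hc.s1 1 2 3 5, neg_neg]
  have e7 : c 2 3 1 6 = c 1 2 3 6 := by
    rw [hc.s2 2 1 3 6, hc.s1 1 2 3 6, neg_neg]
  have e8 : c 2 3 1 7 = c 1 2 3 7 := by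
    rw [hc.s2 2 1 3 7, hc.s1 1 2 3 7, neg_neg]
  simp only [hc.z13, hc.z24, hc.z14, hc.z2, e0, e1, e2, e3, e4, e5, e6, e7, e8]
  ring

theorem inner_24 (B : Fin 8 → Fin 8 → ℂ) (hB : ∀ p q, B q p = - B p q) (hc : Alt4 c) :
    ∑ r, ∑ s, B r s * c 2 4 r s = 2 * (B 0 1 * c 0 1 2 4 - B 0 3 * c 0 2 3 4 + B 0 5 * c 0 2 4 5
    + B 0 6 * c 0 2 4 6 + B 0 7 * c 0 2 4 7 - B 1 3 * c 1 2 3 4 + B 1 5 * c 1 2 4 5 + B 1 6 * c 1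
    2 4 6 + B 1 7 * c 1 2 4 7 - B 3 5 * c 2 3 4 5 - B 3 6 * c 2 3 4 6 - B 3 7 * c 2 3 4 7 + B 5 6
    * c 2 4 5 6 + B 5 7 * c 2 4 5 7 + B 6 7 * c 2 4 6 7) := by
  rw [sum28 (fun r s => B r s * c 2 4 r s) (fun r s => by rw [hB r s, hc.s3 2 4 r s]; ring)
    (fun r => by rw [hc.z3, mul_zero])]
  have e0 : c 2 4 0 1 = c 0 1 2 4 := by
    rw [hc.s2 2 0 4 1, hc.s1 0 2 4 1, hc.s3 0 2 1 4, hc.s2 0 1 2 4, neg_neg, neg_neg]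
  have e1 : c 2 4 0 3 = - c 0 2 3 4 := by
    rw [hc.s2 2 0 4 3, hc.s1 0 2 4 3, hc.s3 0 2 3 4, neg_neg]
  have e2 : c 2 4 0 5 = c 0 2 4 5 := by
    rw [hc.s2 2 0 4 5, hc.s1 0 2 4 5, neg_neg]
  have e3 : c 2 4 0 6 = c 0 2 4 6 := by
    rw [hc.s2 2 0 4 6, hc.s1 0 2 4 6, neg_neg]
  have e4 : c 2 4 0 7 = c 0 2 4 7 := by
    rw [hc.s2 2 0 4 7, hc.s1 0 2 4 7, neg_neg]
  have e5 : c 2 4 1 3 = - c 1 2 3 4 := by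
    rw [hc.s2 2 1 4 3, hc.s1 1 2 4 3, hc.s3 1 2 3 4, neg_neg]
  have e6 : c 2 4 1 5 = c 1 2 4 5 := by
    rw [hc.s2 2 1 4 5, hc.s1 1 2 4 5, neg_neg]
  have e7 : c 2 4 1 6 = c 1 2 4 6 := by
    rw [hc.s2 2 1 4 6, hc.s1 1 2 4 6, neg_neg]
  have e8 : c 2 4 1 7 = c 1 2 4 7 := by
    rw [hc.s2 2 1 4 7, hc.s1 1 2 4 7, neg_neg]
  have e9 : c 2 4 3 5 = - c 2 3 4 5 := by
    rw [hc.s2 2 3 4 5]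
  have e10 : c 2 4 3 6 = - c 2 3 4 6 := by
    rw [hc.s2 2 3 4 6]
  have e11 : c 2 4 3 7 = - c 2 3 4 7 := by
    rw [hc.s2 2 3 4 7]
  simp only [hc.z13, hc.z24, hc.z14, hc.z2, e0, e1, e2, e3, e4, e5, e6, e7, e8, e9, e10, e11]
  ring

theorem inner_25 (B : Fin 8 → Fin 8 → ℂ) (hB : ∀ p q, B q p = - B p q) (hc : Alt4 c) :
    ∑ r, ∑ s, B r s * c 2 5 r s = 2 * (B 0 1 * c 0 1 2 5 - B 0 3 * c 0 2 3 5 - B 0 4 * c 0 2 4 5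
    + B 0 6 * c 0 2 5 6 + B 0 7 * c 0 2 5 7 - B 1 3 * c 1 2 3 5 - B 1 4 * c 1 2 4 5 + B 1 6 * c 1
    2 5 6 + B 1 7 * c 1 2 5 7 + B 3 4 * c 2 3 4 5 - B 3 6 * c 2 3 5 6 - B 3 7 * c 2 3 5 7 - B 4 6
    * c 2 4 5 6 - B 4 7 * c 2 4 5 7 + B 6 7 * c 2 5 6 7) := by
  rw [sum28 (fun r s => B r s * c 2 5 r s) (fun r s => by rw [hB r s, hc.s3 2 5 r s]; ring)
    (fun r => by rw [hc.z3, mul_zero])]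
  have e0 : c 2 5 0 1 = c 0 1 2 5 := by
    rw [hc.s2 2 0 5 1, hc.s1 0 2 5 1, hc.s3 0 2 1 5, hc.s2 0 1 2 5, neg_neg, neg_neg]
  have e1 : c 2 5 0 3 = - c 0 2 3 5 := by
    rw [hc.s2 2 0 5 3, hc.s1 0 2 5 3, hc.s3 0 2 3 5, neg_neg]
  have e2 : c 2 5 0 4 = - c 0 2 4 5 := by
    rw [hc.s2 2 0 5 4, hc.s1 0 2 5 4, hc.s3 0 2 4 5, neg_neg]
  have e3 : c 2 5 0 6 = c 0 2 5 6 := by
    rw [hc.s2 2 0 5 6, hc.s1 0 2 5 6, neg_neg]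
  have e4 : c 2 5 0 7 = c 0 2 5 7 := by
    rw [hc.s2 2 0 5 7, hc.s1 0 2 5 7, neg_neg]
  have e5 : c 2 5 1 3 = - c 1 2 3 5 := by
    rw [hc.s2 2 1 5 3, hc.s1 1 2 5 3, hc.s3 1 2 3 5, neg_neg]
  have e6 : c 2 5 1 4 = - c 1 2 4 5 := by
    rw [hc.s2 2 1 5 4, hc.s1 1 2 5 4, hc.s3 1 2 4 5, neg_neg]
  have e7 : c 2 5 1 6 = c 1 2 5 6 := by
    rw [hc.s2 2 1 5 6, hc.s1 1 2 5 6, neg_neg]
  have e8 : c 2 5 1 7 = c 1 2 5 7 := by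
    rw [hc.s2 2 1 5 7, hc.s1 1 2 5 7, neg_neg]
  have e9 : c 2 5 3 4 = c 2 3 4 5 := by
    rw [hc.s2 2 3 5 4, hc.s3 2 3 4 5, neg_neg]
  have e10 : c 2 5 3 6 = - c 2 3 5 6 := by
    rw [hc.s2 2 3 5 6]
  have e11 : c 2 5 3 7 = - c 2 3 5 7 := by
    rw [hc.s2 2 3 5 7]
  have e12 : c 2 5 4 6 = - c 2 4 5 6 := by
    rw [hc.s2 2 4 5 6]
  have e13 : c 2 5 4 7 = - c 2 4 5 7 := by
    rw [hc.s2 2 4 5 7]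
  simp only [hc.z13, hc.z24, hc.z14, hc.z2, e0, e1, e2, e3, e4, e5, e6, e7, e8, e9, e10, e11, e12, e13]
  ring

theorem inner_26 (B : Fin 8 → Fin 8 → ℂ) (hB : ∀ p q, B q p = - B p q) (hc : Alt4 c) :
    ∑ r, ∑ s, B r s * c 2 6 r s = 2 * (B 0 1 * c 0 1 2 6 - B 0 3 * c 0 2 3 6 - B 0 4 * c 0 2 4 6
    - B 0 5 * c 0 2 5 6 + B 0 7 * c 0 2 6 7 - B 1 3 * c 1 2 3 6 - B 1 4 * c 1 2 4 6 - B 1 5 * c 1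
    2 5 6 + B 1 7 * c 1 2 6 7 + B 3 4 * c 2 3 4 6 + B 3 5 * c 2 3 5 6 - B 3 7 * c 2 3 6 7 + B 4 5
    * c 2 4 5 6 - B 4 7 * c 2 4 6 7 - B 5 7 * c 2 5 6 7) := by
  rw [sum28 (fun r s => B r s * c 2 6 r s) (fun r s => by rw [hB r s, hc.s3 2 6 r s]; ring)
    (fun r => by rw [hc.z3, mul_zero])]
  have e0 : c 2 6 0 1 = c 0 1 2 6 := by
    rw [hc.s2 2 0 6 1, hc.s1 0 2 6 1, hc.s3 0 2 1 6, hc.s2 0 1 2 6, neg_neg, neg_neg]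
  have e1 : c 2 6 0 3 = - c 0 2 3 6 := by
    rw [hc.s2 2 0 6 3, hc.s1 0 2 6 3, hc.s3 0 2 3 6, neg_neg]
  have e2 : c 2 6 0 4 = - c 0 2 4 6 := by
    rw [hc.s2 2 0 6 4, hc.s1 0 2 6 4, hc.s3 0 2 4 6, neg_neg]
  have e3 : c 2 6 0 5 = - c 0 2 5 6 := by
    rw [hc.s2 2 0 6 5, hc.s1 0 2 6 5, hc.s3 0 2 5 6, neg_neg]
  have e4 : c 2 6 0 7 = c 0 2 6 7 := by
    rw [hc.s2 2 0 6 7, hc.s1 0 2 6 7, neg_neg]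
  have e5 : c 2 6 1 3 = - c 1 2 3 6 := by
    rw [hc.s2 2 1 6 3, hc.s1 1 2 6 3, hc.s3 1 2 3 6, neg_neg]
  have e6 : c 2 6 1 4 = - c 1 2 4 6 := by
    rw [hc.s2 2 1 6 4, hc.s1 1 2 6 4, hc.s3 1 2 4 6, neg_neg]
  have e7 : c 2 6 1 5 = - c 1 2 5 6 := by
    rw [hc.s2 2 1 6 5, hc.s1 1 2 6 5, hc.s3 1 2 5 6, neg_neg]
  have e8 : c 2 6 1 7 = c 1 2 6 7 := by
    rw [hc.s2 2 1 6 7, hc.s1 1 2 6 7, neg_neg]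
  have e9 : c 2 6 3 4 = c 2 3 4 6 := by
    rw [hc.s2 2 3 6 4, hc.s3 2 3 4 6, neg_neg]
  have e10 : c 2 6 3 5 = c 2 3 5 6 := by
    rw [hc.s2 2 3 6 5, hc.s3 2 3 5 6, neg_neg]
  have e11 : c 2 6 3 7 = - c 2 3 6 7 := by
    rw [hc.s2 2 3 6 7]
  have e12 : c 2 6 4 5 = c 2 4 5 6 := by
    rw [hc.s2 2 4 6 5, hc.s3 2 4 5 6, neg_neg]
  have e13 : c 2 6 4 7 = - c 2 4 6 7 := by
    rw [hc.s2 2 4 6 7]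
  have e14 : c 2 6 5 7 = - c 2 5 6 7 := by
    rw [hc.s2 2 5 6 7]
  simp only [hc.z13, hc.z24, hc.z14, hc.z2, e0, e1, e2, e3, e4, e5, e6, e7, e8, e9, e10, e11, e12, e13, e14]
  ring

theorem inner_27 (B : Fin 8 → Fin 8 → ℂ) (hB : ∀ p q, B q p = - B p q) (hc : Alt4 c) :
    ∑ r, ∑ s, B r s * c 2 7 r s = 2 * (B 0 1 * c 0 1 2 7 - B 0 3 * c 0 2 3 7 - B 0 4 * c 0 2 4 7
    - B 0 5 * c 0 2 5 7 - B 0 6 * c 0 2 6 7 - B 1 3 * c 1 2 3 7 - B 1 4 * c 1 2 4 7 - B 1 5 * c 1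
    2 5 7 - B 1 6 * c 1 2 6 7 + B 3 4 * c 2 3 4 7 + B 3 5 * c 2 3 5 7 + B 3 6 * c 2 3 6 7 + B 4 5
    * c 2 4 5 7 + B 4 6 * c 2 4 6 7 + B 5 6 * c 2 5 6 7) := by
  rw [sum28 (fun r s => B r s * c 2 7 r s) (fun r s => by rw [hB r s, hc.s3 2 7 r s]; ring)
    (fun r => by rw [hc.z3, mul_zero])]
  have e0 : c 2 7 0 1 = c 0 1 2 7 := by
    rw [hc.s2 2 0 7 1, hc.s1 0 2 7 1, hc.s3 0 2 1 7, hc.s2 0 1 2 7, neg_neg, neg_neg]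
  have e1 : c 2 7 0 3 = - c 0 2 3 7 := by
    rw [hc.s2 2 0 7 3, hc.s1 0 2 7 3, hc.s3 0 2 3 7, neg_neg]
  have e2 : c 2 7 0 4 = - c 0 2 4 7 := by
    rw [hc.s2 2 0 7 4, hc.s1 0 2 7 4, hc.s3 0 2 4 7, neg_neg]
  have e3 : c 2 7 0 5 = - c 0 2 5 7 := by
    rw [hc.s2 2 0 7 5, hc.s1 0 2 7 5, hc.s3 0 2 5 7, neg_neg]
  have e4 : c 2 7 0 6 = - c 0 2 6 7 := by
    rw [hc.s2 2 0 7 6, hc.s1 0 2 7 6, hc.s3 0 2 6 7, neg_neg]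
  have e5 : c 2 7 1 3 = - c 1 2 3 7 := by
    rw [hc.s2 2 1 7 3, hc.s1 1 2 7 3, hc.s3 1 2 3 7, neg_neg]
  have e6 : c 2 7 1 4 = - c 1 2 4 7 := by
    rw [hc.s2 2 1 7 4, hc.s1 1 2 7 4, hc.s3 1 2 4 7, neg_neg]
  have e7 : c 2 7 1 5 = - c 1 2 5 7 := by
    rw [hc.s2 2 1 7 5, hc.s1 1 2 7 5, hc.s3 1 2 5 7, neg_neg]
  have e8 : c 2 7 1 6 = - c 1 2 6 7 := by
    rw [hc.s2 2 1 7 6, hc.s1 1 2 7 6, hc.s3 1 2 6 7, neg_neg]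
  have e9 : c 2 7 3 4 = c 2 3 4 7 := by
    rw [hc.s2 2 3 7 4, hc.s3 2 3 4 7, neg_neg]
  have e10 : c 2 7 3 5 = c 2 3 5 7 := by
    rw [hc.s2 2 3 7 5, hc.s3 2 3 5 7, neg_neg]
  have e11 : c 2 7 3 6 = c 2 3 6 7 := by
    rw [hc.s2 2 3 7 6, hc.s3 2 3 6 7, neg_neg]
  have e12 : c 2 7 4 5 = c 2 4 5 7 := by
    rw [hc.s2 2 4 7 5, hc.s3 2 4 5 7, neg_neg]
  have e13 : c 2 7 4 6 = c 2 4 6 7 := by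
    rw [hc.s2 2 4 7 6, hc.s3 2 4 6 7, neg_neg]
  have e14 : c 2 7 5 6 = c 2 5 6 7 := by
    rw [hc.s2 2 5 7 6, hc.s3 2 5 6 7, neg_neg]
  simp only [hc.z13, hc.z24, hc.z14, hc.z2, e0, e1, e2, e3, e4, e5, e6, e7, e8, e9, e10, e11, e12, e13, e14]
  ring

theorem inner_34 (B : Fin 8 → Fin 8 → ℂ) (hB : ∀ p q, B q p = - B p q) (hc : Alt4 c) :
    ∑ r, ∑ s, B r s * c 3 4 r s = 2 * (B 0 1 * c 0 1 3 4 + B 0 2 * c 0 2 3 4 + B 0 5 * c 0 3 4 5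
    + B 0 6 * c 0 3 4 6 + B 0 7 * c 0 3 4 7 + B 1 2 * c 1 2 3 4 + B 1 5 * c 1 3 4 5 + B 1 6 * c 1
    3 4 6 + B 1 7 * c 1 3 4 7 + B 2 5 * c 2 3 4 5 + B 2 6 * c 2 3 4 6 + B 2 7 * c 2 3 4 7 + B 5 6
    * c 3 4 5 6 + B 5 7 * c 3 4 5 7 + B 6 7 * c 3 4 6 7) := by
  rw [sum28 (fun r s => B r s * c 3 4 r s) (fun r s => by rw [hB r s, hc.s3 3 4 r s]; ring)
    (fun r => by rw [hc.z3, mul_zero])]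
  have e0 : c 3 4 0 1 = c 0 1 3 4 := by
    rw [hc.s2 3 0 4 1, hc.s1 0 3 4 1, hc.s3 0 3 1 4, hc.s2 0 1 3 4, neg_neg, neg_neg]
  have e1 : c 3 4 0 2 = c 0 2 3 4 := by
    rw [hc.s2 3 0 4 2, hc.s1 0 3 4 2, hc.s3 0 3 2 4, hc.s2 0 2 3 4, neg_neg, neg_neg]
  have e2 : c 3 4 0 5 = c 0 3 4 5 := by
    rw [hc.s2 3 0 4 5, hc.s1 0 3 4 5, neg_neg]
  have e3 : c 3 4 0 6 = c 0 3 4 6 := by
    rw [hc.s2 3 0 4 6, hc.s1 0 3 4 6, neg_neg]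
  have e4 : c 3 4 0 7 = c 0 3 4 7 := by
    rw [hc.s2 3 0 4 7, hc.s1 0 3 4 7, neg_neg]
  have e5 : c 3 4 1 2 = c 1 2 3 4 := by
    rw [hc.s2 3 1 4 2, hc.s1 1 3 4 2, hc.s3 1 3 2 4, hc.s2 1 2 3 4, neg_neg, neg_neg]
  have e6 : c 3 4 1 5 = c 1 3 4 5 := by
    rw [hc.s2 3 1 4 5, hc.s1 1 3 4 5, neg_neg]
  have e7 : c 3 4 1 6 = c 1 3 4 6 := by
    rw [hc.s2 3 1 4 6, hc.s1 1 3 4 6, neg_neg]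
  have e8 : c 3 4 1 7 = c 1 3 4 7 := by
    rw [hc.s2 3 1 4 7, hc.s1 1 3 4 7, neg_neg]
  have e9 : c 3 4 2 5 = c 2 3 4 5 := by
    rw [hc.s2 3 2 4 5, hc.s1 2 3 4 5, neg_neg]
  have e10 : c 3 4 2 6 = c 2 3 4 6 := by
    rw [hc.s2 3 2 4 6, hc.s1 2 3 4 6, neg_neg]
  have e11 : c 3 4 2 7 = c 2 3 4 7 := by
    rw [hc.s2 3 2 4 7, hc.s1 2 3 4 7, neg_neg]
  simp only [hc.z13, hc.z24, hc.z14, hc.z2, e0, e1, e2, e3, e4, e5, e6, e7, e8, e9, e10, e11]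
  ring

theorem inner_35 (B : Fin 8 → Fin 8 → ℂ) (hB : ∀ p q, B q p = - B p q) (hc : Alt4 c) :
    ∑ r, ∑ s, B r s * c 3 5 r s = 2 * (B 0 1 * c 0 1 3 5 + B 0 2 * c 0 2 3 5 - B 0 4 * c 0 3 4 5
    + B 0 6 * c 0 3 5 6 + B 0 7 * c 0 3 5 7 + B 1 2 * c 1 2 3 5 - B 1 4 * c 1 3 4 5 + B 1 6 * c 1
    3 5 6 + B 1 7 * c 1 3 5 7 - B 2 4 * c 2 3 4 5 + B 2 6 * c 2 3 5 6 + B 2 7 * c 2 3 5 7 - B 4 6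
    * c 3 4 5 6 - B 4 7 * c 3 4 5 7 + B 6 7 * c 3 5 6 7) := by
  rw [sum28 (fun r s => B r s * c 3 5 r s) (fun r s => by rw [hB r s, hc.s3 3 5 r s]; ring)
    (fun r => by rw [hc.z3, mul_zero])]
  have e0 : c 3 5 0 1 = c 0 1 3 5 := by
    rw [hc.s2 3 0 5 1, hc.s1 0 3 5 1, hc.s3 0 3 1 5, hc.s2 0 1 3 5, neg_neg, neg_neg]
  have e1 : c 3 5 0 2 = c 0 2 3 5 := by
    rw [hc.s2 3 0 5 2, hc.s1 0 3 5 2, hc.s3 0 3 2 5, hc.s2 0 2 3 5, neg_neg, neg_neg]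
  have e2 : c 3 5 0 4 = - c 0 3 4 5 := by
    rw [hc.s2 3 0 5 4, hc.s1 0 3 5 4, hc.s3 0 3 4 5, neg_neg]
  have e3 : c 3 5 0 6 = c 0 3 5 6 := by
    rw [hc.s2 3 0 5 6, hc.s1 0 3 5 6, neg_neg]
  have e4 : c 3 5 0 7 = c 0 3 5 7 := by
    rw [hc.s2 3 0 5 7, hc.s1 0 3 5 7, neg_neg]
  have e5 : c 3 5 1 2 = c 1 2 3 5 := by
    rw [hc.s2 3 1 5 2, hc.s1 1 3 5 2, hc.s3 1 3 2 5, hc.s2 1 2 3 5, neg_neg, neg_neg]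
  have e6 : c 3 5 1 4 = - c 1 3 4 5 := by
    rw [hc.s2 3 1 5 4, hc.s1 1 3 5 4, hc.s3 1 3 4 5, neg_neg]
  have e7 : c 3 5 1 6 = c 1 3 5 6 := by
    rw [hc.s2 3 1 5 6, hc.s1 1 3 5 6, neg_neg]
  have e8 : c 3 5 1 7 = c 1 3 5 7 := by
    rw [hc.s2 3 1 5 7, hc.s1 1 3 5 7, neg_neg]
  have e9 : c 3 5 2 4 = - c 2 3 4 5 := by
    rw [hc.s2 3 2 5 4, hc.s1 2 3 5 4, hc.s3 2 3 4 5, neg_neg]
  have e10 : c 3 5 2 6 = c 2 3 5 6 := by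
    rw [hc.s2 3 2 5 6, hc.s1 2 3 5 6, neg_neg]
  have e11 : c 3 5 2 7 = c 2 3 5 7 := by
    rw [hc.s2 3 2 5 7, hc.s1 2 3 5 7, neg_neg]
  have e12 : c 3 5 4 6 = - c 3 4 5 6 := by
    rw [hc.s2 3 4 5 6]
  have e13 : c 3 5 4 7 = - c 3 4 5 7 := by
    rw [hc.s2 3 4 5 7]
  simp only [hc.z13, hc.z24, hc.z14, hc.z2, e0, e1, e2, e3, e4, e5, e6, e7, e8, e9, e10, e11, e12, e13]
  ring

theorem inner_36 (B : Fin 8 → Fin 8 → ℂ) (hB : ∀ p q, B q p = - B p q) (hc : Alt4 c) :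
    ∑ r, ∑ s, B r s * c 3 6 r s = 2 * (B 0 1 * c 0 1 3 6 + B 0 2 * c 0 2 3 6 - B 0 4 * c 0 3 4 6
    - B 0 5 * c 0 3 5 6 + B 0 7 * c 0 3 6 7 + B 1 2 * c 1 2 3 6 - B 1 4 * c 1 3 4 6 - B 1 5 * c 1
    3 5 6 + B 1 7 * c 1 3 6 7 - B 2 4 * c 2 3 4 6 - B 2 5 * c 2 3 5 6 + B 2 7 * c 2 3 6 7 + B 4 5
    * c 3 4 5 6 - B 4 7 * c 3 4 6 7 - B 5 7 * c 3 5 6 7) := by
  rw [sum28 (fun r s => B r s * c 3 6 r s) (fun r s => by rw [hB r s, hc.s3 3 6 r s]; ring)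
    (fun r => by rw [hc.z3, mul_zero])]
  have e0 : c 3 6 0 1 = c 0 1 3 6 := by
    rw [hc.s2 3 0 6 1, hc.s1 0 3 6 1, hc.s3 0 3 1 6, hc.s2 0 1 3 6, neg_neg, neg_neg]
  have e1 : c 3 6 0 2 = c 0 2 3 6 := by
    rw [hc.s2 3 0 6 2, hc.s1 0 3 6 2, hc.s3 0 3 2 6, hc.s2 0 2 3 6, neg_neg, neg_neg]
  have e2 : c 3 6 0 4 = - c 0 3 4 6 := by
    rw [hc.s2 3 0 6 4, hc.s1 0 3 6 4, hc.s3 0 3 4 6, neg_neg]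
  have e3 : c 3 6 0 5 = - c 0 3 5 6 := by
    rw [hc.s2 3 0 6 5, hc.s1 0 3 6 5, hc.s3 0 3 5 6, neg_neg]
  have e4 : c 3 6 0 7 = c 0 3 6 7 := by
    rw [hc.s2 3 0 6 7, hc.s1 0 3 6 7, neg_neg]
  have e5 : c 3 6 1 2 = c 1 2 3 6 := by
    rw [hc.s2 3 1 6 2, hc.s1 1 3 6 2, hc.s3 1 3 2 6, hc.s2 1 2 3 6, neg_neg, neg_neg]
  have e6 : c 3 6 1 4 = - c 1 3 4 6 := by
    rw [hc.s2 3 1 6 4, hc.s1 1 3 6 4, hc.s3 1 3 4 6, neg_neg]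
  have e7 : c 3 6 1 5 = - c 1 3 5 6 := by
    rw [hc.s2 3 1 6 5, hc.s1 1 3 6 5, hc.s3 1 3 5 6, neg_neg]
  have e8 : c 3 6 1 7 = c 1 3 6 7 := by
    rw [hc.s2 3 1 6 7, hc.s1 1 3 6 7, neg_neg]
  have e9 : c 3 6 2 4 = - c 2 3 4 6 := by
    rw [hc.s2 3 2 6 4, hc.s1 2 3 6 4, hc.s3 2 3 4 6, neg_neg]
  have e10 : c 3 6 2 5 = - c 2 3 5 6 := by
    rw [hc.s2 3 2 6 5, hc.s1 2 3 6 5, hc.s3 2 3 5 6, neg_neg]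
  have e11 : c 3 6 2 7 = c 2 3 6 7 := by
    rw [hc.s2 3 2 6 7, hc.s1 2 3 6 7, neg_neg]
  have e12 : c 3 6 4 5 = c 3 4 5 6 := by
    rw [hc.s2 3 4 6 5, hc.s3 3 4 5 6, neg_neg]
  have e13 : c 3 6 4 7 = - c 3 4 6 7 := by
    rw [hc.s2 3 4 6 7]
  have e14 : c 3 6 5 7 = - c 3 5 6 7 := by
    rw [hc.s2 3 5 6 7]
  simp only [hc.z13, hc.z24, hc.z14, hc.z2, e0, e1, e2, e3, e4, e5, e6, e7, e8, e9, e10, e11, e12, e13, e14]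
  ring

theorem inner_37 (B : Fin 8 → Fin 8 → ℂ) (hB : ∀ p q, B q p = - B p q) (hc : Alt4 c) :
    ∑ r, ∑ s, B r s * c 3 7 r s = 2 * (B 0 1 * c 0 1 3 7 + B 0 2 * c 0 2 3 7 - B 0 4 * c 0 3 4 7
    - B 0 5 * c 0 3 5 7 - B 0 6 * c 0 3 6 7 + B 1 2 * c 1 2 3 7 - B 1 4 * c 1 3 4 7 - B 1 5 * c 1
    3 5 7 - B 1 6 * c 1 3 6 7 - B 2 4 * c 2 3 4 7 - B 2 5 * c 2 3 5 7 - B 2 6 * c 2 3 6 7 + B 4 5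
    * c 3 4 5 7 + B 4 6 * c 3 4 6 7 + B 5 6 * c 3 5 6 7) := by
  rw [sum28 (fun r s => B r s * c 3 7 r s) (fun r s => by rw [hB r s, hc.s3 3 7 r s]; ring)
    (fun r => by rw [hc.z3, mul_zero])]
  have e0 : c 3 7 0 1 = c 0 1 3 7 := by
    rw [hc.s2 3 0 7 1, hc.s1 0 3 7 1, hc.s3 0 3 1 7, hc.s2 0 1 3 7, neg_neg, neg_neg]
  have e1 : c 3 7 0 2 = c 0 2 3 7 := by
    rw [hc.s2 3 0 7 2, hc.s1 0 3 7 2, hc.s3 0 3 2 7, hc.s2 0 2 3 7, neg_neg, neg_neg]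
  have e2 : c 3 7 0 4 = - c 0 3 4 7 := by
    rw [hc.s2 3 0 7 4, hc.s1 0 3 7 4, hc.s3 0 3 4 7, neg_neg]
  have e3 : c 3 7 0 5 = - c 0 3 5 7 := by
    rw [hc.s2 3 0 7 5, hc.s1 0 3 7 5, hc.s3 0 3 5 7, neg_neg]
  have e4 : c 3 7 0 6 = - c 0 3 6 7 := by
    rw [hc.s2 3 0 7 6, hc.s1 0 3 7 6, hc.s3 0 3 6 7, neg_neg]
  have e5 : c 3 7 1 2 = c 1 2 3 7 := by
    rw [hc.s2 3 1 7 2, hc.s1 1 3 7 2, hc.s3 1 3 2 7, hc.s2 1 2 3 7, neg_neg, neg_neg]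
  have e6 : c 3 7 1 4 = - c 1 3 4 7 := by
    rw [hc.s2 3 1 7 4, hc.s1 1 3 7 4, hc.s3 1 3 4 7, neg_neg]
  have e7 : c 3 7 1 5 = - c 1 3 5 7 := by
    rw [hc.s2 3 1 7 5, hc.s1 1 3 7 5, hc.s3 1 3 5 7, neg_neg]
  have e8 : c 3 7 1 6 = - c 1 3 6 7 := by
    rw [hc.s2 3 1 7 6, hc.s1 1 3 7 6, hc.s3 1 3 6 7, neg_neg]
  have e9 : c 3 7 2 4 = - c 2 3 4 7 := by
    rw [hc.s2 3 2 7 4, hc.s1 2 3 7 4, hc.s3 2 3 4 7, neg_neg]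
  have e10 : c 3 7 2 5 = - c 2 3 5 7 := by
    rw [hc.s2 3 2 7 5, hc.s1 2 3 7 5, hc.s3 2 3 5 7, neg_neg]
  have e11 : c 3 7 2 6 = - c 2 3 6 7 := by
    rw [hc.s2 3 2 7 6, hc.s1 2 3 7 6, hc.s3 2 3 6 7, neg_neg]
  have e12 : c 3 7 4 5 = c 3 4 5 7 := by
    rw [hc.s2 3 4 7 5, hc.s3 3 4 5 7, neg_neg]
  have e13 : c 3 7 4 6 = c 3 4 6 7 := by
    rw [hc.s2 3 4 7 6, hc.s3 3 4 6 7, neg_neg]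
  have e14 : c 3 7 5 6 = c 3 5 6 7 := by
    rw [hc.s2 3 5 7 6, hc.s3 3 5 6 7, neg_neg]
  simp only [hc.z13, hc.z24, hc.z14, hc.z2, e0, e1, e2, e3, e4, e5, e6, e7, e8, e9, e10, e11, e12, e13, e14]
  ring

theorem inner_45 (B : Fin 8 → Fin 8 → ℂ) (hB : ∀ p q, B q p = - B p q) (hc : Alt4 c) :
    ∑ r, ∑ s, B r s * c 4 5 r s = 2 * (B 0 1 * c 0 1 4 5 + B 0 2 * c 0 2 4 5 + B 0 3 * c 0 3 4 5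
    + B 0 6 * c 0 4 5 6 + B 0 7 * c 0 4 5 7 + B 1 2 * c 1 2 4 5 + B 1 3 * c 1 3 4 5 + B 1 6 * c 1
    4 5 6 + B 1 7 * c 1 4 5 7 + B 2 3 * c 2 3 4 5 + B 2 6 * c 2 4 5 6 + B 2 7 * c 2 4 5 7 + B 3 6
    * c 3 4 5 6 + B 3 7 * c 3 4 5 7 + B 6 7 * c 4 5 6 7) := by
  rw [sum28 (fun r s => B r s * c 4 5 r s) (fun r s => by rw [hB r s, hc.s3 4 5 r s]; ring)
    (fun r => by rw [hc.z3, mul_zero])]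
  have e0 : c 4 5 0 1 = c 0 1 4 5 := by
    rw [hc.s2 4 0 5 1, hc.s1 0 4 5 1, hc.s3 0 4 1 5, hc.s2 0 1 4 5, neg_neg, neg_neg]
  have e1 : c 4 5 0 2 = c 0 2 4 5 := by
    rw [hc.s2 4 0 5 2, hc.s1 0 4 5 2, hc.s3 0 4 2 5, hc.s2 0 2 4 5, neg_neg, neg_neg]
  have e2 : c 4 5 0 3 = c 0 3 4 5 := by
    rw [hc.s2 4 0 5 3, hc.s1 0 4 5 3, hc.s3 0 4 3 5, hc.s2 0 3 4 5, neg_neg, neg_neg]
  have e3 : c 4 5 0 6 = c 0 4 5 6 := by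
    rw [hc.s2 4 0 5 6, hc.s1 0 4 5 6, neg_neg]
  have e4 : c 4 5 0 7 = c 0 4 5 7 := by
    rw [hc.s2 4 0 5 7, hc.s1 0 4 5 7, neg_neg]
  have e5 : c 4 5 1 2 = c 1 2 4 5 := by
    rw [hc.s2 4 1 5 2, hc.s1 1 4 5 2, hc.s3 1 4 2 5, hc.s2 1 2 4 5, neg_neg, neg_neg]
  have e6 : c 4 5 1 3 = c 1 3 4 5 := by
    rw [hc.s2 4 1 5 3, hc.s1 1 4 5 3, hc.s3 1 4 3 5, hc.s2 1 3 4 5, neg_neg, neg_neg]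
  have e7 : c 4 5 1 6 = c 1 4 5 6 := by
    rw [hc.s2 4 1 5 6, hc.s1 1 4 5 6, neg_neg]
  have e8 : c 4 5 1 7 = c 1 4 5 7 := by
    rw [hc.s2 4 1 5 7, hc.s1 1 4 5 7, neg_neg]
  have e9 : c 4 5 2 3 = c 2 3 4 5 := by
    rw [hc.s2 4 2 5 3, hc.s1 2 4 5 3, hc.s3 2 4 3 5, hc.s2 2 3 4 5, neg_neg, neg_neg]
  have e10 : c 4 5 2 6 = c 2 4 5 6 := by
    rw [hc.s2 4 2 5 6, hc.s1 2 4 5 6, neg_neg]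
  have e11 : c 4 5 2 7 = c 2 4 5 7 := by
    rw [hc.s2 4 2 5 7, hc.s1 2 4 5 7, neg_neg]
  have e12 : c 4 5 3 6 = c 3 4 5 6 := by
    rw [hc.s2 4 3 5 6, hc.s1 3 4 5 6, neg_neg]
  have e13 : c 4 5 3 7 = c 3 4 5 7 := by
    rw [hc.s2 4 3 5 7, hc.s1 3 4 5 7, neg_neg]
  simp only [hc.z13, hc.z24, hc.z14, hc.z2, e0, e1, e2, e3, e4, e5, e6, e7, e8, e9, e10, e11, e12, e13]
  ring

theorem inner_46 (B : Fin 8 → Fin 8 → ℂ) (hB : ∀ p q, B q p = - B p q) (hc : Alt4 c) :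
    ∑ r, ∑ s, B r s * c 4 6 r s = 2 * (B 0 1 * c 0 1 4 6 + B 0 2 * c 0 2 4 6 + B 0 3 * c 0 3 4 6
    - B 0 5 * c 0 4 5 6 + B 0 7 * c 0 4 6 7 + B 1 2 * c 1 2 4 6 + B 1 3 * c 1 3 4 6 - B 1 5 * c 1
    4 5 6 + B 1 7 * c 1 4 6 7 + B 2 3 * c 2 3 4 6 - B 2 5 * c 2 4 5 6 + B 2 7 * c 2 4 6 7 - B 3 5
    * c 3 4 5 6 + B 3 7 * c 3 4 6 7 - B 5 7 * c 4 5 6 7) := by
  rw [sum28 (fun r s => B r s * c 4 6 r s) (fun r s => by rw [hB r s, hc.s3 4 6 r s]; ring)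
    (fun r => by rw [hc.z3, mul_zero])]
  have e0 : c 4 6 0 1 = c 0 1 4 6 := by
    rw [hc.s2 4 0 6 1, hc.s1 0 4 6 1, hc.s3 0 4 1 6, hc.s2 0 1 4 6, neg_neg, neg_neg]
  have e1 : c 4 6 0 2 = c 0 2 4 6 := by
    rw [hc.s2 4 0 6 2, hc.s1 0 4 6 2, hc.s3 0 4 2 6, hc.s2 0 2 4 6, neg_neg, neg_neg]
  have e2 : c 4 6 0 3 = c 0 3 4 6 := by
    rw [hc.s2 4 0 6 3, hc.s1 0 4 6 3, hc.s3 0 4 3 6, hc.s2 0 3 4 6, neg_neg, neg_neg]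
  have e3 : c 4 6 0 5 = - c 0 4 5 6 := by
    rw [hc.s2 4 0 6 5, hc.s1 0 4 6 5, hc.s3 0 4 5 6, neg_neg]
  have e4 : c 4 6 0 7 = c 0 4 6 7 := by
    rw [hc.s2 4 0 6 7, hc.s1 0 4 6 7, neg_neg]
  have e5 : c 4 6 1 2 = c 1 2 4 6 := by
    rw [hc.s2 4 1 6 2, hc.s1 1 4 6 2, hc.s3 1 4 2 6, hc.s2 1 2 4 6, neg_neg, neg_neg]
  have e6 : c 4 6 1 3 = c 1 3 4 6 := by
    rw [hc.s2 4 1 6 3, hc.s1 1 4 6 3, hc.s3 1 4 3 6, hc.s2 1 3 4 6, neg_neg, neg_neg]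
  have e7 : c 4 6 1 5 = - c 1 4 5 6 := by
    rw [hc.s2 4 1 6 5, hc.s1 1 4 6 5, hc.s3 1 4 5 6, neg_neg]
  have e8 : c 4 6 1 7 = c 1 4 6 7 := by
    rw [hc.s2 4 1 6 7, hc.s1 1 4 6 7, neg_neg]
  have e9 : c 4 6 2 3 = c 2 3 4 6 := by
    rw [hc.s2 4 2 6 3, hc.s1 2 4 6 3, hc.s3 2 4 3 6, hc.s2 2 3 4 6, neg_neg, neg_neg]
  have e10 : c 4 6 2 5 = - c 2 4 5 6 := by
    rw [hc.s2 4 2 6 5, hc.s1 2 4 6 5, hc.s3 2 4 5 6, neg_neg]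
  have e11 : c 4 6 2 7 = c 2 4 6 7 := by
    rw [hc.s2 4 2 6 7, hc.s1 2 4 6 7, neg_neg]
  have e12 : c 4 6 3 5 = - c 3 4 5 6 := by
    rw [hc.s2 4 3 6 5, hc.s1 3 4 6 5, hc.s3 3 4 5 6, neg_neg]
  have e13 : c 4 6 3 7 = c 3 4 6 7 := by
    rw [hc.s2 4 3 6 7, hc.s1 3 4 6 7, neg_neg]
  have e14 : c 4 6 5 7 = - c 4 5 6 7 := by
    rw [hc.s2 4 5 6 7]
  simp only [hc.z13, hc.z24, hc.z14, hc.z2, e0, e1, e2, e3, e4, e5, e6, e7, e8, e9, e10, e11, e12, e13, e14]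
  ring

theorem inner_47 (B : Fin 8 → Fin 8 → ℂ) (hB : ∀ p q, B q p = - B p q) (hc : Alt4 c) :
    ∑ r, ∑ s, B r s * c 4 7 r s = 2 * (B 0 1 * c 0 1 4 7 + B 0 2 * c 0 2 4 7 + B 0 3 * c 0 3 4 7
    - B 0 5 * c 0 4 5 7 - B 0 6 * c 0 4 6 7 + B 1 2 * c 1 2 4 7 + B 1 3 * c 1 3 4 7 - B 1 5 * c 1
    4 5 7 - B 1 6 * c 1 4 6 7 + B 2 3 * c 2 3 4 7 - B 2 5 * c 2 4 5 7 - B 2 6 * c 2 4 6 7 - B 3 5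
    * c 3 4 5 7 - B 3 6 * c 3 4 6 7 + B 5 6 * c 4 5 6 7) := by
  rw [sum28 (fun r s => B r s * c 4 7 r s) (fun r s => by rw [hB r s, hc.s3 4 7 r s]; ring)
    (fun r => by rw [hc.z3, mul_zero])]
  have e0 : c 4 7 0 1 = c 0 1 4 7 := by
    rw [hc.s2 4 0 7 1, hc.s1 0 4 7 1, hc.s3 0 4 1 7, hc.s2 0 1 4 7, neg_neg, neg_neg]
  have e1 : c 4 7 0 2 = c 0 2 4 7 := by
    rw [hc.s2 4 0 7 2, hc.s1 0 4 7 2, hc.s3 0 4 2 7, hc.s2 0 2 4 7, neg_neg, neg_neg]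
  have e2 : c 4 7 0 3 = c 0 3 4 7 := by
    rw [hc.s2 4 0 7 3, hc.s1 0 4 7 3, hc.s3 0 4 3 7, hc.s2 0 3 4 7, neg_neg, neg_neg]
  have e3 : c 4 7 0 5 = - c 0 4 5 7 := by
    rw [hc.s2 4 0 7 5, hc.s1 0 4 7 5, hc.s3 0 4 5 7, neg_neg]
  have e4 : c 4 7 0 6 = - c 0 4 6 7 := by
    rw [hc.s2 4 0 7 6, hc.s1 0 4 7 6, hc.s3 0 4 6 7, neg_neg]
  have e5 : c 4 7 1 2 = c 1 2 4 7 := by
    rw [hc.s2 4 1 7 2, hc.s1 1 4 7 2, hc.s3 1 4 2 7, hc.s2 1 2 4 7, neg_neg, neg_neg]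
  have e6 : c 4 7 1 3 = c 1 3 4 7 := by
    rw [hc.s2 4 1 7 3, hc.s1 1 4 7 3, hc.s3 1 4 3 7, hc.s2 1 3 4 7, neg_neg, neg_neg]
  have e7 : c 4 7 1 5 = - c 1 4 5 7 := by
    rw [hc.s2 4 1 7 5, hc.s1 1 4 7 5, hc.s3 1 4 5 7, neg_neg]
  have e8 : c 4 7 1 6 = - c 1 4 6 7 := by
    rw [hc.s2 4 1 7 6, hc.s1 1 4 7 6, hc.s3 1 4 6 7, neg_neg]
  have e9 : c 4 7 2 3 = c 2 3 4 7 := by
    rw [hc.s2 4 2 7 3, hc.s1 2 4 7 3, hc.s3 2 4 3 7, hc.s2 2 3 4 7, neg_neg, neg_neg]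
  have e10 : c 4 7 2 5 = - c 2 4 5 7 := by
    rw [hc.s2 4 2 7 5, hc.s1 2 4 7 5, hc.s3 2 4 5 7, neg_neg]
  have e11 : c 4 7 2 6 = - c 2 4 6 7 := by
    rw [hc.s2 4 2 7 6, hc.s1 2 4 7 6, hc.s3 2 4 6 7, neg_neg]
  have e12 : c 4 7 3 5 = - c 3 4 5 7 := by
    rw [hc.s2 4 3 7 5, hc.s1 3 4 7 5, hc.s3 3 4 5 7, neg_neg]
  have e13 : c 4 7 3 6 = - c 3 4 6 7 := by
    rw [hc.s2 4 3 7 6, hc.s1 3 4 7 6, hc.s3 3 4 6 7, neg_neg]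
  have e14 : c 4 7 5 6 = c 4 5 6 7 := by
    rw [hc.s2 4 5 7 6, hc.s3 4 5 6 7, neg_neg]
  simp only [hc.z13, hc.z24, hc.z14, hc.z2, e0, e1, e2, e3, e4, e5, e6, e7, e8, e9, e10, e11, e12, e13, e14]
  ring

theorem inner_56 (B : Fin 8 → Fin 8 → ℂ) (hB : ∀ p q, B q p = - B p q) (hc : Alt4 c) :
    ∑ r, ∑ s, B r s * c 5 6 r s = 2 * (B 0 1 * c 0 1 5 6 + B 0 2 * c 0 2 5 6 + B 0 3 * c 0 3 5 6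
    + B 0 4 * c 0 4 5 6 + B 0 7 * c 0 5 6 7 + B 1 2 * c 1 2 5 6 + B 1 3 * c 1 3 5 6 + B 1 4 * c 1
    4 5 6 + B 1 7 * c 1 5 6 7 + B 2 3 * c 2 3 5 6 + B 2 4 * c 2 4 5 6 + B 2 7 * c 2 5 6 7 + B 3 4
    * c 3 4 5 6 + B 3 7 * c 3 5 6 7 + B 4 7 * c 4 5 6 7) := by
  rw [sum28 (fun r s => B r s * c 5 6 r s) (fun r s => by rw [hB r s, hc.s3 5 6 r s]; ring)
    (fun r => by rw [hc.z3, mul_zero])]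
  have e0 : c 5 6 0 1 = c 0 1 5 6 := by
    rw [hc.s2 5 0 6 1, hc.s1 0 5 6 1, hc.s3 0 5 1 6, hc.s2 0 1 5 6, neg_neg, neg_neg]
  have e1 : c 5 6 0 2 = c 0 2 5 6 := by
    rw [hc.s2 5 0 6 2, hc.s1 0 5 6 2, hc.s3 0 5 2 6, hc.s2 0 2 5 6, neg_neg, neg_neg]
  have e2 : c 5 6 0 3 = c 0 3 5 6 := by
    rw [hc.s2 5 0 6 3, hc.s1 0 5 6 3, hc.s3 0 5 3 6, hc.s2 0 3 5 6, neg_neg, neg_neg]
  have e3 : c 5 6 0 4 = c 0 4 5 6 := by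
    rw [hc.s2 5 0 6 4, hc.s1 0 5 6 4, hc.s3 0 5 4 6, hc.s2 0 4 5 6, neg_neg, neg_neg]
  have e4 : c 5 6 0 7 = c 0 5 6 7 := by
    rw [hc.s2 5 0 6 7, hc.s1 0 5 6 7, neg_neg]
  have e5 : c 5 6 1 2 = c 1 2 5 6 := by
    rw [hc.s2 5 1 6 2, hc.s1 1 5 6 2, hc.s3 1 5 2 6, hc.s2 1 2 5 6, neg_neg, neg_neg]
  have e6 : c 5 6 1 3 = c 1 3 5 6 := by
    rw [hc.s2 5 1 6 3, hc.s1 1 5 6 3, hc.s3 1 5 3 6, hc.s2 1 3 5 6, neg_neg, neg_neg]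
  have e7 : c 5 6 1 4 = c 1 4 5 6 := by
    rw [hc.s2 5 1 6 4, hc.s1 1 5 6 4, hc.s3 1 5 4 6, hc.s2 1 4 5 6, neg_neg, neg_neg]
  have e8 : c 5 6 1 7 = c 1 5 6 7 := by
    rw [hc.s2 5 1 6 7, hc.s1 1 5 6 7, neg_neg]
  have e9 : c 5 6 2 3 = c 2 3 5 6 := by
    rw [hc.s2 5 2 6 3, hc.s1 2 5 6 3, hc.s3 2 5 3 6, hc.s2 2 3 5 6, neg_neg, neg_neg]
  have e10 : c 5 6 2 4 = c 2 4 5 6 := by
    rw [hc.s2 5 2 6 4, hc.s1 2 5 6 4, hc.s3 2 5 4 6, hc.s2 2 4 5 6, neg_neg, neg_neg]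
  have e11 : c 5 6 2 7 = c 2 5 6 7 := by
    rw [hc.s2 5 2 6 7, hc.s1 2 5 6 7, neg_neg]
  have e12 : c 5 6 3 4 = c 3 4 5 6 := by
    rw [hc.s2 5 3 6 4, hc.s1 3 5 6 4, hc.s3 3 5 4 6, hc.s2 3 4 5 6, neg_neg, neg_neg]
  have e13 : c 5 6 3 7 = c 3 5 6 7 := by
    rw [hc.s2 5 3 6 7, hc.s1 3 5 6 7, neg_neg]
  have e14 : c 5 6 4 7 = c 4 5 6 7 := by
    rw [hc.s2 5 4 6 7, hc.s1 4 5 6 7, neg_neg]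
  simp only [hc.z13, hc.z24, hc.z14, hc.z2, e0, e1, e2, e3, e4, e5, e6, e7, e8, e9, e10, e11, e12, e13, e14]
  ring

theorem inner_57 (B : Fin 8 → Fin 8 → ℂ) (hB : ∀ p q, B q p = - B p q) (hc : Alt4 c) :
    ∑ r, ∑ s, B r s * c 5 7 r s = 2 * (B 0 1 * c 0 1 5 7 + B 0 2 * c 0 2 5 7 + B 0 3 * c 0 3 5 7
    + B 0 4 * c 0 4 5 7 - B 0 6 * c 0 5 6 7 + B 1 2 * c 1 2 5 7 + B 1 3 * c 1 3 5 7 + B 1 4 * c 1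
    4 5 7 - B 1 6 * c 1 5 6 7 + B 2 3 * c 2 3 5 7 + B 2 4 * c 2 4 5 7 - B 2 6 * c 2 5 6 7 + B 3 4
    * c 3 4 5 7 - B 3 6 * c 3 5 6 7 - B 4 6 * c 4 5 6 7) := by
  rw [sum28 (fun r s => B r s * c 5 7 r s) (fun r s => by rw [hB r s, hc.s3 5 7 r s]; ring)
    (fun r => by rw [hc.z3, mul_zero])]
  have e0 : c 5 7 0 1 = c 0 1 5 7 := by
    rw [hc.s2 5 0 7 1, hc.s1 0 5 7 1, hc.s3 0 5 1 7, hc.s2 0 1 5 7, neg_neg, neg_neg]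
  have e1 : c 5 7 0 2 = c 0 2 5 7 := by
    rw [hc.s2 5 0 7 2, hc.s1 0 5 7 2, hc.s3 0 5 2 7, hc.s2 0 2 5 7, neg_neg, neg_neg]
  have e2 : c 5 7 0 3 = c 0 3 5 7 := by
    rw [hc.s2 5 0 7 3, hc.s1 0 5 7 3, hc.s3 0 5 3 7, hc.s2 0 3 5 7, neg_neg, neg_neg]
  have e3 : c 5 7 0 4 = c 0 4 5 7 := by
    rw [hc.s2 5 0 7 4, hc.s1 0 5 7 4, hc.s3 0 5 4 7, hc.s2 0 4 5 7, neg_neg, neg_neg]
  have e4 : c 5 7 0 6 = - c 0 5 6 7 := by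
    rw [hc.s2 5 0 7 6, hc.s1 0 5 7 6, hc.s3 0 5 6 7, neg_neg]
  have e5 : c 5 7 1 2 = c 1 2 5 7 := by
    rw [hc.s2 5 1 7 2, hc.s1 1 5 7 2, hc.s3 1 5 2 7, hc.s2 1 2 5 7, neg_neg, neg_neg]
  have e6 : c 5 7 1 3 = c 1 3 5 7 := by
    rw [hc.s2 5 1 7 3, hc.s1 1 5 7 3, hc.s3 1 5 3 7, hc.s2 1 3 5 7, neg_neg, neg_neg]
  have e7 : c 5 7 1 4 = c 1 4 5 7 := by
    rw [hc.s2 5 1 7 4, hc.s1 1 5 7 4, hc.s3 1 5 4 7, hc.s2 1 4 5 7, neg_neg, neg_neg]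
  have e8 : c 5 7 1 6 = - c 1 5 6 7 := by
    rw [hc.s2 5 1 7 6, hc.s1 1 5 7 6, hc.s3 1 5 6 7, neg_neg]
  have e9 : c 5 7 2 3 = c 2 3 5 7 := by
    rw [hc.s2 5 2 7 3, hc.s1 2 5 7 3, hc.s3 2 5 3 7, hc.s2 2 3 5 7, neg_neg, neg_neg]
  have e10 : c 5 7 2 4 = c 2 4 5 7 := by
    rw [hc.s2 5 2 7 4, hc.s1 2 5 7 4, hc.s3 2 5 4 7, hc.s2 2 4 5 7, neg_neg, neg_neg]
  have e11 : c 5 7 2 6 = - c 2 5 6 7 := by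
    rw [hc.s2 5 2 7 6, hc.s1 2 5 7 6, hc.s3 2 5 6 7, neg_neg]
  have e12 : c 5 7 3 4 = c 3 4 5 7 := by
    rw [hc.s2 5 3 7 4, hc.s1 3 5 7 4, hc.s3 3 5 4 7, hc.s2 3 4 5 7, neg_neg, neg_neg]
  have e13 : c 5 7 3 6 = - c 3 5 6 7 := by
    rw [hc.s2 5 3 7 6, hc.s1 3 5 7 6, hc.s3 3 5 6 7, neg_neg]
  have e14 : c 5 7 4 6 = - c 4 5 6 7 := by
    rw [hc.s2 5 4 7 6, hc.s1 4 5 7 6, hc.s3 4 5 6 7, neg_neg]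
  simp only [hc.z13, hc.z24, hc.z14, hc.z2, e0, e1, e2, e3, e4, e5, e6, e7, e8, e9, e10, e11, e12, e13, e14]
  ring

theorem inner_67 (B : Fin 8 → Fin 8 → ℂ) (hB : ∀ p q, B q p = - B p q) (hc : Alt4 c) :
    ∑ r, ∑ s, B r s * c 6 7 r s = 2 * (B 0 1 * c 0 1 6 7 + B 0 2 * c 0 2 6 7 + B 0 3 * c 0 3 6 7
    + B 0 4 * c 0 4 6 7 + B 0 5 * c 0 5 6 7 + B 1 2 * c 1 2 6 7 + B 1 3 * c 1 3 6 7 + B 1 4 * c 1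
    4 6 7 + B 1 5 * c 1 5 6 7 + B 2 3 * c 2 3 6 7 + B 2 4 * c 2 4 6 7 + B 2 5 * c 2 5 6 7 + B 3 4
    * c 3 4 6 7 + B 3 5 * c 3 5 6 7 + B 4 5 * c 4 5 6 7) := by
  rw [sum28 (fun r s => B r s * c 6 7 r s) (fun r s => by rw [hB r s, hc.s3 6 7 r s]; ring)
    (fun r => by rw [hc.z3, mul_zero])]
  have e0 : c 6 7 0 1 = c 0 1 6 7 := by
    rw [hc.s2 6 0 7 1, hc.s1 0 6 7 1, hc.s3 0 6 1 7, hc.s2 0 1 6 7, neg_neg, neg_neg]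
  have e1 : c 6 7 0 2 = c 0 2 6 7 := by
    rw [hc.s2 6 0 7 2, hc.s1 0 6 7 2, hc.s3 0 6 2 7, hc.s2 0 2 6 7, neg_neg, neg_neg]
  have e2 : c 6 7 0 3 = c 0 3 6 7 := by
    rw [hc.s2 6 0 7 3, hc.s1 0 6 7 3, hc.s3 0 6 3 7, hc.s2 0 3 6 7, neg_neg, neg_neg]
  have e3 : c 6 7 0 4 = c 0 4 6 7 := by
    rw [hc.s2 6 0 7 4, hc.s1 0 6 7 4, hc.s3 0 6 4 7, hc.s2 0 4 6 7, neg_neg, neg_neg]
  have e4 : c 6 7 0 5 = c 0 5 6 7 := by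
    rw [hc.s2 6 0 7 5, hc.s1 0 6 7 5, hc.s3 0 6 5 7, hc.s2 0 5 6 7, neg_neg, neg_neg]
  have e5 : c 6 7 1 2 = c 1 2 6 7 := by
    rw [hc.s2 6 1 7 2, hc.s1 1 6 7 2, hc.s3 1 6 2 7, hc.s2 1 2 6 7, neg_neg, neg_neg]
  have e6 : c 6 7 1 3 = c 1 3 6 7 := by
    rw [hc.s2 6 1 7 3, hc.s1 1 6 7 3, hc.s3 1 6 3 7, hc.s2 1 3 6 7, neg_neg, neg_neg]
  have e7 : c 6 7 1 4 = c 1 4 6 7 := by
    rw [hc.s2 6 1 7 4, hc.s1 1 6 7 4, hc.s3 1 6 4 7, hc.s2 1 4 6 7, neg_neg, neg_neg]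
  have e8 : c 6 7 1 5 = c 1 5 6 7 := by
    rw [hc.s2 6 1 7 5, hc.s1 1 6 7 5, hc.s3 1 6 5 7, hc.s2 1 5 6 7, neg_neg, neg_neg]
  have e9 : c 6 7 2 3 = c 2 3 6 7 := by
    rw [hc.s2 6 2 7 3, hc.s1 2 6 7 3, hc.s3 2 6 3 7, hc.s2 2 3 6 7, neg_neg, neg_neg]
  have e10 : c 6 7 2 4 = c 2 4 6 7 := by
    rw [hc.s2 6 2 7 4, hc.s1 2 6 7 4, hc.s3 2 6 4 7, hc.s2 2 4 6 7, neg_neg, neg_neg]
  have e11 : c 6 7 2 5 = c 2 5 6 7 := by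
    rw [hc.s2 6 2 7 5, hc.s1 2 6 7 5, hc.s3 2 6 5 7, hc.s2 2 5 6 7, neg_neg, neg_neg]
  have e12 : c 6 7 3 4 = c 3 4 6 7 := by
    rw [hc.s2 6 3 7 4, hc.s1 3 6 7 4, hc.s3 3 6 4 7, hc.s2 3 4 6 7, neg_neg, neg_neg]
  have e13 : c 6 7 3 5 = c 3 5 6 7 := by
    rw [hc.s2 6 3 7 5, hc.s1 3 6 7 5, hc.s3 3 6 5 7, hc.s2 3 5 6 7, neg_neg, neg_neg]
  have e14 : c 6 7 4 5 = c 4 5 6 7 := by
    rw [hc.s2 6 4 7 5, hc.s1 4 6 7 5, hc.s3 4 6 5 7, hc.s2 4 5 6 7, neg_neg, neg_neg]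
  simp only [hc.z13, hc.z24, hc.z14, hc.z2, e0, e1, e2, e3, e4, e5, e6, e7, e8, e9, e10, e11, e12, e13, e14]
  ring

end Pool.Agent.V5helper88.F4
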