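import Pool.Agent.V5helper88.F2

/-!
The contraction of a primitive alternating four-array with `A` and `A J A` vanishes.
-/

set_option linter.unusedSimpArgs false

namespace Pool.Agent.V5helper88.F4

variable {c : Fin 8 → Fin 8 → Fin 8 → Fin 8 → ℂ}

/-- The coefficient of `c p q r s` for a general pair of antisymmetric arrays. -/
def GB (A B : Fin 8 → Fin 8 → ℂ) (p q r s : Fin 8) : ℂ :=
  A p q * B r s - A p r * B q s + A p s * B q r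
    + A q r * B p s - A q s * B p r + A r s * B p q

theorem contr {A B : Fin 8 → Fin 8 → ℂ} (hA : ∀ p q, A q p = - A p q)
    (hB : ∀ p q, B q p = - B p q) (hc : Alt4 c) :
    ∑ p, ∑ q, ∑ r, ∑ s, A p q * B r s * c p q r s
      = 4 * (c 0 1 2 3 * GB A B 0 1 2 3 + c 0 1 2 4 * GB A B 0 1 2 4 + c 0 1 2 5 * GB A B 0 1 2 5 + c
        0 1 2 6 * GB A B 0 1 2 6 + c 0 1 2 7 * GB A B 0 1 2 7 + c 0 1 3 4 * GB A B 0 1 3 4 + c 0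
        1 3 5 * GB A B 0 1 3 5 + c 0 1 3 6 * GB A B 0 1 3 6 + c 0 1 3 7 * GB A B 0 1 3 7 + c 0 1
        4 5 * GB A B 0 1 4 5 + c 0 1 4 6 * GB A B 0 1 4 6 + c 0 1 4 7 * GB A B 0 1 4 7 + c 0 1 5
        6 * GB A B 0 1 5 6 + c 0 1 5 7 * GB A B 0 1 5 7 + c 0 1 6 7 * GB A B 0 1 6 7 + c 0 2 3 4
        * GB A B 0 2 3 4 + c 0 2 3 5 * GB A B 0 2 3 5 + c 0 2 3 6 * GB A B 0 2 3 6 + c 0 2 3 7 *
        GB A B 0 2 3 7 + c 0 2 4 5 * GB A B 0 2 4 5 + c 0 2 4 6 * GB A B 0 2 4 6 + c 0 2 4 7 * GB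
        A B 0 2 4 7 + c 0 2 5 6 * GB A B 0 2 5 6 + c 0 2 5 7 * GB A B 0 2 5 7 + c 0 2 6 7 * GB A
        B 0 2 6 7 + c 0 3 4 5 * GB A B 0 3 4 5 + c 0 3 4 6 * GB A B 0 3 4 6 + c 0 3 4 7 * GB A B
        0 3 4 7 + c 0 3 5 6 * GB A B 0 3 5 6 + c 0 3 5 7 * GB A B 0 3 5 7 + c 0 3 6 7 * GB A B 0
        3 6 7 + c 0 4 5 6 * GB A B 0 4 5 6 + c 0 4 5 7 * GB A B 0 4 5 7 + c 0 4 6 7 * GB A B 0 4
        6 7 + c 0 5 6 7 * GB A B 0 5 6 7 + c 1 2 3 4 * GB A B 1 2 3 4 + c 1 2 3 5 * GB A B 1 2 3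
        5 + c 1 2 3 6 * GB A B 1 2 3 6 + c 1 2 3 7 * GB A B 1 2 3 7 + c 1 2 4 5 * GB A B 1 2 4 5
        + c 1 2 4 6 * GB A B 1 2 4 6 + c 1 2 4 7 * GB A B 1 2 4 7 + c 1 2 5 6 * GB A B 1 2 5 6 +
        c 1 2 5 7 * GB A B 1 2 5 7 + c 1 2 6 7 * GB A B 1 2 6 7 + c 1 3 4 5 * GB A B 1 3 4 5 + c
        1 3 4 6 * GB A B 1 3 4 6 + c 1 3 4 7 * GB A B 1 3 4 7 + c 1 3 5 6 * GB A B 1 3 5 6 + c 1
        3 5 7 * GB A B 1 3 5 7 + c 1 3 6 7 * GB A B 1 3 6 7 + c 1 4 5 6 * GB A B 1 4 5 6 + c 1 4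
        5 7 * GB A B 1 4 5 7 + c 1 4 6 7 * GB A B 1 4 6 7 + c 1 5 6 7 * GB A B 1 5 6 7 + c 2 3 4
        5 * GB A B 2 3 4 5 + c 2 3 4 6 * GB A B 2 3 4 6 + c 2 3 4 7 * GB A B 2 3 4 7 + c 2 3 5 6
        * GB A B 2 3 5 6 + c 2 3 5 7 * GB A B 2 3 5 7 + c 2 3 6 7 * GB A B 2 3 6 7 + c 2 4 5 6 *
        GB A B 2 4 5 6 + c 2 4 5 7 * GB A B 2 4 5 7 + c 2 4 6 7 * GB A B 2 4 6 7 + c 2 5 6 7 * GB
        A B 2 5 6 7 + c 3 4 5 6 * GB A B 3 4 5 6 + c 3 4 5 7 * GB A B 3 4 5 7 + c 3 4 6 7 * GB A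
        B 3 4 6 7 + c 3 5 6 7 * GB A B 3 5 6 7 + c 4 5 6 7 * GB A B 4 5 6 7) := by
  have h1 : ∀ p q, ∑ r, ∑ s, A p q * B r s * c p q r s
      = A p q * ∑ r, ∑ s, B r s * c p q r s := by
    intro p q
    simp only [Finset.mul_sum, mul_assoc]
  simp only [h1]
  rw [sum28 (fun p q => A p q * ∑ r, ∑ s, B r s * c p q r s)
    (fun p q => by
      have h2 : ∑ r, ∑ s, B r s * c q p r s = - ∑ r, ∑ s, B r s * c p q r s := by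
        simp only [← Finset.sum_neg_distrib]
        refine Finset.sum_congr rfl fun r _ => Finset.sum_congr rfl fun s _ => ?_
        rw [hc.s1 p q r s]; ring
      rw [hA p q, h2]; ring)
    (fun p => by rw [self_zero hA, zero_mul])]
  rw [inner_01 B hB hc, inner_02 B hB hc, inner_03 B hB hc, inner_04 B hB hc, inner_05 B hB hc,
      inner_06 B hB hc, inner_07 B hB hc, inner_12 B hB hc, inner_13 B hB hc, inner_14 B hB hc,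
      inner_15 B hB hc, inner_16 B hB hc, inner_17 B hB hc, inner_23 B hB hc, inner_24 B hB hc,
      inner_25 B hB hc, inner_26 B hB hc, inner_27 B hB hc, inner_34 B hB hc, inner_35 B hB hc,
      inner_36 B hB hc, inner_37 B hB hc, inner_45 B hB hc, inner_46 B hB hc, inner_47 B hB hc,
      inner_56 B hB hc, inner_57 B hB hc, inner_67 B hB hc]
  simp only [GB]
  ring

theorem Alt4.swap' (hc : Alt4 c) (p q r s : Fin 8) : c r s p q = c p q r s := by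
  rw [hc.s2 r p s q, hc.s1 p r s q, hc.s3 p r q s, hc.s2 p q r s]; ring

theorem Bq_anti {A : Fin 8 → Fin 8 → ℂ} (hA : ∀ p q, A q p = - A p q) (r s : Fin 8) :
    Bq A s r = - Bq A r s := by
  simp only [Bq]
  rw [hA 0 s, hA 1 s, hA 2 s, hA 3 s, hA 4 s, hA 5 s, hA 6 s, hA 7 s,
    hA r 0, hA r 1, hA r 2, hA r 3, hA r 4, hA r 5, hA r 6, hA r 7]
  ring

/-- The cubic identity. -/
theorem prim_id {A : Fin 8 → Fin 8 → ℂ} (hA : ∀ p q, A q p = - A p q)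
    (ht : A 0 1 + A 2 3 + A 4 5 + A 6 7 = 0) (hc : Alt4 c)
    (hp : ∀ r s, c 0 1 r s + c 2 3 r s + c 4 5 r s + c 6 7 r s = 0) :
    ∑ p, ∑ q, ∑ r, ∑ s, A p q * Bq A r s * c p q r s = 0 := by
  rw [contr hA (fun p q => Bq_anti hA p q) hc]
  have hG : ∀ p q r s, GB A (Bq A) p q r s = Gq A p q r s := fun p q r s => rfl
  simp only [hG]
  obtain ⟨a0, a1, a2, a3, a4, a5, a6, a7, a8, a9, a10, a11, a12, a13, a14, a15⟩ := G_a hA ht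
  obtain ⟨b0, b1, b2, b3, b4, b5, b6, b7, b8, b9, b10, b11, b12, b13, b14, b15, b16, b17, b18, b19, b20, b21, b22, b23⟩ := G_b hA ht
  obtain ⟨g1, g2⟩ := G_c hA ht
  have p0 : c 0 2 4 5 + c 0 2 6 7 = 0 := by
    have h := hp 0 2
    rw [(show c 4 5 0 2 = c 0 2 4 5 by rw [hc.s2 4 0 5 2, hc.s1 0 4 5 2, hc.s3 0 4 2 5, hc.s2 0 2 4 5, neg_neg, neg_neg]), (show c 6 7 0 2 = c 0 2 6 7 by rw [hc.s2 6 0 7 2, hc.s1 0 6 7 2, hc.s3 0 6 2 7, hc.s2 0 2 6 7, neg_neg, neg_neg])] at h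
    simp only [hc.z13, hc.z24, hc.z14, hc.z2, zero_add, add_zero] at h
    exact h
  have p1 : c 0 3 4 5 + c 0 3 6 7 = 0 := by
    have h := hp 0 3
    rw [(show c 4 5 0 3 = c 0 3 4 5 by rw [hc.s2 4 0 5 3, hc.s1 0 4 5 3, hc.s3 0 4 3 5, hc.s2 0 3 4 5, neg_neg, neg_neg]), (show c 6 7 0 3 = c 0 3 6 7 by rw [hc.s2 6 0 7 3, hc.s1 0 6 7 3, hc.s3 0 6 3 7, hc.s2 0 3 6 7, neg_neg, neg_neg])] at h
    simp only [hc.z13, hc.z24, hc.z14, hc.z2, zero_add, add_zero] at h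
    exact h
  have p2 : c 1 2 4 5 + c 1 2 6 7 = 0 := by
    have h := hp 1 2
    rw [(show c 4 5 1 2 = c 1 2 4 5 by rw [hc.s2 4 1 5 2, hc.s1 1 4 5 2, hc.s3 1 4 2 5, hc.s2 1 2 4 5, neg_neg, neg_neg]), (show c 6 7 1 2 = c 1 2 6 7 by rw [hc.s2 6 1 7 2, hc.s1 1 6 7 2, hc.s3 1 6 2 7, hc.s2 1 2 6 7, neg_neg, neg_neg])] at h
    simp only [hc.z13, hc.z24, hc.z14, hc.z2, zero_add, add_zero] at h
    exact h
  have p3 : c 1 3 4 5 + c 1 3 6 7 = 0 := by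
    have h := hp 1 3
    rw [(show c 4 5 1 3 = c 1 3 4 5 by rw [hc.s2 4 1 5 3, hc.s1 1 4 5 3, hc.s3 1 4 3 5, hc.s2 1 3 4 5, neg_neg, neg_neg]), (show c 6 7 1 3 = c 1 3 6 7 by rw [hc.s2 6 1 7 3, hc.s1 1 6 7 3, hc.s3 1 6 3 7, hc.s2 1 3 6 7, neg_neg, neg_neg])] at h
    simp only [hc.z13, hc.z24, hc.z14, hc.z2, zero_add, add_zero] at h
    exact h
  have p4 : c 0 2 3 4 + c 0 4 6 7 = 0 := by
    have h := hp 0 4
    rw [(show c 2 3 0 4 = c 0 2 3 4 by rw [hc.s2 2 0 3 4, hc.s1 0 2 3 4, neg_neg]), (show c 6 7 0 4 = c 0 4 6 7 by rw [hc.s2 6 0 7 4, hc.s1 0 6 7 4, hc.s3 0 6 4 7, hc.s2 0 4 6 7, neg_neg, neg_neg])] at h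
    simp only [hc.z13, hc.z24, hc.z14, hc.z2, zero_add, add_zero] at h
    exact h
  have p5 : c 0 2 3 5 + c 0 5 6 7 = 0 := by
    have h := hp 0 5
    rw [(show c 2 3 0 5 = c 0 2 3 5 by rw [hc.s2 2 0 3 5, hc.s1 0 2 3 5, neg_neg]), (show c 6 7 0 5 = c 0 5 6 7 by rw [hc.s2 6 0 7 5, hc.s1 0 6 7 5, hc.s3 0 6 5 7, hc.s2 0 5 6 7, neg_neg, neg_neg])] at h
    simp only [hc.z13, hc.z24, hc.z14, hc.z2, zero_add, add_zero] at h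
    exact h
  have p6 : c 1 2 3 4 + c 1 4 6 7 = 0 := by
    have h := hp 1 4
    rw [(show c 2 3 1 4 = c 1 2 3 4 by rw [hc.s2 2 1 3 4, hc.s1 1 2 3 4, neg_neg]), (show c 6 7 1 4 = c 1 4 6 7 by rw [hc.s2 6 1 7 4, hc.s1 1 6 7 4, hc.s3 1 6 4 7, hc.s2 1 4 6 7, neg_neg, neg_neg])] at h
    simp only [hc.z13, hc.z24, hc.z14, hc.z2, zero_add, add_zero] at h
    exact h
  have p7 : c 1 2 3 5 + c 1 5 6 7 = 0 := by
    have h := hp 1 5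
    rw [(show c 2 3 1 5 = c 1 2 3 5 by rw [hc.s2 2 1 3 5, hc.s1 1 2 3 5, neg_neg]), (show c 6 7 1 5 = c 1 5 6 7 by rw [hc.s2 6 1 7 5, hc.s1 1 6 7 5, hc.s3 1 6 5 7, hc.s2 1 5 6 7, neg_neg, neg_neg])] at h
    simp only [hc.z13, hc.z24, hc.z14, hc.z2, zero_add, add_zero] at h
    exact h
  have p8 : c 0 2 3 6 + c 0 4 5 6 = 0 := by
    have h := hp 0 6
    rw [(show c 2 3 0 6 = c 0 2 3 6 by rw [hc.s2 2 0 3 6, hc.s1 0 2 3 6, neg_neg]), (show c 4 5 0 6 = c 0 4 5 6 by rw [hc.s2 4 0 5 6, hc.s1 0 4 5 6, neg_neg])] at h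
    simp only [hc.z13, hc.z24, hc.z14, hc.z2, zero_add, add_zero] at h
    exact h
  have p9 : c 0 2 3 7 + c 0 4 5 7 = 0 := by
    have h := hp 0 7
    rw [(show c 2 3 0 7 = c 0 2 3 7 by rw [hc.s2 2 0 3 7, hc.s1 0 2 3 7, neg_neg]), (show c 4 5 0 7 = c 0 4 5 7 by rw [hc.s2 4 0 5 7, hc.s1 0 4 5 7, neg_neg])] at h
    simp only [hc.z13, hc.z24, hc.z14, hc.z2, zero_add, add_zero] at h
    exact h
  have p10 : c 1 2 3 6 + c 1 4 5 6 = 0 := by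
    have h := hp 1 6
    rw [(show c 2 3 1 6 = c 1 2 3 6 by rw [hc.s2 2 1 3 6, hc.s1 1 2 3 6, neg_neg]), (show c 4 5 1 6 = c 1 4 5 6 by rw [hc.s2 4 1 5 6, hc.s1 1 4 5 6, neg_neg])] at h
    simp only [hc.z13, hc.z24, hc.z14, hc.z2, zero_add, add_zero] at h
    exact h
  have p11 : c 1 2 3 7 + c 1 4 5 7 = 0 := by
    have h := hp 1 7
    rw [(show c 2 3 1 7 = c 1 2 3 7 by rw [hc.s2 2 1 3 7, hc.s1 1 2 3 7, neg_neg]), (show c 4 5 1 7 = c 1 4 5 7 by rw [hc.s2 4 1 5 7, hc.s1 1 4 5 7, neg_neg])] at h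
    simp only [hc.z13, hc.z24, hc.z14, hc.z2, zero_add, add_zero] at h
    exact h
  have p12 : c 0 1 2 4 + c 2 4 6 7 = 0 := by
    have h := hp 2 4
    rw [(show c 6 7 2 4 = c 2 4 6 7 by rw [hc.s2 6 2 7 4, hc.s1 2 6 7 4, hc.s3 2 6 4 7, hc.s2 2 4 6 7, neg_neg, neg_neg])] at h
    simp only [hc.z13, hc.z24, hc.z14, hc.z2, zero_add, add_zero] at h
    exact h
  have p13 : c 0 1 2 5 + c 2 5 6 7 = 0 := by
    have h := hp 2 5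
    rw [(show c 6 7 2 5 = c 2 5 6 7 by rw [hc.s2 6 2 7 5, hc.s1 2 6 7 5, hc.s3 2 6 5 7, hc.s2 2 5 6 7, neg_neg, neg_neg])] at h
    simp only [hc.z13, hc.z24, hc.z14, hc.z2, zero_add, add_zero] at h
    exact h
  have p14 : c 0 1 3 4 + c 3 4 6 7 = 0 := by
    have h := hp 3 4
    rw [(show c 6 7 3 4 = c 3 4 6 7 by rw [hc.s2 6 3 7 4, hc.s1 3 6 7 4, hc.s3 3 6 4 7, hc.s2 3 4 6 7, neg_neg, neg_neg])] at h
    simp only [hc.z13, hc.z24, hc.z14, hc.z2, zero_add, add_zero] at h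
    exact h
  have p15 : c 0 1 3 5 + c 3 5 6 7 = 0 := by
    have h := hp 3 5
    rw [(show c 6 7 3 5 = c 3 5 6 7 by rw [hc.s2 6 3 7 5, hc.s1 3 6 7 5, hc.s3 3 6 5 7, hc.s2 3 5 6 7, neg_neg, neg_neg])] at h
    simp only [hc.z13, hc.z24, hc.z14, hc.z2, zero_add, add_zero] at h
    exact h
  have p16 : c 0 1 2 6 + c 2 4 5 6 = 0 := by
    have h := hp 2 6
    rw [(show c 4 5 2 6 = c 2 4 5 6 by rw [hc.s2 4 2 5 6, hc.s1 2 4 5 6, neg_neg])] at h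
    simp only [hc.z13, hc.z24, hc.z14, hc.z2, zero_add, add_zero] at h
    exact h
  have p17 : c 0 1 2 7 + c 2 4 5 7 = 0 := by
    have h := hp 2 7
    rw [(show c 4 5 2 7 = c 2 4 5 7 by rw [hc.s2 4 2 5 7, hc.s1 2 4 5 7, neg_neg])] at h
    simp only [hc.z13, hc.z24, hc.z14, hc.z2, zero_add, add_zero] at h
    exact h
  have p18 : c 0 1 3 6 + c 3 4 5 6 = 0 := by
    have h := hp 3 6
    rw [(show c 4 5 3 6 = c 3 4 5 6 by rw [hc.s2 4 3 5 6, hc.s1 3 4 5 6, neg_neg])] at h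
    simp only [hc.z13, hc.z24, hc.z14, hc.z2, zero_add, add_zero] at h
    exact h
  have p19 : c 0 1 3 7 + c 3 4 5 7 = 0 := by
    have h := hp 3 7
    rw [(show c 4 5 3 7 = c 3 4 5 7 by rw [hc.s2 4 3 5 7, hc.s1 3 4 5 7, neg_neg])] at h
    simp only [hc.z13, hc.z24, hc.z14, hc.z2, zero_add, add_zero] at h
    exact h
  have p20 : c 0 1 4 6 + c 2 3 4 6 = 0 := by
    have h := hp 4 6

    simp only [hc.z13, hc.z24, hc.z14, hc.z2, zero_add, add_zero] at h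
    exact h
  have p21 : c 0 1 4 7 + c 2 3 4 7 = 0 := by
    have h := hp 4 7

    simp only [hc.z13, hc.z24, hc.z14, hc.z2, zero_add, add_zero] at h
    exact h
  have p22 : c 0 1 5 6 + c 2 3 5 6 = 0 := by
    have h := hp 5 6

    simp only [hc.z13, hc.z24, hc.z14, hc.z2, zero_add, add_zero] at h
    exact h
  have p23 : c 0 1 5 7 + c 2 3 5 7 = 0 := by
    have h := hp 5 7

    simp only [hc.z13, hc.z24, hc.z14, hc.z2, zero_add, add_zero] at h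
    exact h
  have hsw : ∀ p q r s, c r s p q = c p q r s := hc.swap'
  have q0 : c 0 1 2 3 + c 0 1 4 5 + c 0 1 6 7 = 0 := by
    have h := hp 0 1
    simp only [hc.z13, hc.z24, hc.z14, hc.z2, hsw 0 1 2 3, hsw 0 1 4 5, hsw 0 1 6 7, zero_add, add_zero] at h
    linear_combination h
  have q1 : c 0 1 2 3 + c 2 3 4 5 + c 2 3 6 7 = 0 := by
    have h := hp 2 3
    simp only [hc.z13, hc.z24, hc.z14, hc.z2, hsw 2 3 4 5, hsw 2 3 6 7, zero_add, add_zero] at h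
    linear_combination h
  have q2 : c 0 1 4 5 + c 2 3 4 5 + c 4 5 6 7 = 0 := by
    have h := hp 4 5
    simp only [hc.z13, hc.z24, hc.z14, hc.z2, hsw 4 5 6 7, zero_add, add_zero] at h
    linear_combination h
  have q3 : c 0 1 6 7 + c 2 3 6 7 + c 4 5 6 7 = 0 := by
    have h := hp 6 7
    simp only [hc.z13, hc.z24, hc.z14, hc.z2, zero_add, add_zero] at h
    linear_combination h
  linear_combination 4 * (c 0 2 4 6 * a0 + c 0 2 4 7 * a1 + c 0 2 5 6 * a2 + c 0 2 5 7 * a3 + c 0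
  3 4 6 * a4 + c 0 3 4 7 * a5 + c 0 3 5 6 * a6 + c 0 3 5 7 * a7 + c 1 2 4 6 * a8 + c 1 2 4 7 * a9
  + c 1 2 5 6 * a10 + c 1 2 5 7 * a11 + c 1 3 4 6 * a12 + c 1 3 4 7 * a13 + c 1 3 5 6 * a14 + c 1
  3 5 7 * a15 + c 0 2 4 5 * b0 + Gq A 0 2 6 7 * p0 + c 0 3 4 5 * b1 + Gq A 0 3 6 7 * p1 + c 1 2 4
  5 * b2 + Gq A 1 2 6 7 * p2 + c 1 3 4 5 * b3 + Gq A 1 3 6 7 * p3 + c 0 2 3 4 * b4 + Gq A 0 4 6 7
  * p4 + c 0 2 3 5 * b5 + Gq A 0 5 6 7 * p5 + c 1 2 3 4 * b6 + Gq A 1 4 6 7 * p6 + c 1 2 3 5 * b7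
  + Gq A 1 5 6 7 * p7 + c 0 2 3 6 * b8 + Gq A 0 4 5 6 * p8 + c 0 2 3 7 * b9 + Gq A 0 4 5 7 * p9 +
  c 1 2 3 6 * b10 + Gq A 1 4 5 6 * p10 + c 1 2 3 7 * b11 + Gq A 1 4 5 7 * p11 + c 0 1 2 4 * b12 +
  Gq A 2 4 6 7 * p12 + c 0 1 2 5 * b13 + Gq A 2 5 6 7 * p13 + c 0 1 3 4 * b14 + Gq A 3 4 6 7 *
  p14 + c 0 1 3 5 * b15 + Gq A 3 5 6 7 * p15 + c 0 1 2 6 * b16 + Gq A 2 4 5 6 * p16 + c 0 1 2 7 *
  b17 + Gq A 2 4 5 7 * p17 + c 0 1 3 6 * b18 + Gq A 3 4 5 6 * p18 + c 0 1 3 7 * b19 + Gq A 3 4 5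
  7 * p19 + c 0 1 4 6 * b20 + Gq A 2 3 4 6 * p20 + c 0 1 4 7 * b21 + Gq A 2 3 4 7 * p21 + c 0 1 5
  6 * b22 + Gq A 2 3 5 6 * p22 + c 0 1 5 7 * b23 + Gq A 2 3 5 7 * p23 + (-c 0 1 4 5) * g1 + (-c 0
  1 6 7) * g2 + (Gq A 0 1 2 3 + Gq A 4 5 6 7) * q0 + (-(1 / 2 : ℂ)) * Gq A 4 5 6 7 * (q0 + q1 -
  q2 - q3) + (-(1 / 2 : ℂ)) * Gq A 2 3 6 7 * (q0 + q2 - q1 - q3) + (-(1 / 2 : ℂ)) * Gq A 2 3 4 5
  * (q0 + q3 - q1 - q2))

end Pool.Agent.V5helper88.F4
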