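import Mathlib

/-!
Extremal subspaces for an operator acting as a derivation that kills a trilinear form.
-/

namespace Pool.Agent.V5helper88.F4

open Module

variable {W : Type*} [AddCommGroup W] [Module ℂ W]

theorem nilp_case (T : Module.End ℂ W) (Ψ : W →ₗ[ℂ] W →ₗ[ℂ] W →ₗ[ℂ] ℂ)
    (hΨ : ∀ a b d, Ψ (T a) b d + Ψ a (T b) d + Ψ a b (T d) = 0)
    (k : ℕ) (hk : 1 ≤ k) (hT : T ^ (k + 1) = 0) (x y d : W) :
    Ψ ((T ^ k) x) ((T ^ k) y) d = 0 := by
  obtain ⟨k', rfl⟩ : ∃ k', k = k' + 1 := ⟨k - 1, by omega⟩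
  set f : ℕ → ℕ → ℕ → ℂ := fun p q r => Ψ ((T ^ p) x) ((T ^ q) y) ((T ^ r) d) with hf
  have hrec : ∀ p q r, f (p + 1) q r + f p (q + 1) r + f p q (r + 1) = 0 := by
    intro p q r
    simp only [hf, pow_succ', Module.End.mul_apply]
    exact hΨ _ _ _
  have z : ∀ (v : W), (T ^ (k' + 1 + 1)) v = 0 := by
    intro v
    rw [hT]; rfl
  have zp : ∀ q r, f (k' + 1 + 1) q r = 0 := by
    intro q r
    simp only [hf, z, map_zero, LinearMap.zero_apply]
  have zq : ∀ p r, f p (k' + 1 + 1) r = 0 := by
    intro p r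
    simp only [hf, z, map_zero, LinearMap.zero_apply]
  have zr : ∀ p q, f p q (k' + 1 + 1) = 0 := by
    intro p q
    simp only [hf, z, map_zero]
  have g : ∀ j m, j + m = k' + 1 → f j (k' + 1) m = (-1) ^ j * f 0 (k' + 1) (k' + 1) := by
    intro j
    induction j with
    | zero =>
      intro m hm
      have : m = k' + 1 := by omega
      subst this
      simp
    | succ j ih =>
      intro m hm
      have h1 := hrec j (k' + 1) m
      rw [zq, ih (m + 1) (by omega)] at h1
      rw [pow_succ]
      linear_combination h1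
  have h : ∀ j m, j + m = k' + 1 + 1 →
      f j k' m = (-1) ^ j * j * f 0 (k' + 1) (k' + 1) := by
    intro j
    induction j with
    | zero =>
      intro m hm
      have : m = k' + 1 + 1 := by omega
      subst this
      rw [zr]; simp
    | succ j ih =>
      intro m hm
      have h1 := hrec j k' m
      rw [g j m (by omega), ih (m + 1) (by omega)] at h1
      rw [pow_succ]
      push_cast
      linear_combination h1
  have h2 := h (k' + 1 + 1) 0 (by omega)
  rw [zp] at h2
  have h3 : f 0 (k' + 1) (k' + 1) = 0 := by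
    have h4 : ((-1 : ℂ) ^ (k' + 1 + 1) * ((k' + 1 + 1 : ℕ) : ℂ)) ≠ 0 :=
      mul_ne_zero (pow_ne_zero _ (by norm_num)) (Nat.cast_ne_zero.mpr (Nat.succ_ne_zero (k' + 1)))
    rcases mul_eq_zero.mp h2.symm with h5 | h5
    · exact absurd h5 h4
    · exact h5
  have h6 := g (k' + 1) 0 (by omega)
  rw [h3, mul_zero] at h6
  simpa [hf] using h6

theorem gen_zero (T : Module.End ℂ W) (Ψ : W →ₗ[ℂ] W →ₗ[ℂ] W →ₗ[ℂ] ℂ)
    (hΨ : ∀ a b d, Ψ (T a) b d + Ψ a (T b) d + Ψ a b (T d) = 0)
    (l m n : ℂ) (hs : l + m + n ≠ 0) :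
    ∀ N p q r : ℕ, p + q + r ≤ N → ∀ a b d : W,
      ((T - algebraMap ℂ (Module.End ℂ W) l) ^ p) a = 0 →
      ((T - algebraMap ℂ (Module.End ℂ W) m) ^ q) b = 0 →
      ((T - algebraMap ℂ (Module.End ℂ W) n) ^ r) d = 0 → Ψ a b d = 0 := by
  intro N
  induction N with
  | zero =>
    intro p q r h a b d ha _ _
    have : p = 0 := by omega
    subst this
    have ha' : a = 0 := by simpa using ha
    simp [ha']
  | succ N ih =>
    intro p q r h a b d ha hb hd
    rcases Nat.eq_zero_or_pos p with hp | hp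
    · subst hp
      have ha' : a = 0 := by simpa using ha
      simp [ha']
    rcases Nat.eq_zero_or_pos q with hq | hq
    · subst hq
      have ha' : b = 0 := by simpa using hb
      simp [ha']
    rcases Nat.eq_zero_or_pos r with hr | hr
    · subst hr
      have ha' : d = 0 := by simpa using hd
      simp [ha']
    obtain ⟨p, rfl⟩ : ∃ p', p = p' + 1 := ⟨p - 1, by omega⟩
    obtain ⟨q, rfl⟩ : ∃ p', q = p' + 1 := ⟨q - 1, by omega⟩
    obtain ⟨r, rfl⟩ : ∃ p', r = p' + 1 := ⟨r - 1, by omega⟩
    have e1 := ih p (q + 1) (r + 1) (by omega)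
      ((T - algebraMap ℂ (Module.End ℂ W) l) a) b d
      (by rw [pow_succ, Module.End.mul_apply] at ha; exact ha) hb hd
    have e2 := ih (p + 1) q (r + 1) (by omega) a
      ((T - algebraMap ℂ (Module.End ℂ W) m) b) d ha
      (by rw [pow_succ, Module.End.mul_apply] at hb; exact hb) hd
    have e3 := ih (p + 1) (q + 1) r (by omega) a b
      ((T - algebraMap ℂ (Module.End ℂ W) n) d) ha hb
      (by rw [pow_succ, Module.End.mul_apply] at hd; exact hd)
    simp only [LinearMap.sub_apply, Module.algebraMap_end_apply, map_sub, map_smul,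
      LinearMap.sub_apply, LinearMap.smul_apply, smul_eq_mul] at e1 e2 e3
    have e4 : (l + m + n) * Ψ a b d = 0 := by
      linear_combination hΨ a b d - e1 - e2 - e3
    rcases mul_eq_zero.mp e4 with h5 | h5
    · exact absurd h5 hs
    · exact h5

theorem gen_le_range (T : Module.End ℂ W) (l : ℂ) (hl : l ≠ 0) :
    ∀ (k : ℕ) (x : W), ((T - algebraMap ℂ (Module.End ℂ W) l) ^ k) x = 0 →
      x ∈ LinearMap.range T := by
  intro k
  induction k with
  | zero =>
    intro x hx
    have : x = 0 := by simpa using hx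
    rw [this]; exact Submodule.zero_mem _
  | succ k ih =>
    intro x hx
    rw [pow_succ, Module.End.mul_apply] at hx
    have h1 := ih _ hx
    simp only [LinearMap.sub_apply, Module.algebraMap_end_apply] at h1
    have h2 : l • x ∈ LinearMap.range T := by
      have h3 := Submodule.sub_mem _ (LinearMap.mem_range_self T x) h1
      simpa using h3
    have h4 := Submodule.smul_mem _ l⁻¹ h2
    rwa [smul_smul, inv_mul_cancel₀ hl, one_smul] at h4

variable [FiniteDimensional ℂ W]

theorem extreme (T : Module.End ℂ W) (Ψ : W →ₗ[ℂ] W →ₗ[ℂ] W →ₗ[ℂ] ℂ)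
    (hΨ : ∀ a b d, Ψ (T a) b d + Ψ a (T b) d + Ψ a b (T d) = 0) (hT : T ≠ 0) :
    ∃ U : Submodule ℂ W, U ≠ ⊥ ∧ U ≤ LinearMap.range T ∧
      (∀ F : Module.End ℂ W, Commute F T → ∀ x ∈ U, F x ∈ U) ∧
      ∀ a ∈ U, ∀ b ∈ U, ∀ d, Ψ a b d = 0 := by
  by_cases hnil : IsNilpotent T
  · set N := nilpotencyClass T with hN
    have h1 : T ^ N = 0 := pow_nilpotencyClass hnil
    have h0 : N ≠ 0 := by
      intro h
      rw [h, pow_zero] at h1
      apply hT
      rw [← mul_one T, h1, mul_zero]
    have h2 : N ≠ 1 := by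
      intro h
      rw [h, pow_one] at h1
      exact hT h1
    have h3 : T ^ (N - 1) ≠ 0 := by
      have : Nontrivial (Module.End ℂ W) := ⟨⟨T, 0, hT⟩⟩
      exact pow_pred_nilpotencyClass hnil
    refine ⟨LinearMap.range (T ^ (N - 1)), ?_, ?_, ?_, ?_⟩
    · rw [Ne, LinearMap.range_eq_bot]; exact h3
    · rintro x ⟨y, rfl⟩
      have : N - 1 = (N - 2) + 1 := by omega
      rw [this, pow_succ', Module.End.mul_apply]
      exact LinearMap.mem_range_self _ _
    · rintro F hF x ⟨y, rfl⟩
      refine ⟨F y, ?_⟩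
      have h4 : Commute F (T ^ (N - 1)) := hF.pow_right _
      have h5 := LinearMap.congr_fun h4.eq y
      simp only [Module.End.mul_apply] at h5
      exact h5.symm
    · rintro a ⟨x, rfl⟩ b ⟨y, rfl⟩ d
      refine nilp_case T Ψ hΨ (N - 1) (by omega) ?_ x y d
      rw [show N - 1 + 1 = N by omega]; exact h1
  · have hW : Nontrivial W := by
      by_contra h
      rw [not_nontrivial_iff_subsingleton] at h
      exact hT (LinearMap.ext fun x => Subsingleton.elim _ _)
    have hfin : (setOf T.HasEigenvalue).Finite := Module.End.finite_hasEigenvalue T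
    obtain ⟨l0, hl0⟩ := Module.End.exists_eigenvalue T
    obtain ⟨l, hl, hmax⟩ := Set.exists_max_image _ (fun z : ℂ => ‖z‖) hfin ⟨l0, hl0⟩
    have hev : ∀ (m : ℂ) (d : W), d ∈ T.maxGenEigenspace m → d ≠ 0 → T.HasEigenvalue m := by
      intro m d hd hd0
      have h1 : T.HasUnifEigenvalue m ⊤ := by
        intro h
        apply hd0
        have : d ∈ T.genEigenspace m ⊤ := hd
        rw [h] at this
        simpa using this
      exact (Module.End.hasUnifEigenvalue_iff_hasUnifEigenvalue_one (by simp)).mp h1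
    have hl1 : l ≠ 0 := by
      intro h
      apply hnil
      have h1 : ∀ m, m ≠ 0 → T.maxGenEigenspace m = ⊥ := by
        intro m hm
        rw [Submodule.eq_bot_iff]
        intro d hd
        by_contra hd0
        have h2 := hmax m (hev m d hd hd0)
        simp only [h, norm_zero] at h2
        exact hm (norm_le_zero_iff.mp h2)
      have h2 : T.maxGenEigenspace 0 = ⊤ := by
        rw [eq_top_iff, ← Module.End.iSup_maxGenEigenspace_eq_top T]
        refine iSup_le fun m => ?_
        by_cases hm : m = 0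
        · rw [hm]
        · rw [h1 m hm]; exact bot_le
      refine ⟨finrank ℂ W, LinearMap.ext fun x => ?_⟩
      have h3 : x ∈ T.maxGenEigenspace 0 := by rw [h2]; trivial
      rw [Module.End.maxGenEigenspace_eq_genEigenspace_finrank,
        Module.End.mem_genEigenspace_nat] at h3
      simpa using h3
    refine ⟨T.maxGenEigenspace l, ?_, ?_, ?_, ?_⟩
    · have h1 : T.HasUnifEigenvalue l ⊤ :=
        (Module.End.hasUnifEigenvalue_iff_hasUnifEigenvalue_one (by simp)).mpr hl
      exact h1
    · intro x hx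
      rw [Module.End.mem_maxGenEigenspace] at hx
      obtain ⟨k, hk⟩ := hx
      exact gen_le_range T l hl1 k x hk
    · intro F hF x hx
      exact Module.End.mapsTo_maxGenEigenspace_of_comm hF.symm l hx
    · intro a ha b hb d
      have hd : d ∈ ⨆ m, T.maxGenEigenspace m := by
        rw [Module.End.iSup_maxGenEigenspace_eq_top]; trivial
      refine Submodule.iSup_induction _ (motive := fun d => Ψ a b d = 0) hd ?_ ?_ ?_
      · intro m d hd
        by_cases hd0 : d = 0
        · simp [hd0]
        have h1 := hmax m (hev m d hd hd0)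
        have h2 : l + l + m ≠ 0 := by
          intro h
          have h3 : m = -(2 * l) := by linear_combination h
          rw [h3] at h1
          simp only [norm_neg, norm_mul, Complex.norm_ofNat] at h1
          have h4 : 0 < ‖l‖ := norm_pos_iff.mpr hl1
          linarith
        rw [Module.End.mem_maxGenEigenspace] at ha hb hd
        obtain ⟨p, hp⟩ := ha
        obtain ⟨q, hq⟩ := hb
        obtain ⟨r, hr⟩ := hd
        exact gen_zero T Ψ hΨ l l m h2 (p + q + r) p q r le_rfl a b d hp hq hr
      · simp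
      · intro x y hx hy
        rw [map_add, hx, hy, add_zero]

end Pool.Agent.V5helper88.F4
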