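import Pool.Agent.V5helper88.F2b
import Pool.Agent.V5helper88.F3

/-!
The contraction operator attached to an alternating four-array on a symplectic space of
dimension eight.
-/

namespace Pool.Agent.V5helper88.F4

open Matrix

/-- Complex matrices of size eight. -/
abbrev M8 : Type := Matrix (Fin 8) (Fin 8) ℂ

/-- The standard symplectic matrix, with pairs `(0,1)`, `(2,3)`, `(4,5)`, `(6,7)`. -/
def J8 : M8 := Matrix.of fun i j =>
  if j.val = i.val + 1 ∧ i.val % 2 = 0 then 1
  else if i.val = j.val + 1 ∧ j.val % 2 = 0 then -1 else 0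

theorem J8_sq : J8 * J8 = -1 := by
  ext i j
  fin_cases i <;> fin_cases j <;>
    simp [J8, Matrix.mul_apply, Fin.sum_univ_eight]

theorem J8_tr : J8ᵀ = -J8 := by
  ext i j
  fin_cases i <;> fin_cases j <;> simp [J8]

/-- Self-adjoint matrices. -/
def Sy (a : M8) : Prop := aᵀ * J8 = J8 * a

/-- Skew-adjoint matrices. -/
def Sk (a : M8) : Prop := aᵀ * J8 = -(J8 * a)

/-- The adjoint. -/
def st (a : M8) : M8 := -(J8 * aᵀ * J8)

theorem st_mul (a b : M8) : st (a * b) = st b * st a := by
  have h := J8_sq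
  simp only [st, transpose_mul]
  have : -(J8 * bᵀ * J8) * -(J8 * aᵀ * J8) = J8 * bᵀ * (J8 * J8) * aᵀ * J8 := by noncomm_ring
  rw [this, h]
  noncomm_ring

theorem st_add (a b : M8) : st (a + b) = st a + st b := by
  simp only [st, transpose_add]; noncomm_ring

theorem st_neg (a : M8) : st (-a) = -st a := by
  simp only [st, transpose_neg]; noncomm_ring

theorem st_sub (a b : M8) : st (a - b) = st a - st b := by
  simp only [st, transpose_sub]; noncomm_ring

theorem st_smul (z : ℂ) (a : M8) : st (z • a) = z • st a := by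
  simp only [st, transpose_smul, mul_smul_comm, smul_mul_assoc, smul_neg]

theorem st_one : st 1 = 1 := by
  simp only [st, transpose_one, mul_one, J8_sq, neg_neg]

theorem st_st (a : M8) : st (st a) = a := by
  simp only [st, transpose_neg, transpose_mul, transpose_transpose, J8_tr]
  have : -(J8 * -(-J8 * (a * -J8)) * J8) = (J8 * J8) * a * (J8 * J8) := by noncomm_ring
  rw [this, J8_sq]; noncomm_ring

theorem tr_st (a : M8) : trace (st a) = trace a := by
  rw [st, trace_neg, trace_mul_comm, ← mul_assoc, J8_sq, neg_one_mul, trace_neg, neg_neg,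
    trace_transpose]

theorem sy_iff (a : M8) : Sy a ↔ st a = a := by
  unfold Sy st
  constructor
  · intro h
    rw [mul_assoc, h, ← mul_assoc, J8_sq]; noncomm_ring
  · intro h
    have h1 : J8 * (-(J8 * aᵀ * J8)) = J8 * a := by rw [h]
    rw [← h1]
    have : J8 * (-(J8 * aᵀ * J8)) = -(J8 * J8) * aᵀ * J8 := by noncomm_ring
    rw [this, J8_sq]; noncomm_ring

theorem sk_iff (a : M8) : Sk a ↔ st a = -a := by
  unfold Sk st
  constructor
  · intro h
    rw [mul_assoc, h, mul_neg, ← mul_assoc, J8_sq]; noncomm_ring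
  · intro h
    have h1 : J8 * (-(J8 * aᵀ * J8)) = J8 * (-a) := by rw [h]
    rw [← mul_neg, ← h1]
    have : J8 * (-(J8 * aᵀ * J8)) = -(J8 * J8) * aᵀ * J8 := by noncomm_ring
    rw [this, J8_sq]; noncomm_ring

theorem tr_sy_sk {a b : M8} (ha : Sy a) (hb : Sk b) : trace (a * b) = 0 := by
  rw [sy_iff] at ha
  rw [sk_iff] at hb
  have h : trace (a * b) = - trace (a * b) := by
    conv_lhs => rw [← tr_st, st_mul, ha, hb]
    rw [neg_mul, trace_neg, trace_mul_comm]
  linear_combination (1 / 2 : ℂ) * h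

variable {c : Fin 8 → Fin 8 → Fin 8 → Fin 8 → ℂ}

theorem Alt4.swap (hc : Alt4 c) (p q r s : Fin 8) : c r s p q = c p q r s := by
  rw [hc.s2 r p s q, hc.s1 p r s q, hc.s3 p r q s, hc.s2 p q r s]; ring

/-- Contraction of `c` with a matrix. -/
def tau (c : Fin 8 → Fin 8 → Fin 8 → Fin 8 → ℂ) (A : M8) : M8 :=
  Matrix.of fun r s => ∑ p, ∑ q, A p q * c p q r s

theorem tau_tr (hc : Alt4 c) (A : M8) : (tau c A)ᵀ = -tau c A := by
  ext r s
  simp only [tau, transpose_apply, of_apply, Matrix.neg_apply, ← Finset.sum_neg_distrib]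
  refine Finset.sum_congr rfl fun p _ => Finset.sum_congr rfl fun q _ => ?_
  rw [hc.s3 p q r s]; ring

/-- The contraction operator. -/
def TL (c : Fin 8 → Fin 8 → Fin 8 → Fin 8 → ℂ) : M8 →ₗ[ℂ] M8 where
  toFun a := -(J8 * tau c (a * J8))
  map_add' a b := by
    have h : tau c ((a + b) * J8) = tau c (a * J8) + tau c (b * J8) := by
      ext r s
      simp only [tau, add_mul, of_apply, Matrix.add_apply, Finset.sum_add_distrib]
    rw [h]; noncomm_ring
  map_smul' z a := by
    have h : tau c ((z • a) * J8) = z • tau c (a * J8) := by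
      ext r s
      simp only [tau, smul_mul_assoc, of_apply, Matrix.smul_apply, smul_eq_mul, Finset.mul_sum,
        mul_assoc]
    rw [h, mul_smul_comm, RingHom.id_apply, smul_neg]

theorem TL_apply (a : M8) : TL c a = -(J8 * tau c (a * J8)) := rfl

theorem TL_sy (hc : Alt4 c) (a : M8) : Sy (TL c a) := by
  unfold Sy
  rw [TL_apply, transpose_neg, transpose_mul, tau_tr hc, J8_tr]
  have h1 : -(-tau c (a * J8) * -J8) * J8 = -(tau c (a * J8) * (J8 * J8)) := by noncomm_ring
  have h2 : J8 * -(J8 * tau c (a * J8)) = -((J8 * J8) * tau c (a * J8)) := by noncomm_ring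
  rw [h1, h2, J8_sq]; noncomm_ring

/-- The pairing attached to `c`. -/
def CC (c : Fin 8 → Fin 8 → Fin 8 → Fin 8 → ℂ) (A B : M8) : ℂ :=
  ∑ p, ∑ q, ∑ r, ∑ s, A p q * B r s * c p q r s

theorem tr_TL (hc : Alt4 c) (a b : M8) : trace (TL c a * b) = CC c (a * J8) (b * J8) := by
  have h1 : trace (TL c a * b) = - trace (tau c (a * J8) * (b * J8)) := by
    rw [TL_apply, neg_mul, trace_neg, mul_assoc, trace_mul_comm, mul_assoc]
  rw [h1]
  simp only [trace, diag_apply, mul_apply (M := tau c (a * J8))]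
  have h2 : ∀ r s, tau c (a * J8) r s = - tau c (a * J8) s r := by
    intro r s
    have := congrFun (congrFun (tau_tr hc (a * J8)) s) r
    simpa using this
  rw [← Finset.sum_neg_distrib]
  have h3 : ∀ r, - ∑ s, tau c (a * J8) r s * (b * J8) s r
      = ∑ s, tau c (a * J8) s r * (b * J8) s r := by
    intro r
    rw [← Finset.sum_neg_distrib]
    refine Finset.sum_congr rfl fun s _ => ?_
    rw [h2 r s]; ring
  rw [Finset.sum_congr rfl fun r _ => h3 r, Finset.sum_comm]
  unfold CC
  have h4 : ∀ s r, tau c (a * J8) s r * (b * J8) s r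
      = ∑ p, ∑ q, (a * J8) p q * (b * J8) s r * c p q s r := by
    intro s r
    simp only [tau, of_apply, Finset.sum_mul]
    refine Finset.sum_congr rfl fun p _ => Finset.sum_congr rfl fun q _ => ?_
    ring
  simp only [h4]
  calc ∑ x, ∑ y, ∑ p, ∑ q, (a * J8) p q * (b * J8) x y * c p q x y
      = ∑ x, ∑ p, ∑ y, ∑ q, (a * J8) p q * (b * J8) x y * c p q x y :=
        Finset.sum_congr rfl fun x _ => Finset.sum_comm
    _ = ∑ p, ∑ x, ∑ y, ∑ q, (a * J8) p q * (b * J8) x y * c p q x y := Finset.sum_comm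
    _ = ∑ p, ∑ x, ∑ q, ∑ y, (a * J8) p q * (b * J8) x y * c p q x y :=
        Finset.sum_congr rfl fun p _ => Finset.sum_congr rfl fun x _ => Finset.sum_comm
    _ = ∑ p, ∑ q, ∑ x, ∑ y, (a * J8) p q * (b * J8) x y * c p q x y :=
        Finset.sum_congr rfl fun p _ => Finset.sum_comm

theorem CC_symm (hc : Alt4 c) (A B : M8) : CC c A B = CC c B A := by
  unfold CC
  calc ∑ p, ∑ q, ∑ r, ∑ s, A p q * B r s * c p q r s
      = ∑ p, ∑ r, ∑ q, ∑ s, A p q * B r s * c p q r s :=
        Finset.sum_congr rfl fun p _ => Finset.sum_comm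
    _ = ∑ r, ∑ p, ∑ q, ∑ s, A p q * B r s * c p q r s := Finset.sum_comm
    _ = ∑ r, ∑ p, ∑ s, ∑ q, A p q * B r s * c p q r s :=
        Finset.sum_congr rfl fun p _ => Finset.sum_congr rfl fun x _ => Finset.sum_comm
    _ = ∑ r, ∑ s, ∑ p, ∑ q, A p q * B r s * c p q r s :=
        Finset.sum_congr rfl fun p _ => Finset.sum_comm
    _ = ∑ r, ∑ s, ∑ p, ∑ q, B r s * A p q * c r s p q := by
        refine Finset.sum_congr rfl fun r _ => Finset.sum_congr rfl fun s _ =>
          Finset.sum_congr rfl fun p _ => Finset.sum_congr rfl fun q _ => ?_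
        rw [hc.swap p q r s]; ring

theorem tr_TL_symm (hc : Alt4 c) (a b : M8) : trace (TL c a * b) = trace (a * TL c b) := by
  rw [tr_TL hc, CC_symm hc, ← tr_TL hc, trace_mul_comm]

/-- Infinitesimal invariance of `c` under a matrix. -/
def Inv (c : Fin 8 → Fin 8 → Fin 8 → Fin 8 → ℂ) (X : M8) : Prop :=
  ∀ p q r s, ∑ t, (X t p * c t q r s + X t q * c p t r s + X t r * c p q t s
    + X t s * c p q r t) = 0

theorem tau_inv {X : M8} (hX : Inv c X) (A : M8) :
    tau c (X * A + A * Xᵀ) = -(Xᵀ * tau c A + tau c A * X) := by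
  ext r s
  have e1 : ∑ p, ∑ q, (X * A) p q * c p q r s
      = ∑ p, ∑ q, A p q * ∑ t, X t p * c t q r s := by
    simp only [mul_apply, Finset.sum_mul, Finset.mul_sum]
    calc ∑ p, ∑ q, ∑ t, X p t * A t q * c p q r s
        = ∑ p, ∑ t, ∑ q, X p t * A t q * c p q r s :=
          Finset.sum_congr rfl fun p _ => Finset.sum_comm
      _ = ∑ t, ∑ p, ∑ q, X p t * A t q * c p q r s := Finset.sum_comm
      _ = ∑ t, ∑ q, ∑ p, X p t * A t q * c p q r s :=
          Finset.sum_congr rfl fun p _ => Finset.sum_comm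
      _ = ∑ t, ∑ q, ∑ p, A t q * (X p t * c p q r s) := by
          refine Finset.sum_congr rfl fun r _ => Finset.sum_congr rfl fun s _ =>
            Finset.sum_congr rfl fun p _ => ?_
          ring
  have e2 : ∑ p, ∑ q, (A * Xᵀ) p q * c p q r s
      = ∑ p, ∑ q, A p q * ∑ t, X t q * c p t r s := by
    simp only [mul_apply, Finset.sum_mul, Finset.mul_sum, transpose_apply]
    calc ∑ p, ∑ q, ∑ t, A p t * X q t * c p q r s
        = ∑ p, ∑ t, ∑ q, A p t * X q t * c p q r s :=
          Finset.sum_congr rfl fun p _ => Finset.sum_comm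
      _ = ∑ p, ∑ t, ∑ q, A p t * (X q t * c p q r s) := by
          refine Finset.sum_congr rfl fun r _ => Finset.sum_congr rfl fun s _ =>
            Finset.sum_congr rfl fun p _ => ?_
          ring
  have e3 : (Xᵀ * tau c A) r s = ∑ p, ∑ q, A p q * ∑ t, X t r * c p q t s := by
    simp only [mul_apply, Finset.mul_sum, transpose_apply, tau, of_apply]
    calc ∑ t, ∑ p, ∑ q, X t r * (A p q * c p q t s)
        = ∑ p, ∑ t, ∑ q, X t r * (A p q * c p q t s) := Finset.sum_comm
      _ = ∑ p, ∑ q, ∑ t, X t r * (A p q * c p q t s) :=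
          Finset.sum_congr rfl fun p _ => Finset.sum_comm
      _ = ∑ p, ∑ q, ∑ t, A p q * (X t r * c p q t s) := by
          refine Finset.sum_congr rfl fun r _ => Finset.sum_congr rfl fun s _ =>
            Finset.sum_congr rfl fun p _ => ?_
          ring
  have e4 : (tau c A * X) r s = ∑ p, ∑ q, A p q * ∑ t, X t s * c p q r t := by
    simp only [mul_apply, Finset.mul_sum, Finset.sum_mul, tau, of_apply]
    calc ∑ t, ∑ p, ∑ q, A p q * c p q r t * X t s
        = ∑ p, ∑ t, ∑ q, A p q * c p q r t * X t s := Finset.sum_comm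
      _ = ∑ p, ∑ q, ∑ t, A p q * c p q r t * X t s :=
          Finset.sum_congr rfl fun p _ => Finset.sum_comm
      _ = ∑ p, ∑ q, ∑ t, A p q * (X t s * c p q r t) := by
          refine Finset.sum_congr rfl fun r _ => Finset.sum_congr rfl fun s _ =>
            Finset.sum_congr rfl fun p _ => ?_
          ring
  have e5 : tau c (X * A + A * Xᵀ) r s
      = ∑ p, ∑ q, (X * A) p q * c p q r s + ∑ p, ∑ q, (A * Xᵀ) p q * c p q r s := by
    simp only [tau, of_apply, Matrix.add_apply, add_mul, Finset.sum_add_distrib]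
  rw [e5, e1, e2, Matrix.neg_apply, Matrix.add_apply, e3, e4, eq_neg_iff_add_eq_zero]
  simp only [← Finset.sum_add_distrib, ← mul_add]
  refine Finset.sum_eq_zero fun p _ => Finset.sum_eq_zero fun q _ => ?_
  have := hX p q r s
  rw [show (∑ t, (X t p * c t q r s + X t q * c p t r s
    + (X t r * c p q t s + X t s * c p q r t))) = 0 by
      rw [← this]; refine Finset.sum_congr rfl fun t _ => by ring, mul_zero]

theorem J8_Xt {X : M8} (h : Sk X) : J8 * Xᵀ = -(X * J8) := by
  rw [sk_iff] at h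
  have h1 : st X * J8 = -X * J8 := by rw [h]
  have h2 : st X * J8 = -(J8 * Xᵀ * (J8 * J8)) := by unfold st; noncomm_ring
  rw [h2, J8_sq] at h1
  calc J8 * Xᵀ = -(J8 * Xᵀ * -1) := by noncomm_ring
    _ = -(X * J8) := by rw [h1]; noncomm_ring

theorem TL_ad {X : M8} (hX : Inv c X) (hs : Sk X) (a : M8) :
    TL c (X * a - a * X) = X * TL c a - TL c a * X := by
  have h := J8_Xt hs
  have h1 : (X * a - a * X) * J8 = X * (a * J8) + (a * J8) * Xᵀ := by
    rw [mul_assoc a J8, h]; noncomm_ring
  rw [TL_apply, h1, tau_inv hX, TL_apply]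
  have h2 : -(J8 * -(Xᵀ * tau c (a * J8) + tau c (a * J8) * X))
      = (J8 * Xᵀ) * tau c (a * J8) + J8 * tau c (a * J8) * X := by noncomm_ring
  rw [h2, h]; noncomm_ring

theorem TL_sk (hc : Alt4 c) {a : M8} (ha : Sk a) : TL c a = 0 := by
  have h : (a * J8)ᵀ = a * J8 := by
    rw [transpose_mul, J8_tr, neg_mul, J8_Xt ha, neg_neg]
  have h1 : tau c (a * J8) = 0 := by
    ext r s
    have h2 : ∀ p q, (a * J8) q p = (a * J8) p q := by
      intro p q
      have := congrFun (congrFun h p) q
      simpa using this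
    have h3 : ∑ p, ∑ q, (a * J8) p q * c p q r s = - ∑ p, ∑ q, (a * J8) p q * c p q r s := by
      conv_lhs => rw [Finset.sum_comm]
      rw [← Finset.sum_neg_distrib]
      refine Finset.sum_congr rfl fun p _ => ?_
      rw [← Finset.sum_neg_distrib]
      refine Finset.sum_congr rfl fun q _ => ?_
      rw [h2 p q, hc.s1 p q r s]; ring
    have h4 : ∑ p, ∑ q, (a * J8) p q * c p q r s = 0 := by
      linear_combination (1 / 2 : ℂ) * h3
    simpa [tau] using h4
  rw [TL_apply, h1, mul_zero, neg_zero]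

/-- Every matrix is the sum of a self-adjoint and a skew-adjoint matrix. -/
theorem sy_add_sk (a : M8) : ∃ b d, Sy b ∧ Sk d ∧ a = b + d := by
  refine ⟨(1 / 2 : ℂ) • (a + st a), (1 / 2 : ℂ) • (a - st a), ?_, ?_, ?_⟩
  · rw [sy_iff, st_smul, st_add, st_st, add_comm]
  · rw [sk_iff, st_smul, st_sub, st_st, ← smul_neg, neg_sub]
  · rw [← smul_add]
    have : a + st a + (a - st a) = (2 : ℂ) • a := by rw [two_smul]; abel
    rw [this, smul_smul]; norm_num

/-- If the contraction operator vanishes then `c` vanishes. -/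
theorem c_zero_of_TL (h : ∀ a, TL c a = 0) : c = 0 := by
  have h1 : ∀ A : M8, tau c A = 0 := by
    intro A
    have h2 := h (-(A * J8))
    rw [TL_apply] at h2
    have h3 : -(A * J8) * J8 = A := by
      have : -(A * J8) * J8 = -(A * (J8 * J8)) := by noncomm_ring
      rw [this, J8_sq]; noncomm_ring
    rw [h3] at h2
    have h4 : J8 * (-(J8 * tau c A)) = 0 := by rw [h2, mul_zero]
    have h5 : J8 * (-(J8 * tau c A)) = -(J8 * J8) * tau c A := by noncomm_ring
    rw [h5, J8_sq, neg_neg, one_mul] at h4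
    exact h4
  funext p q r s
  have h2 := congrFun (congrFun (h1 (Matrix.single p q 1)) r) s
  simp only [tau, of_apply, Matrix.zero_apply] at h2
  rw [Finset.sum_eq_single p, Finset.sum_eq_single q] at h2
  · simpa using h2
  · intro q' _ hq'
    rw [Matrix.single_apply_of_col_ne _ _ (Ne.symm hq'), zero_mul]
  · intro h; exact absurd (Finset.mem_univ _) h
  · intro p' _ hp'
    refine Finset.sum_eq_zero fun q' _ => ?_
    rw [Matrix.single_apply_of_row_ne (Ne.symm hp'), zero_mul]
  · intro h; exact absurd (Finset.mem_univ _) h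

end Pool.Agent.V5helper88.F4
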