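import Pool.Agent.V5helper88.T
import Pool.Agent.Y800.Lin

/-!
The contraction operator of a class orthogonal to all products kills the commutant, and, if it
does not vanish, it produces a stable space of self-adjoint matrices satisfying Clifford relations.
-/

namespace Pool.Agent.V5helper88.F4

open Matrix

/-- Commuting with all elements of `H`. -/
def Cm (H : Set M8) (P : M8) : Prop := ∀ X ∈ H, P * X = X * P

/-- The conditions on a set of skew-adjoint matrices. -/
structure Ctx (H : Set M8) : Prop where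
  sk : ∀ X ∈ H, Sk X
  comm : ∀ P, Cm H P → Sy P
  nondeg : ∀ Y : Submodule ℂ (Fin 8 → ℂ), (∀ X ∈ H, ∀ v ∈ Y, X *ᵥ v ∈ Y) →
    (∀ v ∈ Y, ∀ w ∈ Y, v ⬝ᵥ (J8 *ᵥ w) = 0) → Y = ⊥

/-- The conditions on an invariant class orthogonal to products. -/
structure Cls (H : Set M8) (c : Fin 8 → Fin 8 → Fin 8 → Fin 8 → ℂ) : Prop where
  alt : Alt4 c
  inv : ∀ X ∈ H, Inv c X
  orth : ∀ P Q, Cm H P → Cm H Q → CC c (P * J8) (Q * J8) = 0

variable {H : Set M8} {c : Fin 8 → Fin 8 → Fin 8 → Fin 8 → ℂ}

theorem Cm.mul {P Q : M8} (hP : Cm H P) (hQ : Cm H Q) : Cm H (P * Q) := by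
  intro X hX
  rw [mul_assoc, hQ X hX, ← mul_assoc, hP X hX, mul_assoc]

theorem Cm.one : Cm H 1 := fun X _ => by rw [one_mul, mul_one]

theorem Cm.pow {P : M8} (hP : Cm H P) (n : ℕ) : Cm H (P ^ n) := by
  induction n with
  | zero => rw [pow_zero]; exact Cm.one
  | succ n ih => rw [pow_succ]; exact ih.mul hP

theorem Cm.aeval {P : M8} (hP : Cm H P) (f : Polynomial ℂ) : Cm H (Polynomial.aeval P f) := by
  induction f using Polynomial.induction_on' with
  | add p q hp hq =>
    intro X hX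
    rw [map_add, add_mul, mul_add, hp X hX, hq X hX]
  | monomial n a =>
    intro X hX
    rw [Polynomial.aeval_monomial, Algebra.algebraMap_eq_smul_one, smul_mul_assoc, one_mul,
      smul_mul_assoc, mul_smul_comm, hP.pow n X hX]

theorem mulVec_dot (A : M8) (v w : Fin 8 → ℂ) : (A *ᵥ v) ⬝ᵥ w = v ⬝ᵥ (Aᵀ *ᵥ w) := by
  rw [dotProduct_mulVec, vecMul_transpose]

theorem Cm.sq_zero (hH : Ctx H) {Q : M8} (hQ : Cm H Q) (h : Q * Q = 0) : Q = 0 := by
  have h1 : LinearMap.range (Matrix.toLin' Q) = ⊥ := by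
    refine hH.nondeg _ ?_ ?_
    · rintro X hX _ ⟨v, rfl⟩
      refine ⟨X *ᵥ v, ?_⟩
      rw [toLin'_apply, toLin'_apply, mulVec_mulVec, mulVec_mulVec, hQ X hX]
    · rintro _ ⟨v, rfl⟩ _ ⟨w, rfl⟩
      rw [toLin'_apply, toLin'_apply, mulVec_dot, mulVec_mulVec, mulVec_mulVec,
        hH.comm Q hQ, mul_assoc, h, mul_zero, zero_mulVec, dotProduct_zero]
  rw [LinearMap.range_eq_bot] at h1
  exact (Matrix.toLin'.map_eq_zero_iff).1 h1

theorem Cm.nilp_zero (hH : Ctx H) {P : M8} (hP : Cm H P) (h : IsNilpotent P) : P = 0 := by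
  by_contra hP0
  have h1 : P ^ nilpotencyClass P = 0 := pow_nilpotencyClass h
  have h2 : P ^ (nilpotencyClass P - 1) ≠ 0 := pow_pred_nilpotencyClass h
  have h3 : nilpotencyClass P ≠ 0 := by
    intro h4; rw [h4, pow_zero] at h1
    exact one_ne_zero h1
  have h4 : nilpotencyClass P ≠ 1 := by
    intro h4; rw [h4, pow_one] at h1
    exact hP0 h1
  apply h2
  refine (hP.pow _).sq_zero hH ?_
  rw [← pow_add, show nilpotencyClass P - 1 + (nilpotencyClass P - 1)
    = nilpotencyClass P + (nilpotencyClass P - 2) by omega, pow_add, h1, zero_mul]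

theorem Cm.tr_zero (hH : Ctx H) {P : M8} (hP : Cm H P)
    (h : ∀ Q, Cm H Q → trace (P * Q) = 0) : P = 0 := by
  refine hP.nilp_zero hH (Pool.Agent.Y800.nilpotent_of_trace ?_ ?_)
  · intro m hm _
    exact Nat.cast_ne_zero.mpr (by omega)
  · intro f
    rw [trace_mul_comm]
    exact h _ (hP.aeval f)

theorem TL_Cm (hH : Ctx H) (hc : Cls H c) {P : M8} (hP : Cm H P) : TL c P = 0 := by
  refine Cm.tr_zero hH (H := H) (P := TL c P) ?_ ?_
  · intro X hX
    have h := TL_ad (hc.inv X hX) (hH.sk X hX) P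
    rw [← hP X hX, sub_self, map_zero] at h
    exact (sub_eq_zero.mp h.symm).symm
  · intro Q hQ
    rw [tr_TL hc.alt]
    exact hc.orth P Q hP hQ

theorem tau_J8 (hH : Ctx H) (hc : Cls H c) : tau c J8 = 0 := by
  have h := TL_Cm hH hc Cm.one
  rw [TL_apply, one_mul] at h
  have h4 : J8 * (-(J8 * tau c J8)) = 0 := by rw [h, mul_zero]
  have h5 : J8 * (-(J8 * tau c J8)) = -(J8 * J8) * tau c J8 := by noncomm_ring
  rw [h5, J8_sq, neg_neg, one_mul] at h4
  exact h4

theorem cubic (hc : Alt4 c) (hp : tau c J8 = 0) {a : M8} (ha : Sy a) (ht : trace a = 0) :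
    trace (TL c a * (a * a)) = 0 := by
  set A : M8 := a * J8 with hAdef
  have hst : st a = a := (sy_iff a).mp ha
  have hJa : J8 * aᵀ = a * J8 := by
    have h1 : st a * J8 = a * J8 := by rw [hst]
    have h2 : st a * J8 = -(J8 * aᵀ * (J8 * J8)) := by unfold st; noncomm_ring
    rw [h2, J8_sq] at h1
    rw [← h1]; noncomm_ring
  have hA : ∀ p q, A q p = - A p q := by
    have h1 : Aᵀ = -A := by
      rw [hAdef, transpose_mul, J8_tr, neg_mul, hJa]
    intro p q
    have := congrFun (congrFun h1 p) q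
    simpa using this
  have e : ∀ i, A i 0 = -a i 1 ∧ A i 1 = a i 0 ∧ A i 2 = -a i 3 ∧ A i 3 = a i 2 ∧
      A i 4 = -a i 5 ∧ A i 5 = a i 4 ∧ A i 6 = -a i 7 ∧ A i 7 = a i 6 := by
    intro i
    refine ⟨?_, ?_, ?_, ?_, ?_, ?_, ?_, ?_⟩ <;>
      simp [hAdef, mul_apply, Fin.sum_univ_eight, J8]
  have htA : A 0 1 + A 2 3 + A 4 5 + A 6 7 = 0 := by
    have h1 : trace a = a 0 0 + a 1 1 + a 2 2 + a 3 3 + a 4 4 + a 5 5 + a 6 6 + a 7 7 := by
      simp only [trace, diag_apply, Fin.sum_univ_eight]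
    rw [ht] at h1
    have k1 := (e 1).1
    have k3 := (e 3).2.2.1
    have k5 := (e 5).2.2.2.2.1
    have k7 := (e 7).2.2.2.2.2.2.1
    have l0 := (e 0).2.1
    have l2 := (e 2).2.2.2.1
    have l4 := (e 4).2.2.2.2.2.1
    have l6 := (e 6).2.2.2.2.2.2.2
    have m1 := hA 0 1
    have m2 := hA 2 3
    have m3 := hA 4 5
    have m4 := hA 6 7
    linear_combination (1 / 2 : ℂ) * (l0 + l2 + l4 + l6 - h1 - k1 - k3 - k5 - k7
      + m1 + m2 + m3 + m4)
  have hpr : ∀ r s, c 0 1 r s + c 2 3 r s + c 4 5 r s + c 6 7 r s = 0 := by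
    intro r s
    have h1 := congrFun (congrFun hp r) s
    simp only [tau, of_apply, Matrix.zero_apply, Fin.sum_univ_eight] at h1
    simp [J8] at h1
    have m1 := hc.s1 0 1 r s
    have m2 := hc.s1 2 3 r s
    have m3 := hc.s1 4 5 r s
    have m4 := hc.s1 6 7 r s
    linear_combination (1 / 2 : ℂ) * (h1 + m1 + m2 + m3 + m4)
  have hB : ∀ r s, (a * a * J8) r s = - Bq A r s := by
    intro r s
    have h1 : a * a * J8 = -(A * J8 * A) := by
      rw [hAdef]
      have : a * J8 * J8 * (a * J8) = a * (J8 * J8) * (a * J8) := by noncomm_ring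
      rw [this, J8_sq]; noncomm_ring
    rw [h1]
    simp only [Matrix.neg_apply, mul_apply, Fin.sum_univ_eight, Bq, J8, of_apply]
    simp
    ring
  rw [tr_TL hc]
  have h := prim_id hA htA hc hpr
  unfold CC
  have h2 : ∀ p q r s, A p q * (a * a * J8) r s * c p q r s
      = - (A p q * Bq A r s * c p q r s) := by
    intro p q r s
    rw [hB]; ring
  simp only [← hAdef, h2, Finset.sum_neg_distrib]
  rw [h, neg_zero]

theorem Sy.add {a b : M8} (ha : Sy a) (hb : Sy b) : Sy (a + b) := by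
  unfold Sy at *
  rw [transpose_add, add_mul, mul_add, ha, hb]

theorem Sy.smul {a : M8} (z : ℂ) (ha : Sy a) : Sy (z • a) := by
  unfold Sy at *
  rw [transpose_smul, smul_mul_assoc, mul_smul_comm, ha]

theorem polar (hc : Alt4 c) (hp : tau c J8 = 0) {a b d : M8} (ha : Sy a) (hb : Sy b)
    (hd : Sy d) (ta : trace a = 0) (tb : trace b = 0) (td : trace d = 0) :
    trace (TL c a * (b * d + d * b)) + trace (TL c b * (a * d + d * a))
      + trace (TL c d * (a * b + b * a)) = 0 := by
  have e1 := cubic hc hp ((ha.add hb).add hd) (by rw [trace_add, trace_add, ta, tb, td]; ring)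
  have e2 := cubic hc hp (ha.add hb) (by rw [trace_add, ta, tb]; ring)
  have e3 := cubic hc hp (ha.add hd) (by rw [trace_add, ta, td]; ring)
  have e4 := cubic hc hp (hb.add hd) (by rw [trace_add, tb, td]; ring)
  have e5 := cubic hc hp ha ta
  have e6 := cubic hc hp hb tb
  have e7 := cubic hc hp hd td
  simp only [map_add, mul_add, add_mul, trace_add] at e1 e2 e3 e4 e5 e6 e7 ⊢
  linear_combination e1 - e2 - e3 - e4 + e5 + e6 + e7

/-- Traceless self-adjoint matrices. -/
def S0 : Submodule ℂ M8 where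
  carrier := {a | Sy a ∧ trace a = 0}
  zero_mem' := ⟨by unfold Sy; simp, by simp⟩
  add_mem' := fun {a b} ha hb => ⟨ha.1.add hb.1, by rw [trace_add, ha.2, hb.2, add_zero]⟩
  smul_mem' := fun z a ha => ⟨ha.1.smul z, by rw [trace_smul, ha.2, smul_zero]⟩

/-- The symmetric trilinear form. -/
def Psi : S0 →ₗ[ℂ] S0 →ₗ[ℂ] S0 →ₗ[ℂ] ℂ :=
  LinearMap.mk₂ ℂ (fun a b =>
    { toFun := fun d => trace ((a : M8) * ((b : M8) * (d : M8) + (d : M8) * (b : M8)))
      map_add' := fun x y => by
        simp only [Submodule.coe_add, mul_add, add_mul, trace_add]; ring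
      map_smul' := fun z x => by
        simp only [Submodule.coe_smul, mul_smul_comm, smul_mul_assoc, ← smul_add, trace_smul,
          RingHom.id_apply] })
    (fun x y b => by
      ext d
      simp only [LinearMap.coe_mk, AddHom.coe_mk, LinearMap.add_apply, Submodule.coe_add,
        add_mul, trace_add])
    (fun z x b => by
      ext d
      simp only [LinearMap.coe_mk, AddHom.coe_mk, LinearMap.smul_apply, Submodule.coe_smul,
        smul_mul_assoc, trace_smul])
    (fun a x y => by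
      ext d
      simp only [LinearMap.coe_mk, AddHom.coe_mk, LinearMap.add_apply, Submodule.coe_add,
        mul_add, add_mul, trace_add]; ring)
    (fun z a b => by
      ext d
      simp only [LinearMap.coe_mk, AddHom.coe_mk, LinearMap.smul_apply, Submodule.coe_smul,
        smul_mul_assoc, mul_smul_comm, ← smul_add, trace_smul])

theorem Psi_apply (a b d : S0) :
    Psi a b d = trace ((a : M8) * ((b : M8) * (d : M8) + (d : M8) * (b : M8))) := rfl

/-- The space of Clifford type produced by a nonzero class. -/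
structure CliffU (H : Set M8) (U : Submodule ℂ M8) : Prop where
  ne : U ≠ ⊥
  sy : ∀ a ∈ U, Sy a
  tr0 : ∀ a ∈ U, trace a = 0
  trD : ∀ a ∈ U, ∀ P, Cm H P → trace (a * P) = 0
  ad : ∀ X ∈ H, ∀ a ∈ U, X * a - a * X ∈ U
  cl : ∀ a ∈ U, ∀ b ∈ U, a * b + b * a = (trace (a * b) / 4) • (1 : M8)

theorem sy_of_orth {m : M8} (hm : Sy m) (h : ∀ d, Sy d → trace (m * d) = 0) : m = 0 := by
  have h1 : ∀ x : M8, trace (m * x) = 0 := by
    intro x
    obtain ⟨b, d, hb, hd, rfl⟩ := sy_add_sk x
    rw [mul_add, trace_add, h b hb, tr_sy_sk hm hd, add_zero]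
  ext i j
  have h2 := h1 (Matrix.single j i 1)
  rw [trace_mul_comm, Matrix.trace_single_mul] at h2
  simpa using h2

theorem exists_cliffU (hH : Ctx H) (hc : Cls H c) (h0 : c ≠ 0) :
    ∃ U : Submodule ℂ M8, CliffU H U := by
  have hp := tau_J8 hH hc
  have hT1 : ∀ a, trace (TL c a) = 0 := by
    intro a
    have h := tr_TL_symm hc.alt a 1
    rw [TL_Cm hH hc Cm.one, mul_one, mul_zero, trace_zero] at h
    exact h
  have hTS : ∀ a ∈ S0, TL c a ∈ S0 := fun a _ => ⟨TL_sy hc.alt a, hT1 a⟩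
  set T0 : Module.End ℂ S0 := (TL c).restrict hTS with hT0
  have hT0a : ∀ a : S0, ((T0 a : S0) : M8) = TL c a := fun a => rfl
  have hne : T0 ≠ 0 := by
    intro h
    apply h0
    apply c_zero_of_TL
    intro a
    obtain ⟨b, d, hb, hd, rfl⟩ := sy_add_sk a
    rw [map_add, TL_sk hc.alt hd, add_zero]
    have hb' : b - (trace b / 8) • (1 : M8) ∈ S0 := by
      refine ⟨?_, ?_⟩
      · rw [sub_eq_add_neg, ← neg_smul]
        exact hb.add (Sy.smul _ (by unfold Sy; simp))
      · rw [trace_sub, trace_smul, trace_one, Fintype.card_fin]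
        simp only [smul_eq_mul]; push_cast; ring
    have h1 : TL c (b - (trace b / 8) • (1 : M8)) = 0 := by
      have h2 := hT0a ⟨_, hb'⟩
      rw [h] at h2
      exact h2.symm
    rw [map_sub, map_smul, TL_Cm hH hc Cm.one, smul_zero, sub_zero] at h1
    exact h1
  obtain ⟨U0, hU0, hUr, hUF, hUΨ⟩ := extreme T0 Psi (by
    intro a b d
    rw [Psi_apply, Psi_apply, Psi_apply, hT0a, hT0a, hT0a]
    have h := polar hc.alt hp a.2.1 b.2.1 d.2.1 a.2.2 b.2.2 d.2.2
    have k1 : trace ((a : M8) * (TL c (b : M8) * (d : M8) + (d : M8) * TL c (b : M8)))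
        = trace (TL c (b : M8) * ((a : M8) * (d : M8) + (d : M8) * (a : M8))) := by
      simp only [mul_add, trace_add]
      rw [trace_mul_comm (a : M8) (TL c (b : M8) * (d : M8)), mul_assoc, 
        ← mul_assoc (a : M8) (d : M8), trace_mul_comm ((a : M8) * (d : M8))]
      ring
    have k2 : trace ((a : M8) * ((b : M8) * TL c (d : M8) + TL c (d : M8) * (b : M8)))
        = trace (TL c (d : M8) * ((a : M8) * (b : M8) + (b : M8) * (a : M8))) := by
      simp only [mul_add, trace_add]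
      rw [← mul_assoc (a : M8) (b : M8), trace_mul_comm ((a : M8) * (b : M8)),
        trace_mul_comm (a : M8) (TL c (d : M8) * (b : M8)), mul_assoc]
    rw [k1, k2]; exact h) hne
  refine ⟨U0.map S0.subtype, ?_⟩
  have hmem : ∀ a, a ∈ U0.map S0.subtype → ∃ a' : S0, a' ∈ U0 ∧ (a' : M8) = a := by
    rintro a ⟨a', ha', rfl⟩
    exact ⟨a', ha', rfl⟩
  refine ⟨?_, ?_, ?_, ?_, ?_, ?_⟩
  · intro h
    apply hU0
    exact Submodule.map_injective_of_injective S0.injective_subtype
      (h.trans (Submodule.map_bot _).symm)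
  · intro a ha
    obtain ⟨a', _, rfl⟩ := hmem a ha
    exact a'.2.1
  · intro a ha
    obtain ⟨a', _, rfl⟩ := hmem a ha
    exact a'.2.2
  · intro a ha P hP
    obtain ⟨a', ha', rfl⟩ := hmem a ha
    obtain ⟨x, rfl⟩ := hUr ha'
    rw [hT0a, tr_TL_symm hc.alt, TL_Cm hH hc hP, mul_zero, trace_zero]
  · intro X hX a ha
    obtain ⟨a', ha', rfl⟩ := hmem a ha
    have hXS : ∀ a ∈ S0, X * a - a * X ∈ S0 := by
      intro a ha
      refine ⟨?_, ?_⟩
      · rw [sy_iff, st_sub, st_mul, st_mul, (sy_iff a).mp ha.1, (sk_iff X).mp (hH.sk X hX)]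
        noncomm_ring
      · rw [trace_sub, trace_mul_comm, sub_self]
    let F0 : Module.End ℂ M8 := LinearMap.mulLeft ℂ X - LinearMap.mulRight ℂ X
    have hF0 : ∀ a, F0 a = X * a - a * X := fun a => rfl
    let F : Module.End ℂ S0 := F0.restrict (p := S0) (q := S0) (fun a ha => by
      rw [hF0]; exact hXS a ha)
    have hFa : ∀ a : S0, ((F a : S0) : M8) = X * (a : M8) - (a : M8) * X := fun a => rfl
    have hcm : Commute F T0 := by
      refine LinearMap.ext fun x => Subtype.ext ?_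
      rw [Module.End.mul_apply, Module.End.mul_apply, hFa, hT0a, hT0a, hFa,
        TL_ad (hc.inv X hX) (hH.sk X hX)]
    exact ⟨F a', hUF F hcm a' ha', hFa a'⟩
  · intro a ha b hb
    obtain ⟨a', ha', rfl⟩ := hmem a ha
    obtain ⟨b', hb', rfl⟩ := hmem b hb
    set m : M8 := (a' : M8) * (b' : M8) + (b' : M8) * (a' : M8) with hm
    have hsa := (sy_iff _).mp a'.2.1
    have hsb := (sy_iff _).mp b'.2.1
    have hms : Sy m := by
      rw [sy_iff, hm, st_add, st_mul, st_mul, hsa, hsb, add_comm]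
    have htm : trace m = 2 * trace ((a' : M8) * (b' : M8)) := by
      rw [hm, trace_add, trace_mul_comm (b' : M8)]; ring
    have h1s : Sy (1 : M8) := by unfold Sy; simp
    have h2 : m - (trace ((a' : M8) * (b' : M8)) / 4) • (1 : M8) = 0 := by
      refine sy_of_orth ?_ ?_
      · rw [sub_eq_add_neg, ← neg_smul]
        exact hms.add (Sy.smul _ h1s)
      · intro d hd
        have hd' : d - (trace d / 8) • (1 : M8) ∈ S0 := by
          refine ⟨?_, ?_⟩
          · rw [sub_eq_add_neg, ← neg_smul]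
            exact hd.add (Sy.smul _ h1s)
          · rw [trace_sub, trace_smul, trace_one, Fintype.card_fin]
            simp only [smul_eq_mul]; push_cast; ring
        have h3 := hUΨ a' ha' b' hb' ⟨_, hd'⟩
        rw [Psi_apply] at h3
        have h4 : trace ((a' : M8) * ((b' : M8) * (d - (trace d / 8) • (1 : M8))
            + (d - (trace d / 8) • (1 : M8)) * (b' : M8)))
            = trace (m * (d - (trace d / 8) • (1 : M8))) := by
          rw [hm, mul_add, trace_add, add_mul, trace_add, ← mul_assoc,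
            ← mul_assoc (a' : M8) _ (b' : M8), trace_mul_comm _ (b' : M8), ← mul_assoc (b' : M8)]
        rw [h4, mul_sub, trace_sub, mul_smul_comm, mul_one, trace_smul, htm] at h3
        rw [sub_mul, trace_sub, smul_mul_assoc, one_mul, trace_smul]
        simp only [smul_eq_mul] at h3 ⊢
        linear_combination h3
    exact sub_eq_zero.mp h2

end Pool.Agent.V5helper88.F4
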