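import Pool.Agent.V5helper88.C1
import Pool.Agent.Y122.HPDar
import Pool.Agent.N492.LCAP1
import Pool.Agent.Y102.V8

/-!
Transfer between the rational homology of an abelian fourfold and complex matrices of size eight.
-/

set_option autoImplicit false

namespace Pool.Agent.V5helper88.F4

open Matrix Module Pool.Agent.Y102 Pool.Agent.W516.DR Pool.Agent.H204R3.GP Pool.Agent.W516.KC
  Pool.Agent.H204R3.SP

noncomputable section

/-- Rational matrices of size eight. -/
abbrev Q8 : Type := Matrix (Fin 8) (Fin 8) ℚ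

/-- The complex matrix of a rational matrix. -/
def cc (X : Q8) : M8 := X.map (algebraMap ℚ ℂ)

/-- The standard symplectic matrix over the rational numbers. -/
def JQ : Q8 := Matrix.of fun i j =>
  if j.val = i.val + 1 ∧ i.val % 2 = 0 then 1
  else if i.val = j.val + 1 ∧ j.val % 2 = 0 then -1 else 0

theorem cc_J : cc JQ = J8 := by
  ext i j
  simp only [cc, JQ, J8, Matrix.map_apply, Matrix.of_apply]
  split_ifs <;> simp

theorem JQ_sq : JQ * JQ = -1 := by
  ext i j
  fin_cases i <;> fin_cases j <;>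
    simp [JQ, Matrix.mul_apply, Fin.sum_univ_eight]

theorem JQ_tr : JQᵀ = -JQ := by
  ext i j
  fin_cases i <;> fin_cases j <;> simp [JQ]

theorem JQ_diag (i : Fin 8) : JQ i i = 0 := by
  fin_cases i <;> simp [JQ]

theorem JQ_det : JQ.det ≠ 0 := by
  intro h
  have h1 : (JQ * JQ).det = 0 := by rw [det_mul, h, mul_zero]
  rw [JQ_sq, det_neg, det_one] at h1
  simp at h1

theorem cc_mul (X Y : Q8) : cc (X * Y) = cc X * cc Y := by
  unfold cc; rw [Matrix.map_mul]

theorem cc_add (X Y : Q8) : cc (X + Y) = cc X + cc Y := by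
  unfold cc; rw [Matrix.map_add]; intro a b; rw [map_add]

theorem cc_neg (X : Q8) : cc (-X) = - cc X := by
  ext i j; simp [cc]

theorem cc_one : cc 1 = 1 := by
  unfold cc; rw [Matrix.map_one] <;> simp

theorem cc_zero : cc 0 = 0 := by
  ext i j; simp [cc]

theorem cc_tr (X : Q8) : cc Xᵀ = (cc X)ᵀ := by
  ext i j; simp [cc]

theorem cc_inj {X Y : Q8} (h : cc X = cc Y) : X = Y := by
  ext i j
  have h1 := congrFun (congrFun h i) j
  simpa [cc] using h1

/-- The image of a complex matrix under a rational functional. -/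
def lm (l : ℂ →ₗ[ℚ] ℚ) (P : M8) : Q8 := P.map l

theorem lm_mul_cc (l : ℂ →ₗ[ℚ] ℚ) (P : M8) (X : Q8) : lm l (P * cc X) = lm l P * X := by
  ext i j
  simp only [lm, Matrix.map_apply, mul_apply, cc, map_sum]
  refine Finset.sum_congr rfl fun k _ => ?_
  have : P i k * (algebraMap ℚ ℂ) (X k j) = X k j • P i k := by
    rw [Algebra.smul_def, mul_comm]
  rw [this, map_smul, smul_eq_mul, mul_comm]

theorem lm_cc_mul (l : ℂ →ₗ[ℚ] ℚ) (P : M8) (X : Q8) : lm l (cc X * P) = X * lm l P := by
  ext i j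
  simp only [lm, Matrix.map_apply, mul_apply, cc, map_sum]
  refine Finset.sum_congr rfl fun k _ => ?_
  have : (algebraMap ℚ ℂ) (X i k) * P k j = X i k • P k j := by
    rw [Algebra.smul_def]
  rw [this, map_smul, smul_eq_mul]

theorem lm_ext {P Q : M8} (h : ∀ l : ℂ →ₗ[ℚ] ℚ, lm l P = lm l Q) : P = Q := by
  ext i j
  rw [← sub_eq_zero]
  refine (Module.forall_dual_apply_eq_zero_iff ℚ _).mp fun l => ?_
  have h1 := congrFun (congrFun (h l) i) j
  simp only [lm, Matrix.map_apply] at h1
  rw [map_sub, h1, sub_self]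

theorem lm_tr (l : ℂ →ₗ[ℚ] ℚ) (P : M8) : lm l Pᵀ = (lm l P)ᵀ := by
  ext i j; simp [lm]

theorem lm_neg (l : ℂ →ₗ[ℚ] ℚ) (P : M8) : lm l (-P) = - lm l P := by
  ext i j; simp [lm]

theorem lm_sy {l : ℂ →ₗ[ℚ] ℚ} {P : M8} (h : Sy P) : (lm l P)ᵀ * JQ = JQ * lm l P := by
  rw [← lm_tr, ← lm_mul_cc, ← lm_cc_mul, cc_J, h]

theorem sy_of_lm {P : M8} (h : ∀ l : ℂ →ₗ[ℚ] ℚ, (lm l P)ᵀ * JQ = JQ * lm l P) : Sy P := by
  refine lm_ext fun l => ?_
  have h1 := h l
  rw [← lm_tr, ← lm_mul_cc, ← lm_cc_mul, cc_J] at h1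
  exact h1

theorem trace_lm (l : ℂ →ₗ[ℚ] ℚ) (P : M8) : trace (lm l P) = l (trace P) := by
  simp only [trace, diag_apply, lm, Matrix.map_apply, map_sum]

/-- A complex matrix all of whose rational components are in a rational space is in the complex
span of this space. -/
theorem mem_span_of_lm (S : Submodule ℚ Q8) (P : M8) (h : ∀ l : ℂ →ₗ[ℚ] ℚ, lm l P ∈ S) :
    P ∈ Submodule.span ℂ {Z | ∃ X ∈ S, Z = cc X} := by
  classical
  let B := Basis.ofVectorSpace ℚ ℂ
  let F : Finset _ := Finset.univ.biUnion fun p : Fin 8 × Fin 8 => (B.repr (P p.1 p.2)).support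
  have h1 : P = ∑ k ∈ F, B k • cc (lm (B.coord k) P) := by
    ext i j
    rw [Matrix.sum_apply]
    simp only [Matrix.smul_apply, cc, lm, Matrix.map_apply, smul_eq_mul]
    conv_lhs => rw [← B.linearCombination_repr (P i j)]
    rw [Finsupp.linearCombination_apply, Finsupp.sum]
    have hsub : (B.repr (P i j)).support ⊆ F := fun k hk =>
      Finset.mem_biUnion.mpr ⟨(i, j), Finset.mem_univ _, hk⟩
    rw [Finset.sum_subset hsub]
    · refine Finset.sum_congr rfl fun k _ => ?_
      rw [Algebra.smul_def, mul_comm, Basis.coord_apply]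
    · intro k _ hk
      rw [Finsupp.notMem_support_iff] at hk
      rw [hk, zero_smul]
  rw [h1]
  refine Submodule.sum_mem _ fun k _ => Submodule.smul_mem _ _ (Submodule.subset_span ⟨_, h _, rfl⟩)

variable (A : AbVar 4)

/-- A symplectic basis of the rational homology. -/
theorem exists_basis : ∃ b : Basis (Fin 8) ℚ A.H1, ∀ i j, A.om (b i) (b j) = JQ i j := by
  let e : Basis (Fin 8) ℚ A.H1 := Pi.basisFun ℚ (Fin 8)
  let O : Q8 := Matrix.of fun i j => A.om (e i) (e j)
  have hO : Oᵀ = -O := by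
    ext i j
    simp only [O, transpose_apply, of_apply, Matrix.neg_apply]
    exact A.om_anti _ _
  have hO0 : ∀ i, O i i = 0 := by
    intro i
    have h1 := A.om_anti (e i) (e i)
    simp only [O, of_apply]
    linarith
  have hom : ∀ u v : A.H1, A.om u v = ∑ i, ∑ j, e.repr u i * (e.repr v j * O i j) := by
    intro u v
    conv_lhs => rw [← e.sum_repr u, ← e.sum_repr v]
    simp only [map_sum, LinearMap.sum_apply, map_smul, LinearMap.smul_apply, smul_eq_mul, O,
      of_apply, Finset.mul_sum]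
    rw [Finset.sum_comm]
    refine Finset.sum_congr rfl fun k _ => Finset.sum_congr rfl fun l _ => ?_
    ring
  have hOd : O.det ≠ 0 := by
    intro h0
    obtain ⟨v, hv0, hv⟩ := Matrix.exists_mulVec_eq_zero_iff.mpr h0
    apply hv0
    have h1 : (e.repr.symm (Finsupp.equivFunOnFinite.symm v) : A.H1) = 0 := by
      apply A.om_nondeg
      intro w
      rw [A.om_anti, hom]
      have h2 : ∀ j, e.repr (e.repr.symm (Finsupp.equivFunOnFinite.symm v)) j = v j := by
        intro j; simp
      simp only [h2]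
      have h3 : ∀ i, ∑ j, e.repr w i * (v j * O i j) = 0 := by
        intro i
        rw [← Finset.mul_sum]
        have h4 := congrFun hv i
        simp only [mulVec, dotProduct, Pi.zero_apply] at h4
        rw [show ∑ j, v j * O i j = ∑ j, O i j * v j from
          Finset.sum_congr rfl fun j _ => mul_comm _ _, h4, mul_zero]
      rw [Finset.sum_eq_zero fun i _ => h3 i, neg_zero]
    have h2 := congrArg e.repr h1
    rw [LinearEquiv.apply_symm_apply, map_zero] at h2
    funext j
    have h3 := DFunLike.congr_fun h2 j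
    simpa using h3
  obtain ⟨U, hU, hUO⟩ := Pool.Agent.Y122.HPDar.darboux O JQ hO hO0 hOd JQ_tr JQ_diag JQ_det
  have hUu : IsUnit (Uᵀ) := by
    rw [Matrix.isUnit_iff_isUnit_det, det_transpose]
    exact isUnit_iff_ne_zero.mpr hU
  let f : (Fin 8 → ℚ) ≃ₗ[ℚ] (Fin 8 → ℚ) :=
    Matrix.toLinearEquiv' Uᵀ (by
      have := hUu.invertible
      exact this)
  refine ⟨(Pi.basisFun ℚ (Fin 8)).map f, fun i j => ?_⟩
  have hb : ∀ i, ((Pi.basisFun ℚ (Fin 8)).map f) i = fun k => U i k := by
    intro i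
    rw [Basis.map_apply, Pi.basisFun_apply]
    funext k
    change (Uᵀ *ᵥ Pi.single i 1) k = _
    rw [Matrix.mulVec_single_one]
    rfl
  have h1 : A.om (((Pi.basisFun ℚ (Fin 8)).map f) i) (((Pi.basisFun ℚ (Fin 8)).map f) j)
      = (U * O * Uᵀ) i j := by
    rw [hb, hb, hom]
    have h2 : ∀ (w : Fin 8 → ℚ) k, e.repr w k = w k := fun w k => by simp [e]
    rw [mul_apply]
    simp only [h2, mul_apply, transpose_apply, Finset.sum_mul]
    rw [Finset.sum_comm]
    refine Finset.sum_congr rfl fun k _ => Finset.sum_congr rfl fun l _ => ?_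
    ring
  rw [h1, hUO]

end

end Pool.Agent.V5helper88.F4
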