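import Pool.Agent.V5helper88.X1

/-!
The Lie algebra of an abelian fourfold in terms of complex matrices of size eight: commutants and
stable subspaces.
-/

set_option autoImplicit false

namespace Pool.Agent.V5helper88.F4

open Matrix Module Pool.Agent.Y102 Pool.Agent.W516.DR Pool.Agent.H204R3.GP Pool.Agent.W516.KC
  Pool.Agent.H204R3.SP Pool.Agent.N208.BT

noncomputable section

variable {A : AbVar 4}

/-- The matrix of an endomorphism. -/
def mt (b : Basis (Fin 8) ℚ A.H1) : Module.End ℚ A.H1 ≃ₐ[ℚ] Q8 := LinearMap.toMatrixAlgEquiv b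

/-- The matrices of the elements of the Lie algebra. -/
def HH (b : Basis (Fin 8) ℚ A.H1) : Set M8 := {Z | ∃ X ∈ A.LA, Z = cc (mt b X)}

theorem mt_apply (b : Basis (Fin 8) ℚ A.H1) (X : Module.End ℚ A.H1) (j : Fin 8) :
    X (b j) = ∑ i, mt b X i j • b i := by
  conv_lhs => rw [← b.sum_repr (X (b j))]
  refine Finset.sum_congr rfl fun i _ => ?_
  rw [mt, LinearMap.toMatrixAlgEquiv_apply]

variable {b : Basis (Fin 8) ℚ A.H1}

theorem om_left (hb : ∀ i j, A.om (b i) (b j) = JQ i j) (X : Module.End ℚ A.H1) (i j : Fin 8) :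
    A.om (X (b i)) (b j) = ((mt b X)ᵀ * JQ) i j := by
  rw [mt_apply, map_sum, LinearMap.sum_apply, mul_apply]
  refine Finset.sum_congr rfl fun k _ => ?_
  rw [map_smul, LinearMap.smul_apply, hb, smul_eq_mul, transpose_apply]

theorem om_right (hb : ∀ i j, A.om (b i) (b j) = JQ i j) (X : Module.End ℚ A.H1) (i j : Fin 8) :
    A.om (b i) (X (b j)) = (JQ * mt b X) i j := by
  rw [mt_apply, map_sum, mul_apply]
  refine Finset.sum_congr rfl fun k _ => ?_
  rw [map_smul, hb, smul_eq_mul, mul_comm]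

theorem mt_sym (hb : ∀ i j, A.om (b i) (b j) = JQ i j) (X : Module.End ℚ A.H1) :
    (∀ u v, A.om (X u) v = A.om u (X v)) ↔ (mt b X)ᵀ * JQ = JQ * mt b X := by
  constructor
  · intro h
    ext i j
    rw [← om_left hb, ← om_right hb, h]
  · intro h
    have h1 : A.om.comp X = A.om.compl₂ X := by
      refine b.ext fun i => b.ext fun j => ?_
      rw [LinearMap.comp_apply, LinearMap.compl₂_apply, om_left hb, om_right hb, h]
    intro u v
    exact congrArg (fun B : A.H1 →ₗ[ℚ] A.H1 →ₗ[ℚ] ℚ => B u v) h1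

theorem mt_skew (hb : ∀ i j, A.om (b i) (b j) = JQ i j) {X : Module.End ℚ A.H1}
    (h : IsSkew A.om X) : (mt b X)ᵀ * JQ = -(JQ * mt b X) := by
  ext i j
  rw [Matrix.neg_apply, ← om_left hb, ← om_right hb]
  exact eq_neg_of_add_eq_zero_left (h _ _)

theorem sy_cc {X : Q8} (h : Xᵀ * JQ = JQ * X) : Sy (cc X) := by
  unfold Sy
  rw [← cc_tr, ← cc_J, ← cc_mul, ← cc_mul, h]

theorem sk_cc {X : Q8} (h : Xᵀ * JQ = -(JQ * X)) : Sk (cc X) := by
  unfold Sk
  rw [← cc_tr, ← cc_J, ← cc_mul, ← cc_mul, h, cc_neg]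

/-- The rational components of an element of the commutant are endomorphisms. -/
theorem comp_mem {P : M8} (hP : Cm (HH b) P) (l : ℂ →ₗ[ℚ] ℚ) : (mt b).symm (lm l P) ∈ A.EA := by
  intro X hX
  apply (mt b).injective
  rw [map_mul, map_mul, AlgEquiv.apply_symm_apply, ← lm_cc_mul, ← lm_mul_cc,
    hP _ ⟨X, hX, rfl⟩]

theorem cm_cc {P : Module.End ℚ A.H1} (hP : P ∈ A.EA) : Cm (HH b) (cc (mt b P)) := by
  rintro _ ⟨X, hX, rfl⟩
  rw [← cc_mul, ← cc_mul, ← map_mul, ← map_mul, hP X hX]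

/-- The complex span of the bicommutant. -/
def CS (b : Basis (Fin 8) ℚ A.H1) : Submodule ℂ M8 :=
  Submodule.span ℂ {Z | ∃ X ∈ CB A, Z = cc (mt b X)}

theorem lm_smul (l : ℂ →ₗ[ℚ] ℚ) (z : ℂ) (P : M8) :
    lm l (z • P) = lm (l ∘ₗ LinearMap.mulLeft ℚ z) P := by
  ext i j
  simp [lm]

theorem lm_cc (l : ℂ →ₗ[ℚ] ℚ) (X : Q8) : lm l (cc X) = l 1 • X := by
  ext i j
  simp only [lm, cc, Matrix.map_apply, Matrix.smul_apply, smul_eq_mul]
  rw [Algebra.algebraMap_eq_smul_one, map_smul, smul_eq_mul, mul_comm]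

theorem lm_add (l : ℂ →ₗ[ℚ] ℚ) (P Q : M8) : lm l (P + Q) = lm l P + lm l Q := by
  ext i j; simp [lm]

theorem CS_comp {P : M8} (hP : P ∈ CS b) :
    ∀ l : ℂ →ₗ[ℚ] ℚ, ∃ X ∈ CB A, lm l P = mt b X := by
  refine Submodule.span_induction (p := fun P _ => ∀ l : ℂ →ₗ[ℚ] ℚ, ∃ X ∈ CB A, lm l P = mt b X)
    ?_ ?_ ?_ ?_ hP
  · rintro _ ⟨X, hX, rfl⟩ l
    exact ⟨l 1 • X, (CB A).smul_mem _ hX, by rw [lm_cc, map_smul]⟩
  · intro l
    refine ⟨0, (CB A).zero_mem, ?_⟩
    rw [map_zero]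
    ext i j
    simp [lm]
  · intro x y _ _ hx hy l
    obtain ⟨X, hX, hX'⟩ := hx l
    obtain ⟨Y, hY, hY'⟩ := hy l
    exact ⟨X + Y, (CB A).add_mem hX hY, by rw [lm_add, hX', hY', map_add]⟩
  · intro z x _ hx l
    obtain ⟨X, hX, hX'⟩ := hx (l ∘ₗ LinearMap.mulLeft ℚ z)
    exact ⟨X, hX, by rw [lm_smul, hX']⟩

theorem CS_mul {P Q : M8} (hP : P ∈ CS b) (hQ : Q ∈ CS b) : P * Q ∈ CS b := by
  refine Submodule.span_induction (p := fun P _ => P * Q ∈ CS b) ?_ ?_ ?_ ?_ hP
  · rintro _ ⟨X, hX, rfl⟩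
    refine Submodule.span_induction (p := fun Q _ => cc (mt b X) * Q ∈ CS b) ?_ ?_ ?_ ?_ hQ
    · rintro _ ⟨Y, hY, rfl⟩
      rw [← cc_mul, ← map_mul]
      exact Submodule.subset_span ⟨X * Y, Pool.Agent.N492.LCAP1.CB_mul hX hY, rfl⟩
    · rw [mul_zero]; exact Submodule.zero_mem _
    · intro x y _ _ hx hy
      rw [mul_add]; exact Submodule.add_mem _ hx hy
    · intro z x _ hx
      rw [mul_smul_comm]; exact Submodule.smul_mem _ _ hx
  · rw [zero_mul]; exact Submodule.zero_mem _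
  · intro x y _ _ hx hy
    rw [add_mul]; exact Submodule.add_mem _ hx hy
  · intro z x _ hx
    rw [smul_mul_assoc]; exact Submodule.smul_mem _ _ hx

theorem CS_one : (1 : M8) ∈ CS b := by
  refine Submodule.subset_span ⟨1, Pool.Agent.N492.LCAP1.CB_one, ?_⟩
  rw [map_one, cc_one]

/-- The trace form of the complex bicommutant is nondegenerate. -/
theorem CS_trace {P : M8} (hP : P ∈ CS b) (h : ∀ Q ∈ CS b, trace (P * Q) = 0) : P = 0 := by
  refine lm_ext fun l => ?_
  obtain ⟨X, hX, hX'⟩ := CS_comp hP l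
  have h1 : X = 0 := by
    refine Pool.Agent.N492.LCAP1.trace_CB X hX fun Y hY => ?_
    have h2 := h (cc (mt b Y)) (Submodule.subset_span ⟨Y, hY, rfl⟩)
    have h3 := trace_lm l (P * cc (mt b Y))
    rw [h2, map_zero, lm_mul_cc, hX', ← map_mul] at h3
    rw [← h3]
    exact (LinearMap.trace_eq_matrix_trace ℚ b (X * Y))
  rw [hX', h1, map_zero]
  ext i j
  simp [lm]

/-- The complex bicommutant as an algebra of operators. -/
def CR (b : Basis (Fin 8) ℚ A.H1) : Subalgebra ℂ (Module.End ℂ (Fin 8 → ℂ)) where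
  carrier := {x | LinearMap.toMatrixAlgEquiv' x ∈ CS b}
  mul_mem' := fun {x y} hx hy => by
    change LinearMap.toMatrixAlgEquiv' (x * y) ∈ CS b
    rw [map_mul]; exact CS_mul hx hy
  add_mem' := fun {x y} hx hy => by
    change LinearMap.toMatrixAlgEquiv' (x + y) ∈ CS b
    rw [map_add]; exact Submodule.add_mem _ hx hy
  algebraMap_mem' := fun z => by
    change LinearMap.toMatrixAlgEquiv' (algebraMap ℂ _ z) ∈ CS b
    rw [AlgEquiv.commutes, Algebra.algebraMap_eq_smul_one]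
    exact Submodule.smul_mem _ _ CS_one

/-- The elements of the bicommutant preserve all subspaces which are stable under the Lie
algebra. -/
theorem stable_CB {Y : Submodule ℂ (Fin 8 → ℂ)} (hY : ∀ X ∈ HH b, ∀ v ∈ Y, X *ᵥ v ∈ Y)
    {X : Module.End ℚ A.H1} (hX : X ∈ CB A) : ∀ v ∈ Y, cc (mt b X) *ᵥ v ∈ Y := by
  have h1 : X ∈ Algebra.adjoin ℚ (A.LA : Set (Module.End ℚ A.H1)) :=
    mem_adjoin_of_comm A.semi_LA fun P hP => hX P hP
  refine Algebra.adjoin_induction (p := fun X _ => ∀ v ∈ Y, cc (mt b X) *ᵥ v ∈ Y)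
    ?_ ?_ ?_ ?_ h1
  · intro X hX v hv
    exact hY _ ⟨X, hX, rfl⟩ v hv
  · intro r v hv
    rw [AlgEquiv.commutes, Algebra.algebraMap_eq_smul_one]
    have h2 : cc (r • (1 : Q8)) = (algebraMap ℚ ℂ r) • (1 : M8) := by
      rw [← cc_one]
      ext i j
      simp only [cc, Matrix.map_apply, Matrix.smul_apply, smul_eq_mul, map_mul]
    rw [h2, smul_mulVec, one_mulVec]
    exact Submodule.smul_mem _ _ hv
  · intro X Z _ _ hX hZ v hv
    rw [map_add, cc_add, add_mulVec]
    exact Submodule.add_mem _ (hX v hv) (hZ v hv)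
  · intro X Z _ _ hX hZ v hv
    rw [map_mul, cc_mul, ← mulVec_mulVec]
    exact hX _ (hZ v hv)

/-- Every stable subspace is the image of a projection which commutes with the Lie algebra. -/
theorem exists_proj {Y : Submodule ℂ (Fin 8 → ℂ)} (hY : ∀ X ∈ HH b, ∀ v ∈ Y, X *ᵥ v ∈ Y) :
    ∃ P : M8, Cm (HH b) P ∧ (∀ v, P *ᵥ v ∈ Y) ∧ ∀ v ∈ Y, P *ᵥ v = v := by
  have hYR : ∀ X ∈ CR b, ∀ v ∈ Y, X v ∈ Y := by
    intro x hx v hv
    have h1 : LinearMap.toMatrixAlgEquiv' x ∈ CS b := hx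
    have h2 : ∀ Z ∈ CS b, Z *ᵥ v ∈ Y := by
      intro Z hZ
      refine Submodule.span_induction (p := fun Z _ => Z *ᵥ v ∈ Y) ?_ ?_ ?_ ?_ hZ
      · rintro _ ⟨X, hX, rfl⟩
        exact stable_CB hY hX v hv
      · rw [zero_mulVec]; exact Submodule.zero_mem _
      · intro x y _ _ hx hy
        rw [add_mulVec]; exact Submodule.add_mem _ hx hy
      · intro z x _ hx
        rw [smul_mulVec]; exact Submodule.smul_mem _ _ hx
    have h3 := h2 _ h1
    have h4 : LinearMap.toMatrixAlgEquiv' x *ᵥ v = x v := by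
      change LinearMap.toMatrix' x *ᵥ v = x v
      rw [← Matrix.toLin'_apply, Matrix.toLin'_toMatrix']
    rwa [h4] at h3
  obtain ⟨Y', hY', hc⟩ := Pool.Agent.N492.LCAP1.compl_of_trace (CR b) (fun x hx h => by
    have h1 : LinearMap.toMatrixAlgEquiv' x = 0 := by
      refine CS_trace (b := b) hx fun Q hQ => ?_
      have h2 : (Matrix.toLin' Q : Module.End ℂ (Fin 8 → ℂ)) ∈ CR b := by
        change LinearMap.toMatrix' (Matrix.toLin' Q) ∈ CS b
        rw [LinearMap.toMatrix'_toLin']; exact hQ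
      have h3 := h _ h2
      have h4 : trace (LinearMap.toMatrixAlgEquiv' x * Q)
          = LinearMap.trace ℂ _ (x * Matrix.toLin' Q) := by
        have h5 : x = Matrix.toLin' (LinearMap.toMatrix' x) := (Matrix.toLin'_toMatrix' x).symm
        conv_rhs => rw [h5]
        rw [Module.End.mul_eq_comp, ← Matrix.toLin'_mul, Matrix.trace_toLin'_eq]
        rfl
      rw [h4, h3]
    exact (LinearMap.toMatrixAlgEquiv').injective (by rw [h1, map_zero])) Y hYR
  refine ⟨LinearMap.toMatrix' (Y.projection Y' hc), ?_, ?_, ?_⟩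
  · rintro _ ⟨X, hX, rfl⟩
    apply (Matrix.toLin').injective
    refine LinearMap.ext fun v => ?_
    rw [toLin'_apply, toLin'_apply, ← mulVec_mulVec, ← mulVec_mulVec]
    have hp : ∀ w, LinearMap.toMatrix' (Y.projection Y' hc) *ᵥ w = Y.projection Y' hc w := by
      intro w
      rw [← Matrix.toLin'_apply, Matrix.toLin'_toMatrix']
    rw [hp, hp]
    have hX' : ∀ w ∈ Y', cc (mt b X) *ᵥ w ∈ Y' := by
      intro w hw
      have h1 : (Matrix.toLin' (cc (mt b X)) : Module.End ℂ (Fin 8 → ℂ)) ∈ CR b := by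
        change LinearMap.toMatrix' (Matrix.toLin' (cc (mt b X))) ∈ CS b
        rw [LinearMap.toMatrix'_toLin']
        exact Submodule.subset_span ⟨X, Pool.Agent.N492.LCAP1.LA_le_CB hX, rfl⟩
      have h2 := hY' _ h1 w hw
      rwa [toLin'_apply] at h2
    have hv : v ∈ Y ⊔ Y' := by rw [hc.sup_eq_top]; trivial
    obtain ⟨y, hy, y', hy', rfl⟩ := Submodule.mem_sup.mp hv
    rw [mulVec_add, map_add, map_add,
      Submodule.projection_apply_of_mem_left hc (hY _ ⟨X, hX, rfl⟩ y hy),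
      Submodule.projection_apply_of_mem_left hc hy,
      Submodule.projection_apply_of_mem_right hc (hX' y' hy'),
      Submodule.projection_apply_of_mem_right hc hy', add_zero, add_zero]
  · intro v
    rw [← Matrix.toLin'_apply, Matrix.toLin'_toMatrix']
    exact Submodule.projection_apply_mem hc v
  · intro v hv
    rw [← Matrix.toLin'_apply, Matrix.toLin'_toMatrix']
    exact Submodule.projection_apply_of_mem_left hc hv

/-- The conditions of the core statement for an abelian fourfold with symmetric endomorphisms. -/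
theorem ctx_of_sym (hb : ∀ i j, A.om (b i) (b j) = JQ i j)
    (hs : ∀ P ∈ A.EA, ∀ u v, A.om (P u) v = A.om u (P v)) : Ctx (HH b) := by
  have hcomm : ∀ P, Cm (HH b) P → Sy P := by
    intro P hP
    refine sy_of_lm fun l => ?_
    have h1 := (mt_sym hb _).mp (hs _ (comp_mem hP l))
    rwa [AlgEquiv.apply_symm_apply] at h1
  refine ⟨?_, hcomm, ?_⟩
  · rintro _ ⟨X, hX, rfl⟩
    exact sk_cc (mt_skew hb (A.LA_skew hX))
  · intro Y hY hiso
    obtain ⟨P, hP, hPY, hPv⟩ := exists_proj hY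
    rw [Submodule.eq_bot_iff]
    intro v hv
    apply om_nondeg
    intro w
    rw [← hPv v hv, om_sy (hcomm P hP)]
    exact hiso v hv _ (hPY w)

end

end Pool.Agent.V5helper88.F4
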