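import Pool.Agent.V5helper88.X2

/-!
Alternating forms of degree four on the rational homology of an abelian fourfold, in coordinates.
-/

set_option autoImplicit false

namespace Pool.Agent.V5helper88.F4

open Matrix Module Pool.Agent.Y102 Pool.Agent.W516.DR Pool.Agent.H204R3.GP Pool.Agent.W516.KC
  Pool.Agent.H204R3.SP Pool.Agent.N208.BT

noncomputable section

/-- Four values as a function on `Fin 2 × Fin 2`. -/
def vec4 {α : Type} (x y z w : α) : Fin 2 × Fin 2 → α := fun k => ![![x, y], ![z, w]] k.1 k.2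

theorem vec4_eta {α : Type} (v : Fin 2 × Fin 2 → α) :
    vec4 (v (0, 0)) (v (0, 1)) (v (1, 0)) (v (1, 1)) = v := by
  funext ⟨i, j⟩
  fin_cases i <;> fin_cases j <;> rfl

/-- Quadruples and functions on `Fin 2 × Fin 2`. -/
def e4 : (Fin 8 × Fin 8 × Fin 8 × Fin 8) ≃ (Fin 2 × Fin 2 → Fin 8) where
  toFun t := vec4 t.1 t.2.1 t.2.2.1 t.2.2.2
  invFun v := (v (0, 0), v (0, 1), v (1, 0), v (1, 1))
  left_inv t := rfl
  right_inv v := vec4_eta v

theorem sum_e4 {M : Type} [AddCommMonoid M] (f : (Fin 2 × Fin 2 → Fin 8) → M) :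
    ∑ v, f v = ∑ p, ∑ q, ∑ r, ∑ s, f (vec4 p q r s) := by
  rw [← e4.sum_comp]
  simp only [Fintype.sum_prod_type]
  rfl

variable {A : AbVar 4}

/-- Alternating forms of degree four. -/
abbrev AF (A : AbVar 4) : Type := A.H1 [⋀^Fin 2 × Fin 2]→ₗ[ℚ] ℚ

/-- The coordinates of a form. -/
def aq (b : Basis (Fin 8) ℚ A.H1) (φ : AF A) (p q r s : Fin 8) : ℚ :=
  φ fun k => b (vec4 p q r s k)

/-- The complex coordinates of a form. -/
def ac (b : Basis (Fin 8) ℚ A.H1) (φ : AF A) (p q r s : Fin 8) : ℂ := (aq b φ p q r s : ℂ)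

variable {b : Basis (Fin 8) ℚ A.H1}

theorem ac_alt (φ : AF A) : Alt4 (ac b φ) := by
  refine ⟨fun p q r s => ?_, fun p q r s => ?_, fun p q r s => ?_⟩
  · have h : (fun k => b (vec4 q p r s k)) = (fun k => b (vec4 p q r s k)) ∘
        Equiv.swap (0, 0) (0, 1) := by
      funext ⟨i, j⟩
      fin_cases i <;> fin_cases j <;> simp [vec4, Equiv.swap_apply_def]
    unfold ac aq
    rw [h, φ.map_swap _ (by decide)]
    push_cast; rfl
  · have h : (fun k => b (vec4 p r q s k)) = (fun k => b (vec4 p q r s k)) ∘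
        Equiv.swap (0, 1) (1, 0) := by
      funext ⟨i, j⟩
      fin_cases i <;> fin_cases j <;> simp [vec4, Equiv.swap_apply_def]
    unfold ac aq
    rw [h, φ.map_swap _ (by decide)]
    push_cast; rfl
  · have h : (fun k => b (vec4 p q s r k)) = (fun k => b (vec4 p q r s k)) ∘
        Equiv.swap (1, 0) (1, 1) := by
      funext ⟨i, j⟩
      fin_cases i <;> fin_cases j <;> simp [vec4, Equiv.swap_apply_def]
    unfold ac aq
    rw [h, φ.map_swap _ (by decide)]
    push_cast; rfl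

theorem upd00 {α : Type} (x y z w t : α) :
    Function.update (vec4 x y z w) (0, 0) t = vec4 t y z w := by
  funext ⟨i, j⟩
  fin_cases i <;> fin_cases j <;> simp [vec4, Function.update_apply]

theorem upd01 {α : Type} (x y z w t : α) :
    Function.update (vec4 x y z w) (0, 1) t = vec4 x t z w := by
  funext ⟨i, j⟩
  fin_cases i <;> fin_cases j <;> simp [vec4, Function.update_apply]

theorem upd10 {α : Type} (x y z w t : α) :
    Function.update (vec4 x y z w) (1, 0) t = vec4 x y t w := by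
  funext ⟨i, j⟩
  fin_cases i <;> fin_cases j <;> simp [vec4, Function.update_apply]

theorem upd11 {α : Type} (x y z w t : α) :
    Function.update (vec4 x y z w) (1, 1) t = vec4 x y z t := by
  funext ⟨i, j⟩
  fin_cases i <;> fin_cases j <;> simp [vec4, Function.update_apply]

theorem bvec (p q r s : Fin 8) :
    (fun k => b (vec4 p q r s k)) = vec4 (b p) (b q) (b r) (b s) := by
  funext ⟨i, j⟩
  fin_cases i <;> fin_cases j <;> rfl

theorem sum_F22 {M : Type} [AddCommMonoid M] (f : Fin 2 × Fin 2 → M) :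
    ∑ k, f k = f (0, 0) + f (0, 1) + (f (1, 0) + f (1, 1)) := by
  rw [Fintype.sum_prod_type, Fin.sum_univ_two, Fin.sum_univ_two, Fin.sum_univ_two]

theorem ac_inv {φ : AF A} {X : Module.End ℚ A.H1} (h : Kills X φ.toMultilinearMap) :
    Inv (ac b φ) (cc (mt b X)) := by
  intro p q r s
  have h1 := h (vec4 (b p) (b q) (b r) (b s))
  rw [sum_F22, upd00, upd01, upd10, upd11] at h1
  have e0 : (vec4 (b p) (b q) (b r) (b s)) (0, 0) = b p := rfl
  have e1 : (vec4 (b p) (b q) (b r) (b s)) (0, 1) = b q := rfl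
  have e2 : (vec4 (b p) (b q) (b r) (b s)) (1, 0) = b r := rfl
  have e3 : (vec4 (b p) (b q) (b r) (b s)) (1, 1) = b s := rfl
  rw [e0, e1, e2, e3] at h1
  have k0 : φ.toMultilinearMap (vec4 (X (b p)) (b q) (b r) (b s))
      = ∑ t, mt b X t p * aq b φ t q r s := by
    rw [mt_apply, ← upd00 (b p), MultilinearMap.map_update_sum]
    refine Finset.sum_congr rfl fun t _ => ?_
    rw [MultilinearMap.map_update_smul, upd00, smul_eq_mul, aq, bvec]
    rfl
  have k1 : φ.toMultilinearMap (vec4 (b p) (X (b q)) (b r) (b s))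
      = ∑ t, mt b X t q * aq b φ p t r s := by
    rw [mt_apply, ← upd01 (b p) (b q), MultilinearMap.map_update_sum]
    refine Finset.sum_congr rfl fun t _ => ?_
    rw [MultilinearMap.map_update_smul, upd01, smul_eq_mul, aq, bvec]
    rfl
  have k2 : φ.toMultilinearMap (vec4 (b p) (b q) (X (b r)) (b s))
      = ∑ t, mt b X t r * aq b φ p q t s := by
    rw [mt_apply, ← upd10 (b p) (b q) (b r), MultilinearMap.map_update_sum]
    refine Finset.sum_congr rfl fun t _ => ?_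
    rw [MultilinearMap.map_update_smul, upd10, smul_eq_mul, aq, bvec]
    rfl
  have k3 : φ.toMultilinearMap (vec4 (b p) (b q) (b r) (X (b s)))
      = ∑ t, mt b X t s * aq b φ p q r t := by
    rw [mt_apply, ← upd11 (b p) (b q) (b r) (b s), MultilinearMap.map_update_sum]
    refine Finset.sum_congr rfl fun t _ => ?_
    rw [MultilinearMap.map_update_smul, upd11, smul_eq_mul, aq, bvec]
    rfl
  rw [k0, k1, k2, k3, ← add_assoc, ← Finset.sum_add_distrib, ← Finset.sum_add_distrib,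
    ← Finset.sum_add_distrib] at h1
  have h2 := congrArg (algebraMap ℚ ℂ) h1
  rw [map_sum, map_zero] at h2
  rw [← h2]
  refine Finset.sum_congr rfl fun t _ => ?_
  simp only [map_add, map_mul, cc, Matrix.map_apply, ac]
  rfl

theorem eq_zero_of_aq {φ : AF A} (h : ∀ p q r s, aq b φ p q r s = 0) : φ = 0 := by
  apply AlternatingMap.coe_multilinearMap_injective
  refine Basis.ext_multilinear (fun _ => b) fun v => ?_
  have h1 := h (v (0, 0)) (v (0, 1)) (v (1, 0)) (v (1, 1))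
  unfold aq at h1
  rw [vec4_eta] at h1
  simpa using h1

/-- The tensor product of two bilinear forms. -/
def tens (B C : A.H1 →ₗ[ℚ] A.H1 →ₗ[ℚ] ℚ) : MultilinearMap ℚ (fun _ : Fin 2 × Fin 2 => A.H1) ℚ :=
  MultilinearMap.mk' (fun v => B (v (0, 0)) (v (0, 1)) * C (v (1, 0)) (v (1, 1)))
    (by
      rintro v ⟨i, j⟩ x y
      fin_cases i <;> fin_cases j <;> simp [Function.update_apply, add_mul, mul_add])
    (by
      rintro v ⟨i, j⟩ c x
      fin_cases i <;> fin_cases j <;> simp [Function.update_apply] <;> ring)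

theorem tens_apply (B C : A.H1 →ₗ[ℚ] A.H1 →ₗ[ℚ] ℚ) (v : Fin 2 × Fin 2 → A.H1) :
    tens B C v = B (v (0, 0)) (v (0, 1)) * C (v (1, 0)) (v (1, 1)) := rfl

theorem tens_kills {B C : A.H1 →ₗ[ℚ] A.H1 →ₗ[ℚ] ℚ} {X : Module.End ℚ A.H1}
    (hB : ∀ u v, B (X u) v + B u (X v) = 0) (hC : ∀ u v, C (X u) v + C u (X v) = 0) :
    Kills X (tens B C) := by
  intro v
  rw [sum_F22]
  simp only [tens_apply, Function.update_apply]
  simp
  have h1 := hB (v (0, 0)) (v (0, 1))
  have h2 := hC (v (1, 0)) (v (1, 1))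
  linear_combination (C (v (1, 0)) (v (1, 1))) * h1 + (B (v (0, 0)) (v (0, 1))) * h2

/-- The product of two forms of degree two. -/
def prd (B C : A.H1 →ₗ[ℚ] A.H1 →ₗ[ℚ] ℚ) : AF A := MultilinearMap.alternatization (tens B C)

theorem prd_apply (B C : A.H1 →ₗ[ℚ] A.H1 →ₗ[ℚ] ℚ) (v : Fin 2 × Fin 2 → A.H1) :
    prd B C v = ∑ σ : Equiv.Perm (Fin 2 × Fin 2),
      ((Equiv.Perm.sign σ : ℤ) : ℚ) * tens B C (v ∘ σ) := by
  unfold prd
  rw [MultilinearMap.alternatization_apply]
  refine Finset.sum_congr rfl fun σ _ => ?_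
  rw [MultilinearMap.domDomCongr_apply, Units.smul_def, zsmul_eq_mul]
  rfl

theorem prd_kills {B C : A.H1 →ₗ[ℚ] A.H1 →ₗ[ℚ] ℚ} {X : Module.End ℚ A.H1}
    (hB : ∀ u v, B (X u) v + B u (X v) = 0) (hC : ∀ u v, C (X u) v + C u (X v) = 0) :
    Kills X (prd B C).toMultilinearMap := by
  intro v
  change ∑ k, prd B C (Function.update v k (X (v k))) = 0
  simp only [prd_apply]
  rw [Finset.sum_comm]
  refine Finset.sum_eq_zero fun σ _ => ?_
  rw [← Finset.mul_sum]
  have h1 := tens_kills hB hC (v ∘ σ)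
  rw [← Equiv.sum_comp σ]
  have h2 : ∀ k, Function.update v (σ k) (X (v (σ k))) ∘ σ
      = Function.update (v ∘ σ) k (X ((v ∘ σ) k)) := by
    intro k
    funext l
    simp only [Function.comp_apply, Function.update_apply, EmbeddingLike.apply_eq_iff_eq]
  simp only [h2]
  rw [h1, mul_zero]

/-- The pairing of forms induced by the Riemann form. -/
def pr (b : Basis (Fin 8) ℚ A.H1) (φ ψ : AF A) : ℚ :=
  ∑ v : Fin 2 × Fin 2 → Fin 8, ∑ w : Fin 2 × Fin 2 → Fin 8,
    (∏ k, JQ (v k) (w k)) * φ (fun k => b (v k)) * ψ (fun k => b (w k))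

theorem pr_prd (φ : AF A) (B C : A.H1 →ₗ[ℚ] A.H1 →ₗ[ℚ] ℚ) :
    pr b φ (prd B C) = 24 * ∑ v : Fin 2 × Fin 2 → Fin 8, ∑ w : Fin 2 × Fin 2 → Fin 8,
      (∏ k, JQ (v k) (w k)) * φ (fun k => b (v k)) * tens B C (fun k => b (w k)) := by
  unfold pr
  simp only [prd_apply, Finset.mul_sum]
  have h1 : ∀ σ : Equiv.Perm (Fin 2 × Fin 2),
      ∑ v : Fin 2 × Fin 2 → Fin 8, ∑ w : Fin 2 × Fin 2 → Fin 8,
        (∏ k, JQ (v k) (w k)) * φ (fun k => b (v k)) *
          (((Equiv.Perm.sign σ : ℤ) : ℚ) * tens B C ((fun k => b (w k)) ∘ σ))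
      = ∑ v : Fin 2 × Fin 2 → Fin 8, ∑ w : Fin 2 × Fin 2 → Fin 8,
      (∏ k, JQ (v k) (w k)) * φ (fun k => b (v k)) * tens B C (fun k => b (w k)) := by
    intro σ
    rw [← (Equiv.arrowCongr σ (Equiv.refl (Fin 8))).sum_comp]
    refine Finset.sum_congr rfl fun v _ => ?_
    rw [← (Equiv.arrowCongr σ (Equiv.refl (Fin 8))).sum_comp]
    refine Finset.sum_congr rfl fun w _ => ?_
    have e1 : ∀ u : Fin 2 × Fin 2 → Fin 8, ∀ k,
        (Equiv.arrowCongr σ (Equiv.refl (Fin 8))) u k = u (σ.symm k) := fun u k => rfl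
    simp only [e1]
    have e2 : ∏ k, JQ (v (σ.symm k)) (w (σ.symm k)) = ∏ k, JQ (v k) (w k) :=
      σ.symm.prod_comp fun k => JQ (v k) (w k)
    have e3 : (fun k => b (w (σ.symm k))) ∘ σ = fun k => b (w k) := by
      funext k
      simp
    have e4 : φ (fun k => b (v (σ.symm k)))
        = ((Equiv.Perm.sign σ : ℤ) : ℚ) * φ (fun k => b (v k)) := by
      have h2 := φ.map_perm (fun k => b (v k)) σ.symm
      rw [show (fun k => b (v k)) ∘ σ.symm = fun k => b (v (σ.symm k)) from rfl] at h2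
      rw [h2, Units.smul_def, zsmul_eq_mul, Equiv.Perm.sign_symm]
    rw [e2, e3, e4]
    have e5 : ((Equiv.Perm.sign σ : ℤ) : ℚ) * ((Equiv.Perm.sign σ : ℤ) : ℚ) = 1 := by
      rcases Int.units_eq_one_or (Equiv.Perm.sign σ) with h | h <;> rw [h] <;> norm_num
    linear_combination ((∏ k, JQ (v k) (w k)) * φ (fun k => b (v k)) *
      tens B C (fun k => b (w k))) * e5
  have h2 : ∀ v : Fin 2 × Fin 2 → Fin 8, ∑ w : Fin 2 × Fin 2 → Fin 8,
      ∑ σ : Equiv.Perm (Fin 2 × Fin 2), (∏ k, JQ (v k) (w k)) * φ (fun k => b (v k)) *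
          (((Equiv.Perm.sign σ : ℤ) : ℚ) * tens B C ((fun k => b (w k)) ∘ σ))
      = ∑ σ : Equiv.Perm (Fin 2 × Fin 2), ∑ w : Fin 2 × Fin 2 → Fin 8,
        (∏ k, JQ (v k) (w k)) * φ (fun k => b (v k)) *
          (((Equiv.Perm.sign σ : ℤ) : ℚ) * tens B C ((fun k => b (w k)) ∘ σ)) :=
    fun v => Finset.sum_comm
  simp only [h2]
  rw [Finset.sum_comm]
  simp only [h1]
  rw [Finset.sum_const, Finset.card_univ, Fintype.card_perm]
  have h3 : (Fintype.card (Fin 2 × Fin 2)).factorial = 24 := by decide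
  rw [h3, nsmul_eq_mul]
  push_cast
  simp only [Finset.mul_sum]

theorem prod_F22 (f : Fin 2 × Fin 2 → ℚ) :
    ∏ k, f k = f (0, 0) * f (0, 1) * (f (1, 0) * f (1, 1)) := by
  rw [Fintype.prod_prod_type, Fin.prod_univ_two, Fin.prod_univ_two, Fin.prod_univ_two]

theorem four_sum (F G : Fin 8 → Fin 8 → ℚ) (a : ℚ) :
    ∑ p, ∑ q, ∑ r, ∑ s, F p q * G r s * a = (∑ p, ∑ q, F p q) * (∑ r, ∑ s, G r s) * a := by
  have h1 : ∀ p q, ∑ r, ∑ s, F p q * G r s * a = F p q * ((∑ r, ∑ s, G r s) * a) := by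
    intro p q
    simp only [Finset.sum_mul, Finset.mul_sum, mul_assoc]
  simp only [h1]
  simp only [← Finset.sum_mul]
  ring

/-- The bilinear form attached to an endomorphism. -/
def omP (P : Module.End ℚ A.H1) : A.H1 →ₗ[ℚ] A.H1 →ₗ[ℚ] ℚ := A.om.compl₂ P

theorem omP_apply (P : Module.End ℚ A.H1) (u v : A.H1) : omP P u v = A.om u (P v) := rfl

theorem pr_prd_om (hb : ∀ i j, A.om (b i) (b j) = JQ i j) (φ : AF A) (P Q : Module.End ℚ A.H1) :
    pr b φ (prd (omP P) (omP Q)) = 24 * ∑ p, ∑ q, ∑ r, ∑ s,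
      (mt b P * JQ) p q * (mt b Q * JQ) r s * aq b φ p q r s := by
  rw [pr_prd, sum_e4]
  congr 1
  refine Finset.sum_congr rfl fun p _ => Finset.sum_congr rfl fun q _ =>
    Finset.sum_congr rfl fun r _ => Finset.sum_congr rfl fun s _ => ?_
  rw [sum_e4]
  have hF : ∀ (P : Module.End ℚ A.H1) p q, ∑ p', ∑ q', JQ p p' * JQ q q' *
      omP P (b p') (b q') = (mt b P * JQ) p q := by
    intro P p q
    have h1 : (mt b P * JQ) = -(JQ * (JQ * mt b P) * JQ) := by
      have : JQ * (JQ * mt b P) * JQ = (JQ * JQ) * mt b P * JQ := by noncomm_ring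
      rw [this, JQ_sq]; noncomm_ring
    rw [h1, Matrix.neg_apply, mul_apply, ← Finset.sum_neg_distrib]
    simp only [mul_apply (M := JQ), Finset.sum_mul]
    rw [Finset.sum_comm]
    refine Finset.sum_congr rfl fun q' _ => ?_
    rw [← Finset.sum_neg_distrib]
    refine Finset.sum_congr rfl fun p' _ => ?_
    rw [omP_apply, om_right hb]
    have h2 : JQ q' q = - JQ q q' := by
      have := congrFun (congrFun JQ_tr q) q'
      simpa using this
    rw [h2, mul_apply]; ring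
  rw [← hF P, ← hF Q]
  have h3 : ∀ p' q' r' s', (∏ k, JQ (vec4 p q r s k) (vec4 p' q' r' s' k)) *
      φ (fun k => b (vec4 p q r s k)) * tens (omP P) (omP Q) (fun k => b (vec4 p' q' r' s' k))
      = (JQ p p' * JQ q q' * omP P (b p') (b q')) * (JQ r r' * JQ s s' * omP Q (b r') (b s'))
        * aq b φ p q r s := by
    intro p' q' r' s'
    rw [prod_F22, tens_apply]
    have f0 : ∀ x y z w : Fin 8, vec4 x y z w (0, 0) = x := fun _ _ _ _ => rfl
    have f1 : ∀ x y z w : Fin 8, vec4 x y z w (0, 1) = y := fun _ _ _ _ => rfl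
    have f2 : ∀ x y z w : Fin 8, vec4 x y z w (1, 0) = z := fun _ _ _ _ => rfl
    have f3 : ∀ x y z w : Fin 8, vec4 x y z w (1, 1) = w := fun _ _ _ _ => rfl
    simp only [f0, f1, f2, f3, aq]
    ring
  simp only [h3]
  rw [four_sum]

end

end Pool.Agent.V5helper88.F4
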