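import Pool.Agent.V5helper88.X3
import Pool.Agent.V5helper88.C4

/-!
De Rham-Betti classes of degree four on abelian fourfolds all of whose endomorphisms are symmetric.
-/

set_option autoImplicit false

namespace Pool.Agent.V5helper88.F4

open Matrix Module Pool.Agent.Y102 Pool.Agent.W516.DR Pool.Agent.H204R3.GP Pool.Agent.W516.KC
  Pool.Agent.H204R3.SP Pool.Agent.N208.BT

noncomputable section

variable {A : AbVar 4} {b : Basis (Fin 8) ℚ A.H1}

/-- The symmetric endomorphisms. -/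
def EAs (A : AbVar 4) : Submodule ℚ (Module.End ℚ A.H1) where
  carrier := {P | P ∈ A.EA ∧ ∀ u v, A.om (P u) v = A.om u (P v)}
  zero_mem' := ⟨A.EA.zero_mem, fun u v => by simp⟩
  add_mem' := fun {P Q} hP hQ => ⟨A.EA.add_mem hP.1 hQ.1, fun u v => by
    rw [LinearMap.add_apply, LinearMap.add_apply, map_add, map_add, LinearMap.add_apply, hP.2,
      hQ.2]⟩
  smul_mem' := fun c P hP => ⟨A.EA.smul_mem c hP.1, fun u v => by
    rw [LinearMap.smul_apply, LinearMap.smul_apply, map_smul, map_smul, LinearMap.smul_apply,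
      hP.2]⟩

/-- The forms which are killed by the Lie algebra. -/
def WA (A : AbVar 4) : Submodule ℚ (AF A) where
  carrier := {φ | ∀ X ∈ A.LA, Kills X φ.toMultilinearMap}
  zero_mem' := fun X _ v => Finset.sum_eq_zero fun k _ => rfl
  add_mem' := fun {φ ψ} hφ hψ X hX v => by
    have h1 := hφ X hX v
    have h2 := hψ X hX v
    change ∑ k, (φ _ + ψ _) = 0
    rw [Finset.sum_add_distrib]
    change ∑ k, φ _ = 0 at h1
    change ∑ k, ψ _ = 0 at h2
    rw [h1, h2, add_zero]
  smul_mem' := fun c φ hφ X hX v => by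
    have h1 := hφ X hX v
    change ∑ k, (c • φ _) = 0
    rw [← Finset.smul_sum]
    change ∑ k, φ _ = 0 at h1
    rw [h1, smul_zero]

/-- The combinations of products. -/
def QA (A : AbVar 4) : Submodule ℚ (AF A) :=
  Submodule.span ℚ {ψ | ∃ P ∈ EAs A, ∃ Q ∈ EAs A, ψ = prd (omP P) (omP Q)}

theorem omP_kills {P X : Module.End ℚ A.H1} (hP : P ∈ A.EA) (hX : X ∈ A.LA) (u v : A.H1) :
    omP P (X u) v + omP P u (X v) = 0 := by
  rw [omP_apply, omP_apply]
  have h1 := A.LA_skew hX u (P v)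
  have h2 : P (X v) = X (P v) := (LinearMap.congr_fun (hP X hX) v).symm
  rw [h2]; exact h1

theorem QA_le : QA A ≤ WA A := by
  unfold QA
  rw [Submodule.span_le]
  rintro _ ⟨P, hP, Q, hQ, rfl⟩ X hX
  exact prd_kills (omP_kills hP.1 hX) (omP_kills hQ.1 hX)

/-- The coordinates as a linear map. -/
def ev (b : Basis (Fin 8) ℚ A.H1) : AF A →ₗ[ℚ] ((Fin 2 × Fin 2 → Fin 8) → ℚ) where
  toFun φ v := φ fun k => b (v k)
  map_add' φ ψ := rfl
  map_smul' c φ := rfl

theorem ev_inj (b : Basis (Fin 8) ℚ A.H1) : Function.Injective (ev b) := by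
  rw [injective_iff_map_eq_zero]
  intro φ hφ
  exact eq_zero_of_aq (b := b) fun p q r s => congrFun hφ (vec4 p q r s)

theorem fin_AF (b : Basis (Fin 8) ℚ A.H1) : FiniteDimensional ℚ (AF A) :=
  FiniteDimensional.of_injective (ev b) (ev_inj b)

/-- The pairing as a bilinear map. -/
def prB (b : Basis (Fin 8) ℚ A.H1) : AF A →ₗ[ℚ] AF A →ₗ[ℚ] ℚ :=
  LinearMap.mk₂ ℚ (pr b)
    (fun φ φ' ψ => by
      simp only [pr, ← Finset.sum_add_distrib]
      refine Finset.sum_congr rfl fun v _ => Finset.sum_congr rfl fun w _ => ?_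
      rw [AlternatingMap.add_apply]; ring)
    (fun c φ ψ => by
      simp only [pr, smul_eq_mul, Finset.mul_sum]
      refine Finset.sum_congr rfl fun v _ => Finset.sum_congr rfl fun w _ => ?_
      rw [AlternatingMap.smul_apply, smul_eq_mul]; ring)
    (fun φ ψ ψ' => by
      simp only [pr, ← Finset.sum_add_distrib]
      refine Finset.sum_congr rfl fun v _ => Finset.sum_congr rfl fun w _ => ?_
      rw [AlternatingMap.add_apply]; ring)
    (fun c φ ψ => by
      simp only [pr, smul_eq_mul, Finset.mul_sum]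
      refine Finset.sum_congr rfl fun v _ => Finset.sum_congr rfl fun w _ => ?_
      rw [AlternatingMap.smul_apply, smul_eq_mul]; ring)

/-- The condition of being orthogonal to products. -/
def OrthP (b : Basis (Fin 8) ℚ A.H1) (φ : AF A) : Prop :=
  ∀ P ∈ EAs A, ∀ Q ∈ EAs A, ∑ p, ∑ q, ∑ r, ∑ s,
    (mt b P * JQ) p q * (mt b Q * JQ) r s * aq b φ p q r s = 0

theorem span_of_core (hb : ∀ i j, A.om (b i) (b j) = JQ i j)
    (hcore : ∀ φ ∈ WA A, OrthP b φ → φ = 0) : WA A ≤ QA A := by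
  haveI := fin_AF b
  let Φ : WA A →ₗ[ℚ] Module.Dual ℚ (QA A) :=
    { toFun := fun φ => (prB b (φ : AF A)).comp (QA A).subtype
      map_add' := fun φ ψ => by
        rw [Submodule.coe_add, map_add, LinearMap.add_comp]
      map_smul' := fun c φ => by
        rw [Submodule.coe_smul, map_smul, LinearMap.smul_comp, RingHom.id_apply] }
  have hinj : Function.Injective Φ := by
    rw [injective_iff_map_eq_zero]
    intro φ hφ
    apply Subtype.ext
    refine hcore _ φ.2 fun P hP Q hQ => ?_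
    have h1 := LinearMap.congr_fun hφ ⟨prd (omP P) (omP Q),
      Submodule.subset_span ⟨P, hP, Q, hQ, rfl⟩⟩
    change pr b (φ : AF A) (prd (omP P) (omP Q)) = 0 at h1
    rw [pr_prd_om hb] at h1
    have h2 : (24 : ℚ) ≠ 0 := by norm_num
    exact (mul_eq_zero.mp h1).resolve_left h2
  have h1 := LinearMap.finrank_le_finrank_of_injective hinj
  rw [Subspace.dual_finrank_eq] at h1
  exact (Submodule.eq_of_le_of_finrank_le QA_le h1).ge

theorem CC_add_left (c : Fin 8 → Fin 8 → Fin 8 → Fin 8 → ℂ) (A A' B : M8) :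
    CC c (A + A') B = CC c A B + CC c A' B := by
  simp only [CC, ← Finset.sum_add_distrib]
  refine Finset.sum_congr rfl fun _ _ => Finset.sum_congr rfl fun _ _ =>
    Finset.sum_congr rfl fun _ _ => Finset.sum_congr rfl fun _ _ => ?_
  rw [Matrix.add_apply]; ring

theorem CC_add_right (c : Fin 8 → Fin 8 → Fin 8 → Fin 8 → ℂ) (A B B' : M8) :
    CC c A (B + B') = CC c A B + CC c A B' := by
  simp only [CC, ← Finset.sum_add_distrib]
  refine Finset.sum_congr rfl fun _ _ => Finset.sum_congr rfl fun _ _ =>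
    Finset.sum_congr rfl fun _ _ => Finset.sum_congr rfl fun _ _ => ?_
  rw [Matrix.add_apply]; ring

theorem CC_smul_left (c : Fin 8 → Fin 8 → Fin 8 → Fin 8 → ℂ) (z : ℂ) (A B : M8) :
    CC c (z • A) B = z * CC c A B := by
  simp only [CC, Finset.mul_sum]
  refine Finset.sum_congr rfl fun _ _ => Finset.sum_congr rfl fun _ _ =>
    Finset.sum_congr rfl fun _ _ => Finset.sum_congr rfl fun _ _ => ?_
  rw [Matrix.smul_apply, smul_eq_mul]; ring

theorem CC_smul_right (c : Fin 8 → Fin 8 → Fin 8 → Fin 8 → ℂ) (z : ℂ) (A B : M8) :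
    CC c A (z • B) = z * CC c A B := by
  simp only [CC, Finset.mul_sum]
  refine Finset.sum_congr rfl fun _ _ => Finset.sum_congr rfl fun _ _ =>
    Finset.sum_congr rfl fun _ _ => Finset.sum_congr rfl fun _ _ => ?_
  rw [Matrix.smul_apply, smul_eq_mul]; ring

/-- The matrices of the symmetric endomorphisms. -/
def ES (b : Basis (Fin 8) ℚ A.H1) : Submodule ℚ Q8 := (EAs A).map (mt b).toLinearMap

theorem mem_ES_span (hb : ∀ i j, A.om (b i) (b j) = JQ i j) {P : M8} (hP : Cm (HH b) P)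
    (hs : Sy P) : P ∈ Submodule.span ℂ {Z | ∃ X ∈ ES b, Z = cc X} := by
  refine mem_span_of_lm _ P fun l => ?_
  refine ⟨(mt b).symm (lm l P), ⟨comp_mem hP l, ?_⟩, ?_⟩
  · rw [mt_sym hb, AlgEquiv.apply_symm_apply]
    exact lm_sy hs
  · exact AlgEquiv.apply_symm_apply _ _

/-- Orthogonality to products over the complex numbers. -/
theorem orth_complex (hb : ∀ i j, A.om (b i) (b j) = JQ i j) {φ : AF A} (hφ : OrthP b φ)
    {P Q : M8} (hP : Cm (HH b) P) (hPs : Sy P) (hQ : Cm (HH b) Q) (hQs : Sy Q) :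
    CC (ac b φ) (P * J8) (Q * J8) = 0 := by
  refine Submodule.span_induction (p := fun P _ => CC (ac b φ) (P * J8) (Q * J8) = 0)
    ?_ ?_ ?_ ?_ (mem_ES_span hb hP hPs)
  · rintro _ ⟨_, ⟨P, hP, rfl⟩, rfl⟩
    refine Submodule.span_induction (p := fun Q _ =>
      CC (ac b φ) (cc ((mt b).toLinearMap P) * J8) (Q * J8) = 0) ?_ ?_ ?_ ?_
      (mem_ES_span hb hQ hQs)
    · rintro _ ⟨_, ⟨Q, hQ, rfl⟩, rfl⟩
      have h1 := hφ P hP Q hQ
      have h2 := congrArg (algebraMap ℚ ℂ) h1
      simp only [map_sum, map_mul, map_zero] at h2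
      rw [← cc_J, ← cc_mul, ← cc_mul]
      exact h2
    · rw [zero_mul]
      simp [CC]
    · intro x y _ _ hx hy
      rw [add_mul, CC_add_right, hx, hy, add_zero]
    · intro z x _ hx
      rw [smul_mul_assoc, CC_smul_right, hx, mul_zero]
  · rw [zero_mul]
    simp [CC]
  · intro x y _ _ hx hy
    rw [add_mul, CC_add_left, hx, hy, add_zero]
  · intro z x _ hx
    rw [smul_mul_assoc, CC_smul_left, hx, mul_zero]

/-- **Classes of degree four on fourfolds with symmetric endomorphisms.** -/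
theorem main_sym (A : AbVar 4) (hs : ∀ P ∈ A.EA, ∀ u v, A.om (P u) v = A.om u (P v)) :
    WA A ≤ QA A := by
  obtain ⟨b, hb⟩ := exists_basis A
  refine span_of_core hb fun φ hφ ho => ?_
  have hctx := ctx_of_sym hb hs
  have h1 : ac b φ = 0 := by
    refine core hctx ⟨ac_alt φ, ?_, ?_⟩
    · rintro _ ⟨X, hX, rfl⟩
      exact ac_inv (hφ X hX)
    · intro P Q hP hQ
      exact orth_complex hb ho hP (hctx.comm P hP) hQ (hctx.comm Q hQ)
  refine eq_zero_of_aq (b := b) fun p q r s => ?_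
  have h2 := congrFun (congrFun (congrFun (congrFun h1 p) q) r) s
  have h3 : ((aq b φ p q r s : ℚ) : ℂ) = 0 := h2
  exact_mod_cast h3

end

end Pool.Agent.V5helper88.F4
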